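import Pool.Agent.Run7.h291.WL.E7

set_option autoImplicit false

/-! The maximum in windows: a local upper bound for joint moments -/

namespace Run7.h291.WG

open Finset Filter MeasureTheory Topology Complex
open Pool.Agent.N748.MG Pool.Agent.N748.MJ Run7.h291.WN Run7.h291.WL Run7.h651.WN

/-- the Fourier side of the universal majorant -/
noncomputable def gm (ξ : ℝ) : ℂ := 3 * (tent (ξ / 2) : ℂ) * (1 + cexp (-(I * (Real.pi / 2 : ℝ) * ξ)))

lemma gm_cont : Continuous gm := by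
  unfold gm
  have := tent_cont
  fun_prop

lemma gm_zero {ξ : ℝ} (h : 2 ≤ |ξ|) : gm ξ = 0 := by
  unfold gm
  rw [tent_zero (by rw [abs_div, abs_of_pos (show (0:ℝ) < 2 by norm_num)]; linarith)]
  simp

lemma gm_csupp : HasCompactSupport gm := by
  refine HasCompactSupport.intro (isCompact_Icc (a := (-2:ℝ)) (b := 2)) fun x hx => gm_zero ?_
  by_contra hc
  push Not at hc
  exact hx ⟨(abs_lt.1 hc).1.le, (abs_lt.1 hc).2.le⟩

lemma gm_le (ξ : ℝ) : ‖gm ξ‖ ≤ 6 := by
  unfold gm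
  rw [norm_mul, norm_mul, Complex.norm_real, Real.norm_of_nonneg (tent_nn _)]
  have h1 : ‖(1:ℂ) + cexp (-(I * (Real.pi / 2 : ℝ) * ξ))‖ ≤ 2 := by
    refine (norm_add_le _ _).trans ?_
    rw [norm_one, Complex.norm_exp]
    have : (-(I * ((Real.pi / 2 : ℝ) : ℂ) * (ξ : ℂ))).re = 0 := by
      rw [Complex.neg_re, mul_assoc, Complex.I_mul_re, ← Complex.ofReal_mul, Complex.ofReal_im, neg_zero, neg_zero]
    rw [this, Real.exp_zero]
    norm_num
  have h2 : ‖(3:ℂ)‖ = 3 := by simp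
  rw [h2]
  have h3 := tent_le (ξ / 2)
  have h4 := tent_nn (ξ / 2)
  calc 3 * tent (ξ / 2) * ‖(1:ℂ) + cexp (-(I * (Real.pi / 2 : ℝ) * ξ))‖ ≤ 3 * 1 * 2 :=
        mul_le_mul (mul_le_mul_of_nonneg_left h3 (by norm_num)) h1 (norm_nonneg _) (by norm_num)
    _ = 6 := by norm_num

/-- the universal majorant -/
noncomputable def km (x : ℝ) : ℝ := 6 * Pool.Agent.N748.MG.LLT.k0 x

lemma km_ge (x : ℝ) : (1 + x ^ 2)⁻¹ ≤ km x := by
  unfold km
  have h1 := Pool.Agent.N748.MG.LLT.k0_ge x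
  have h2 : 0 < 1 + x ^ 2 := by positivity
  rw [inv_eq_one_div, div_le_iff₀ h2]
  linarith

lemma km_pos (x : ℝ) : 0 < km x := by
  unfold km
  have := Pool.Agent.N748.MG.LLT.k0_pos x
  positivity

lemma gm_four (x : ℝ) : ∫ ξ : ℝ, gm ξ * cexp (I * x * ξ) = (km x : ℂ) := by
  have h1 := tent_scale (show (0:ℝ) < 2 by norm_num) x
  have h2 := tent_scale (show (0:ℝ) < 2 by norm_num) (x - Real.pi / 2)
  have hti : Integrable fun ξ : ℝ => tent (ξ / 2) := tent_int.comp_div (by norm_num)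
  have hi : ∀ z : ℝ, Integrable fun ξ : ℝ => (tent (ξ / 2) : ℂ) * cexp (I * z * ξ) := by
    intro z
    refine (hti.ofReal (𝕜 := ℂ)).mono ?_ (Eventually.of_forall fun ξ => ?_)
    · refine Continuous.aestronglyMeasurable ?_
      have := tent_cont
      fun_prop
    · rw [norm_mul, Complex.norm_exp]
      have : (I * (z:ℂ) * (ξ:ℂ)).re = 0 := by
        rw [mul_assoc, Complex.I_mul_re, ← Complex.ofReal_mul, Complex.ofReal_im, neg_zero]
      rw [this, Real.exp_zero, mul_one]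
      exact le_refl _
  have e1 : ∀ ξ : ℝ, gm ξ * cexp (I * x * ξ) = 3 * ((tent (ξ / 2) : ℂ) * cexp (I * x * ξ)) +
      3 * ((tent (ξ / 2) : ℂ) * cexp (I * ((x - Real.pi / 2 : ℝ) : ℂ) * ξ)) := by
    intro ξ
    unfold gm
    have e2 : cexp (I * ((x - Real.pi / 2 : ℝ) : ℂ) * ξ) = cexp (-(I * (Real.pi / 2 : ℝ) * ξ)) * cexp (I * x * ξ) := by
      rw [← Complex.exp_add]
      congr 1
      push_cast
      ring
    rw [e2]
    ring
  simp_rw [e1]
  rw [integral_add ((hi x).const_mul 3) ((hi (x - Real.pi / 2)).const_mul 3), integral_const_mul, integral_const_mul,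
    h1, h2]
  unfold km Pool.Agent.N748.MG.LLT.k0 kf
  have e3 : 2 * x / 2 = x := by ring
  have e4 : 2 * (x - Real.pi / 2) / 2 = x - Real.pi / 2 := by ring
  rw [e3, e4]
  push_cast
  ring

variable {m : ℕ}

/-- the exponents: a complex one at the first point -/
noncomputable def be (k : Fin (m + 1) → ℝ) (ξ : ℝ) : Fin (m + 1) → ℂ := Fin.cons (bb (k 0) ξ) fun j => ((k j.succ : ℝ) : ℂ)

lemma be_zero (k : Fin (m + 1) → ℝ) (ξ : ℝ) : be k ξ 0 = bb (k 0) ξ := rfl
lemma be_succ (k : Fin (m + 1) → ℝ) (ξ : ℝ) (j : Fin m) : be k ξ j.succ = ((k j.succ : ℝ) : ℂ) := rfl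

lemma be_norm {k : Fin (m + 1) → ℝ} {R ξ : ℝ} (hk : ∀ j, |k j| ≤ R) (hξ : |ξ| ≤ 2) (j : Fin (m + 1)) :
    ‖be k ξ j‖ ≤ R + 1 := by
  refine Fin.cases ?_ (fun j => ?_) j
  · rw [be_zero]
    unfold bb
    refine (norm_add_le _ _).trans ?_
    rw [norm_mul, Complex.norm_I, mul_one, Complex.norm_real, Complex.norm_real, Real.norm_eq_abs, Real.norm_eq_abs,
      abs_div, abs_of_pos (show (0:ℝ) < 2 by norm_num)]
    have := hk 0
    linarith
  · rw [be_succ, Complex.norm_real, Real.norm_eq_abs]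
    have := hk j.succ
    linarith

/-- the real part of the products of the exponents -/
lemma be_mul_re (k : Fin (m + 1) → ℝ) (ξ : ℝ) (j l : Fin (m + 1)) :
    (be k ξ j * be k ξ l).re = k j * k l - if j = 0 ∧ l = 0 then ξ ^ 2 / 4 else 0 := by
  refine Fin.cases ?_ (fun j => ?_) j
  · refine Fin.cases ?_ (fun l => ?_) l
    · rw [be_zero, if_pos ⟨rfl, rfl⟩, ← pow_two, bb_sq_re, pow_two]
    · rw [be_zero, be_succ, if_neg (fun h => Fin.succ_ne_zero l h.2)]
      unfold bb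
      simp
  · refine Fin.cases ?_ (fun l => ?_) l
    · rw [be_zero, be_succ, if_neg (fun h => Fin.succ_ne_zero j h.1)]
      unfold bb
      simp
    · rw [be_succ, be_succ, if_neg (fun h => Fin.succ_ne_zero j h.1)]
      simp

lemma LM_be {δ : ℝ} (h0 : 0 < δ) (k h : Fin (m + 1) → ℝ) (ξ : ℝ) :
    ‖cexp (LM (be k ξ) (be k ξ) h δ)‖ = Real.exp (SM.Lr k h δ) *
      Real.exp (-((LZ (1 + 2 * δ) 0).re / 4) * ξ ^ 2) := by
  rw [Complex.norm_exp, ← Real.exp_add]
  congr 1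
  have h1 := sym_sum (m := m + 1) h0 h (fun j l => be k ξ j * be k ξ l) (fun j l => mul_comm _ _)
  unfold LM
  rw [h1, Complex.re_sum]
  unfold SM.Lr
  have e1 : ∀ j, (∑ l, be k ξ j * be k ξ l * (((LZ (1 + 2 * δ) (h j - h l)).re : ℝ) : ℂ)).re =
      ∑ l, k j * k l * (LZ (1 + 2 * δ) (h j - h l)).re -
        ∑ l, (if j = 0 ∧ l = 0 then ξ ^ 2 / 4 else 0) * (LZ (1 + 2 * δ) (h j - h l)).re := by
    intro j
    rw [Complex.re_sum, ← Finset.sum_sub_distrib]
    refine Finset.sum_congr rfl fun l _ => ?_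
    rw [Complex.re_mul_ofReal, be_mul_re]
    ring
  rw [Finset.sum_congr rfl fun j _ => e1 j, Finset.sum_sub_distrib]
  have e2 : ∑ j : Fin (m + 1), ∑ l : Fin (m + 1), (if j = 0 ∧ l = 0 then ξ ^ 2 / 4 else 0) *
      (LZ (1 + 2 * δ) (h j - h l)).re = ξ ^ 2 / 4 * (LZ (1 + 2 * δ) 0).re := by
    rw [Finset.sum_eq_single 0, Finset.sum_eq_single 0]
    · rw [if_pos ⟨rfl, rfl⟩, sub_self]
    · intro l _ hl
      rw [if_neg (fun h => hl h.2), zero_mul]
    · intro h
      exact absurd (Finset.mem_univ _) h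
    · intro j _ hj
      refine Finset.sum_eq_zero fun l _ => ?_
      rw [if_neg (fun h => hj h.1), zero_mul]
    · intro h
      exact absurd (Finset.mem_univ _) h
  rw [e2]
  ring

end Run7.h291.WG
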