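import Pool.Agent.Run7.h291.WG.G9
import Pool.Agent.Run7.h42.LP.App4
import Pool.Agent.Run7.h291.WL.D1

set_option autoImplicit false

/-! The maximum in windows: the first moment of the local weight, lower bound -/

namespace Run7.h291.WG

open Finset Filter MeasureTheory Topology Complex
open Pool.Agent.N748.MG Pool.Agent.N748.MJ Run7.h291.WN Run7.h291.WL Run7.h651.WN
open Pool.Agent.N748.MJ.SM (cc)
open Run7.h42.LP (qf AN XV me RL LH llt red)

/-- the limits which are needed -/
lemma lim_pole {d : ℝ → ℝ} (hd : Ad d) : Tendsto (fun T => (2 * d T) * Real.exp ((LZ (1 + 2 * d T) 0).re)) atTop (𝓝 1) := by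
  have hZ := LZB.main
  have h0 : Tendsto d atTop (𝓝[>] 0) := tendsto_nhdsWithin_iff.2 ⟨hd.t0, hd.pos⟩
  have h1 : Tendsto (fun δ : ℝ => ((1 + 2 * δ : ℝ) : ℂ)) (𝓝[>] 0) (𝓝[≠] 1) := by
    rw [tendsto_nhdsWithin_iff]
    constructor
    · have h2 : Tendsto (fun δ : ℝ => ((1 + 2 * δ : ℝ) : ℂ)) (𝓝 0) (𝓝 ((1 + 2 * (0:ℝ) : ℝ) : ℂ)) := by
        apply Continuous.tendsto
        fun_prop
      have h3 : ((1 + 2 * (0:ℝ) : ℝ) : ℂ) = 1 := by simp
      rw [h3] at h2
      exact h2.mono_left nhdsWithin_le_nhds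
    · filter_upwards [self_mem_nhdsWithin] with δ hδ
      have hδ' : 0 < δ := hδ
      rw [Set.mem_compl_iff, Set.mem_singleton_iff]
      intro h
      have h2 : (1 + 2 * δ : ℝ) = 1 := by exact_mod_cast h
      linarith
  have h2 := ((riemannZeta_residue_one.comp h1).norm).comp h0
  rw [norm_one] at h2
  refine h2.congr' ?_
  filter_upwards [hd.pos, hd.t0.eventually_le_const (show (0 : ℝ) < 1 / 16 by norm_num)] with T ht ht2
  simp only [Function.comp_apply]
  rw [norm_mul, LZ_exp hZ ht ht2]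
  have h5 : ‖((1 + 2 * d T : ℝ) : ℂ) - 1‖ = 2 * d T := by
    have : ((1 + 2 * d T : ℝ) : ℂ) - 1 = ((2 * d T : ℝ) : ℂ) := by push_cast; ring
    rw [this, Complex.norm_real, Real.norm_of_nonneg (by linarith)]
  rw [h5]
  congr 3
  push_cast
  ring

lemma lim_akR {κ : ℝ → ℝ} {V : ℝ} (hκ : Tendsto κ atTop (𝓝 V)) : Tendsto (fun T => akR (κ T)) atTop (𝓝 (akR V)) := by
  have hE := eqc
  set R : ℝ := |V| + 1 with hR
  have hR0 : 0 ≤ R := by positivity
  rw [Metric.tendsto_nhds]
  intro ε hε
  obtain ⟨η, hη, h1⟩ := hE 1 R hR0 (ε / 2) (half_pos hε)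
  have hav : ∀ k : ℝ, aV (fun _ : Fin 1 => (k:ℂ)) (fun _ => (k:ℂ)) (fun _ => 0) = ((akR k : ℝ) : ℂ) := by
    intro k
    rw [av0F 1 _ _ rfl]
    simp only [Finset.univ_unique, Finset.sum_singleton]
    exact (aC_akR k).2
  filter_upwards [(Metric.tendsto_nhds.1 hκ) (min η 1) (lt_min hη one_pos)] with T hT
  rw [Real.dist_eq] at hT ⊢
  have hT1 : |κ T - V| ≤ η := hT.le.trans (min_le_left _ _)
  have hT2 : |κ T - V| ≤ 1 := hT.le.trans (min_le_right _ _)
  have hn1 : |κ T| ≤ R := by
    have := abs_sub_abs_le_abs_sub (κ T) V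
    linarith
  have h2 := h1 (fun _ => ((κ T : ℝ):ℂ)) (fun _ => ((κ T : ℝ):ℂ)) (fun _ => (V:ℂ)) (fun _ => (V:ℂ))
    (fun _ => by rw [Complex.norm_real, Real.norm_eq_abs]; exact hn1)
    (fun _ => by rw [Complex.norm_real, Real.norm_eq_abs]; exact hn1)
    (fun _ => by rw [Complex.norm_real, Real.norm_eq_abs]; linarith)
    (fun _ => by rw [Complex.norm_real, Real.norm_eq_abs]; linarith)
    (fun _ => by rw [← Complex.ofReal_sub, Complex.norm_real, Real.norm_eq_abs]; exact hT1)
    (fun _ => by rw [← Complex.ofReal_sub, Complex.norm_real, Real.norm_eq_abs]; exact hT1) (fun _ => 0)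
  rw [hav, hav, ← Complex.ofReal_sub, Complex.norm_real, Real.norm_eq_abs] at h2
  linarith

lemma lim_L {d : ℝ → ℝ} (hd : Ad d) : Tendsto (fun T => Real.log (1 / d T)) atTop atTop := by
  have h0 : Tendsto d atTop (𝓝[>] 0) := tendsto_nhdsWithin_iff.2 ⟨hd.t0, hd.pos⟩
  have h1 := Real.tendsto_log_atTop.comp (h0.inv_tendsto_nhdsGT_zero)
  refine h1.congr fun T => ?_
  simp only [Function.comp_apply, Pi.inv_apply, one_div]

/-- the lower bound along a sequence -/
theorem flo_seq {V : ℝ} (hV : 0 < V) {g : ℝ → ℝ} {A M : ℝ} (hg : TF g A M) {d : ℝ → ℝ} (hd : Ad d) {y : ℝ → ℝ}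
    (hy : ∀ᶠ T in atTop, |y T - V * Real.log (1 / d T)| ≤ Real.log (1 / d T) ^ ((1:ℝ) / 4)) {ε : ℝ} (hε : 0 < ε) :
    ∀ᶠ T in atTop, ((∫ x, g x) - ε) * T ≤ ∫ t in (0:ℝ)..T, FS V g (d T) (y T) t := by
  have hpi := Real.pi_pos
  have hA1 := hg.A1
  have hM0 := hg.M0
  have hZ := LZB.main
  obtain ⟨C0, hC0, hC02⟩ := LZ_zero hZ
  set L : ℝ → ℝ := fun T => Real.log (1 / d T) with hL
  set l0 : ℝ → ℝ := fun T => (LZ (1 + 2 * d T) 0).re with hl0
  have hLt : Tendsto L atTop atTop := lim_L hd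
  have hsm : ∀ᶠ T : ℝ in atTop, 0 < d T ∧ d T ≤ 1 / 16 := by
    filter_upwards [hd.pos, hd.t0.eventually_le_const (show (0 : ℝ) < 1 / 16 by norm_num)] with T a b
    exact ⟨a, b⟩
  have hlL : ∀ᶠ T in atTop, |l0 T - L T| ≤ C0 := by
    filter_upwards [hsm] with T hT
    exact hC02 (d T) hT.1 hT.2
  have hl0L : ∀ᶠ T in atTop, L T / 2 ≤ l0 T := by
    filter_upwards [hlL, hLt.eventually_ge_atTop (2 * C0)] with T h1 h2
    have := (abs_le.1 h1).1
    linarith
  have hl0t : Tendsto l0 atTop atTop := tendsto_atTop_mono' _ hl0L (hLt.atTop_div_const two_pos)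
  -- the exponent
  set κ0 : ℝ → ℝ := fun T => y T / l0 T with hκ0
  have hdev : ∀ᶠ T in atTop, |y T - V * l0 T| ≤ 2 * L T ^ ((1:ℝ) / 4) := by
    have h2 : ∀ᶠ T in atTop, V * C0 ≤ L T ^ ((1:ℝ) / 4) :=
      ((tendsto_rpow_atTop (show (0:ℝ) < 1 / 4 by norm_num)).comp hLt).eventually_ge_atTop _
    filter_upwards [hy, hlL, h2] with T h3 h4 h5
    have e1 : y T - V * l0 T = (y T - V * L T) - V * (l0 T - L T) := by ring
    rw [e1]
    refine (abs_sub _ _).trans ?_
    rw [abs_mul, abs_of_pos hV]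
    have := mul_le_mul_of_nonneg_left h4 hV.le
    linarith
  have hsq : Tendsto (fun T => (y T - V * l0 T) ^ 2 / l0 T) atTop (𝓝 0) := by
    have h1 : Tendsto (fun T => 8 * L T ^ (-((1:ℝ) / 2))) atTop (𝓝 (8 * 0)) :=
      ((tendsto_rpow_neg_atTop (show (0:ℝ) < 1 / 2 by norm_num)).comp hLt).const_mul 8
    rw [mul_zero] at h1
    refine squeeze_zero' ?_ ?_ h1
    · filter_upwards [hl0t.eventually_gt_atTop 0] with T hT
      positivity
    · filter_upwards [hdev, hl0L, hLt.eventually_gt_atTop 0] with T h2 h3 h4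
      have h5 : (y T - V * l0 T) ^ 2 ≤ 4 * L T ^ ((1:ℝ) / 2) := by
        rw [← sq_abs]
        refine (pow_le_pow_left₀ (abs_nonneg _) h2 2).trans (le_of_eq ?_)
        rw [mul_pow, ← Real.rpow_natCast (L T ^ ((1:ℝ) / 4)), ← Real.rpow_mul h4.le]
        norm_num
      rw [div_le_iff₀ (by linarith)]
      have h6 : 8 * L T ^ (-((1:ℝ) / 2)) * (L T / 2) = 4 * L T ^ ((1:ℝ) / 2) := by
        have : L T ^ (-((1:ℝ) / 2)) * L T = L T ^ ((1:ℝ) / 2) := by
          nth_rw 2 [← Real.rpow_one (L T)]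
          rw [← Real.rpow_add h4]
          norm_num
        rw [← this]
        ring
      have h7 : 0 ≤ 8 * L T ^ (-((1:ℝ) / 2)) := by positivity
      have h8 := mul_le_mul_of_nonneg_left h3 h7
      linarith
  have hκ2 : Tendsto (fun T => (V - κ0 T) ^ 2 * l0 T) atTop (𝓝 0) := by
    refine hsq.congr' ?_
    filter_upwards [hl0t.eventually_gt_atTop 0] with T hT
    rw [hκ0]
    simp only
    field_simp
    ring
  have hκ1 : Tendsto (fun T => (V - κ0 T) ^ 2) atTop (𝓝 0) := by
    refine squeeze_zero' (Eventually.of_forall fun T => sq_nonneg _) ?_ hκ2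
    filter_upwards [hl0t.eventually_ge_atTop 1] with T hT
    nlinarith [sq_nonneg (V - κ0 T)]
  have hκa : Tendsto (fun T => |V - κ0 T|) atTop (𝓝 0) := by
    have h1 := hκ1.sqrt
    rw [Real.sqrt_zero] at h1
    exact h1.congr fun T => Real.sqrt_sq_eq_abs _
  have hκV : Tendsto κ0 atTop (𝓝 V) := by
    have h1 := (tendsto_zero_iff_abs_tendsto_zero _).2 hκa
    have h2 := h1.const_sub V
    rw [sub_zero] at h2
    exact h2.congr fun T => by ring
  -- clipping
  set κ : ℝ → ℝ := fun T => max 0 (min (V + 1) (κ0 T)) with hκ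
  have hκe : ∀ᶠ T in atTop, κ T = κ0 T := by
    filter_upwards [hκV.eventually_lt_const (show V < V + 1 by linarith), hκV.eventually_const_lt hV] with T h1 h2
    rw [hκ]
    simp only
    rw [min_eq_right h1.le, max_eq_right h2.le]
  have hκb : ∀ T, |κ T| ≤ V + 1 := fun T => by
    rw [hκ]
    simp only
    rw [abs_of_nonneg (le_max_left _ _)]
    exact max_le (by linarith) (min_le_left _ _)
  have hκn : ∀ T, 0 ≤ κ T := fun T => le_max_left _ _
  -- helper42's limit theorem
  set h : ℝ → Fin 1 → ℝ := fun _ _ => 0 with hh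
  have hq : ∀ᶠ T : ℝ in atTop, ∀ ξ : Fin 1 → ℝ, (1 / 2) * (Real.log (1 / d T) * ∑ j, ξ j ^ 2) ≤ qf (d T) (h T) ξ := by
    filter_upwards [hl0L] with T hT ξ
    unfold qf RL
    simp only [Finset.univ_unique, Finset.sum_singleton, hh, sub_self]
    have h1 := mul_le_mul_of_nonneg_left hT (sq_nonneg (ξ default))
    simp only [hL, hl0] at h1
    nlinarith
  have hhT : ∀ᶠ T : ℝ in atTop, ∀ j, |h T j| ≤ T ^ ((1:ℝ) / 2) := by
    filter_upwards [eventually_ge_atTop 0] with T hT j
    rw [hh]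
    simp only [abs_zero]
    positivity
  obtain ⟨ν, hν, hred⟩ := red jmF posF hZ eqc hd hhT (show (0:ℝ) < 1 / 2 by norm_num) hq (fun T _ => κ T) (fun T _ => hκb T)
    (by linarith : (0:ℝ) ≤ V + 1)
  set gT : ℝ → (Fin 1 → ℝ) → ℝ := fun T x => Real.exp (2 * κ T * x 0) * g (x 0) with hgT
  have hgm : Measurable fun x : Fin 1 → ℝ => g (x 0) := hg.cont.measurable.comp (measurable_pi_apply 0)
  have hr := hred gT (Real.exp (2 * (V + 1) * A) * M) (fun T => by
    rw [hgT]
    simp only
    refine Measurable.mul ?_ hgm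
    exact Real.measurable_exp.comp ((measurable_pi_apply 0).const_mul _)) (fun T x => by
    rw [hgT]
    simp only
    rw [abs_mul, Real.abs_exp, abs_of_nonneg (hg.nn _)]
    rcases le_or_gt A |x 0| with hx | hx
    · rw [hg.supp _ hx, mul_zero]
      positivity
    · refine mul_le_mul (Real.exp_le_exp.2 ?_) (hg.le _) (hg.nn _) (Real.exp_pos _).le
      have h1 : x 0 ≤ A := (le_abs_self _).trans hx.le
      have h2 : κ T ≤ V + 1 := (le_abs_self _).trans (hκb T)
      calc 2 * κ T * x 0 ≤ 2 * κ T * A := mul_le_mul_of_nonneg_left h1 (by have := hκn T; linarith)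
        _ ≤ 2 * (V + 1) * A := mul_le_mul_of_nonneg_right (by linarith) (by linarith))
  have hlt := llt hν (fun x => g (x 0)) ∅ measure_empty hgm (fun x _ => by
    exact (hg.cont.comp (continuous_apply 0)).continuousAt) (M * (1 + A ^ 2)) (fun x => by
    simp only [Finset.univ_unique, Finset.prod_singleton]
    rw [abs_of_nonneg (hg.nn _)]
    rcases le_or_gt A |x 0| with hx | hx
    · rw [hg.supp _ hx, zero_mul]
      positivity
    · have h1 : x 0 ^ 2 ≤ A ^ 2 := by
        rw [← sq_abs]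
        exact pow_le_pow_left₀ (abs_nonneg _) hx.le 2
      exact mul_le_mul (hg.le _) (by
        have : (default : Fin 1) = 0 := rfl
        rw [this]
        linarith) (by positivity) hM0)
  have hI : ∫ x : Fin 1 → ℝ, g (x 0) = ∫ x, g x := by
    have h1 := (volume_preserving_funUnique (Fin 1) ℝ).integral_comp' g
    rw [← h1]
    rfl
  rw [hI] at hlt
  have hmain : Tendsto (fun T => AN (qf (d T) (h T)) * Real.exp (qf (d T) (h T) fun _ => κ T) /
      (aV (cc fun _ : Fin 1 => κ T) (cc fun _ => κ T) (h T)).re *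
      ((1 / T) * ∫ t in (0:ℝ)..T, gT T (XV (d T) (h T) (fun _ => κ T) t))) atTop (𝓝 (∫ x, g x)) := by
    have h2 := hlt.sub hr
    rw [sub_zero] at h2
    refine h2.congr fun T => ?_
    have e1 : ∀ x : Fin 1 → ℝ, Real.exp (-(∑ j, 2 * κ T * x j)) * gT T x = g (x 0) := by
      intro x
      rw [hgT]
      simp only [Finset.univ_unique, Finset.sum_singleton]
      have : (default : Fin 1) = 0 := rfl
      rw [this, ← mul_assoc, ← Real.exp_add, neg_add_cancel, Real.exp_zero, one_mul]
    simp_rw [e1]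
    ring
  -- the ratio
  set ρ : ℝ → ℝ := fun T => √(Real.log (1 / (2 * d T)) / l0 T) * ((2 * d T) * Real.exp (l0 T)) ^ (V ^ 2) *
    Real.exp (-((V - κ0 T) ^ 2 * l0 T)) * Real.exp (-(2 * |V - κ0 T| * A)) * (akR (κ0 T) / akR V) with hρ
  have hρ1 : Tendsto ρ atTop (𝓝 1) := by
    have t1 : Tendsto (fun T => Real.log (1 / (2 * d T)) / l0 T) atTop (𝓝 1) := by
      have h1 : Tendsto (fun T => (C0 + Real.log 2) / l0 T) atTop (𝓝 0) := hl0t.const_div_atTop _
      have h2 : Tendsto (fun T => Real.log (1 / (2 * d T)) / l0 T - 1) atTop (𝓝 0) := by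
        refine squeeze_zero_norm' ?_ h1
        filter_upwards [hlL, hsm, hl0t.eventually_gt_atTop 0] with T g1 g2 g3
        have g4 : Real.log (1 / (2 * d T)) = L T - Real.log 2 := by
          rw [hL]
          simp only
          rw [one_div, one_div, mul_inv, Real.log_mul (by norm_num) (inv_ne_zero g2.1.ne'), Real.log_inv]
          ring
        have g5 : Real.log (1 / (2 * d T)) / l0 T - 1 = (L T - Real.log 2 - l0 T) / l0 T := by
          rw [g4]
          field_simp
        rw [g5, norm_div, Real.norm_of_nonneg g3.le]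
        refine div_le_div_of_nonneg_right ?_ g3.le
        rw [Real.norm_eq_abs]
        have g6 := abs_le.1 g1
        have g7 := Real.log_nonneg (show (1:ℝ) ≤ 2 by norm_num)
        rw [abs_le]
        constructor <;> linarith
      have h3 := h2.add_const 1
      rw [zero_add] at h3
      exact h3.congr fun T => by ring
    have t2 := (lim_pole hd).rpow_const (p := V ^ 2) (Or.inl one_ne_zero)
    rw [Real.one_rpow] at t2
    have t3 := (Real.continuous_exp.tendsto _).comp hκ2.neg
    rw [neg_zero, Real.exp_zero] at t3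
    have t4 := (Real.continuous_exp.tendsto _).comp (((hκa.const_mul 2).mul_const A).neg)
    rw [mul_zero, zero_mul, neg_zero, Real.exp_zero] at t4
    have t5 := (lim_akR hκV).div_const (akR V)
    rw [div_self (akp V).ne'] at t5
    have t6 := (((t1.sqrt.mul t2).mul t3).mul t4).mul t5
    rw [Real.sqrt_one] at t6
    simp only [mul_one] at t6
    exact t6
  have hprod := hρ1.mul hmain
  rw [one_mul] at hprod
  have hyA : ∀ᶠ T in atTop, A ≤ y T := by
    have h1 : Tendsto (fun T => κ0 T * l0 T) atTop atTop := hκV.pos_mul_atTop hV hl0t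
    filter_upwards [h1.eventually_ge_atTop A, hl0t.eventually_gt_atTop 0] with T g1 g2
    have : κ0 T * l0 T = y T := by
      rw [hκ0]
      simp only
      field_simp
    linarith
  filter_upwards [hprod.eventually_const_lt (show (∫ x, g x) - ε < ∫ x, g x by linarith), hsm, hκe, hl0t.eventually_gt_atTop 0,
    eventually_gt_atTop 0, hyA, hq] with T g1 g2 g3 g4 g5 g6 g7
  obtain ⟨h0, h1⟩ := g2
  have hav : (aV (cc fun _ : Fin 1 => κ T) (cc fun _ => κ T) (h T)).re = akR (κ T) := by
    have h2 : aV (cc fun _ : Fin 1 => κ T) (cc fun _ => κ T) (h T) = aC (∑ j : Fin 1, (cc (fun _ => κ T)) j) :=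
      av0F 1 _ _ rfl
    rw [h2]
    simp only [Finset.univ_unique, Finset.sum_singleton]
    exact aC_re (κ T)
  have hqf : ∀ k : ℝ, qf (d T) (h T) (fun _ : Fin 1 => k) = k ^ 2 * l0 T := by
    intro k
    unfold qf RL
    simp only [Finset.univ_unique, Finset.sum_singleton, hh, sub_self, hl0]
    ring
  have hAN : AN (qf (d T) (h T)) = √Real.pi * √(l0 T) := by
    set R : Matrix (Fin 1) (Fin 1) ℝ := Matrix.of fun j l => RL (d T) (h T) j l with hR
    have hLp : 0 < 1 / 2 * Real.log (1 / d T) := by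
      have := log_inv_ge h0 h1
      linarith
    have hpd : R.PosDef := by
      refine Run7.h42.LP.posDef_of (fun j l => Run7.h42.LP.RL_symm h0 _ j l) hLp fun ξ => ?_
      have := g7 ξ
      rw [mul_assoc]
      exact this
    rw [Run7.h42.LP.AN_det R hpd (qf (d T) (h T)) (fun ξ => rfl), pow_one]
    congr 2
    rw [Matrix.det_fin_one, hR]
    simp only [Matrix.of_apply]
    unfold RL
    rw [hh, hl0]
    simp only [sub_self]
  have hκ' : κ T * l0 T = y T := by
    rw [g3, hκ0]
    simp only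
    field_simp
  have hX : ∀ t, XV (d T) (h T) (fun _ : Fin 1 => κ T) t 0 = Real.log (mz (d T) t) - y T := by
    intro t
    unfold XV me RL
    simp only [Finset.univ_unique, Finset.sum_singleton, hh, sub_self, add_zero]
    rw [← hκ']
  rw [hav, hqf, hAN] at g1
  -- the comparison
  have ha := akp V
  have hak := akp (κ T)
  set R : ℝ := WL.sq (d T) * ((2 * d T) ^ (V ^ 2) / akR V) * Real.exp (2 * V * y T) * Real.exp (-(2 * |V - κ0 T| * A)) with hR
  have h2d : 0 < 2 * d T := by linarith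
  have hR0 : 0 ≤ R := by
    have := sq_nn (d T)
    have := Real.rpow_pos_of_pos h2d (V ^ 2)
    positivity
  have hcmp : ∀ t, R * gT T (XV (d T) (h T) (fun _ : Fin 1 => κ T) t) ≤ FS V g (d T) (y T) t := by
    intro t
    rw [hgT]
    simp only
    rw [hX t]
    rcases (TMA.mz_nn (d T) t).eq_or_lt with hm | hm
    · rw [← hm, Real.log_zero, hg.supp (0 - y T) (by rw [zero_sub, abs_neg]; exact g6.trans (le_abs_self _)), mul_zero, mul_zero]
      exact FS_nn hg.nn h0.le _ _
    set x := Real.log (mz (d T) t) - y T with hx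
    by_cases hne : g x = 0
    · rw [hne, mul_zero, mul_zero]
      exact FS_nn hg.nn h0.le _ _
    have hxA : |x| < A := by
      by_contra hc
      push Not at hc
      exact hne (hg.supp _ hc)
    have e1 : mz (d T) t ^ (2 * V) = Real.exp (2 * V * (x + y T)) := by
      rw [hx, sub_add_cancel, Real.rpow_def_of_pos hm]
      congr 1
      ring
    unfold FS Zk
    rw [e1, ← hx, hR]
    have e2 : Real.exp (2 * V * y T) * Real.exp (-(2 * |V - κ0 T| * A)) * Real.exp (2 * κ T * x) ≤ Real.exp (2 * V * (x + y T)) := by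
      rw [← Real.exp_add, ← Real.exp_add]
      refine Real.exp_le_exp.2 ?_
      rw [g3]
      have e3 : |(V - κ0 T) * x| ≤ |V - κ0 T| * A := by
        rw [abs_mul]
        exact mul_le_mul_of_nonneg_left hxA.le (abs_nonneg _)
      have e4 := (abs_le.1 e3).1
      nlinarith
    have hs := sq_nn (d T)
    have hc := Real.rpow_pos_of_pos h2d (V ^ 2)
    calc WL.sq (d T) * ((2 * d T) ^ V ^ 2 / akR V) * Real.exp (2 * V * y T) * Real.exp (-(2 * |V - κ0 T| * A)) *
        (Real.exp (2 * κ T * x) * g x) = WL.sq (d T) * g x * ((2 * d T) ^ V ^ 2 / akR V) *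
        (Real.exp (2 * V * y T) * Real.exp (-(2 * |V - κ0 T| * A)) * Real.exp (2 * κ T * x)) := by ring
      _ ≤ WL.sq (d T) * g x * ((2 * d T) ^ V ^ 2 / akR V) * Real.exp (2 * V * (x + y T)) :=
          mul_le_mul_of_nonneg_left e2 (mul_nonneg (mul_nonneg hs (hg.nn _)) (by positivity))
      _ = _ := by ring
  have hRρ : R = ρ T * (√Real.pi * √(l0 T) * Real.exp (κ T ^ 2 * l0 T) / akR (κ T)) := by
    rw [hR, hρ]
    simp only
    rw [← g3]
    have e1 : WL.sq (d T) = √(Real.log (1 / (2 * d T)) / l0 T) * (√Real.pi * √(l0 T)) := by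
      unfold WL.sq
      rw [← Real.sqrt_mul hpi.le, ← Real.sqrt_mul (div_nonneg (log2_nn h0 h1) g4.le)]
      congr 1
      field_simp
    have e2 : ((2 * d T) * Real.exp (l0 T)) ^ (V ^ 2) = (2 * d T) ^ (V ^ 2) * Real.exp (V ^ 2 * l0 T) := by
      rw [Real.mul_rpow h2d.le (Real.exp_pos _).le, ← Real.exp_mul]
      congr 2
      ring
    have e3 : Real.exp (V ^ 2 * l0 T) * Real.exp (-((V - κ T) ^ 2 * l0 T)) * Real.exp (κ T ^ 2 * l0 T) =
        Real.exp (2 * V * y T) := by
      rw [← Real.exp_add, ← Real.exp_add, ← hκ']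
      congr 1
      ring
    rw [e1, e2, ← e3]
    field_simp
  have hint : ∫ t in (0:ℝ)..T, R * gT T (XV (d T) (h T) (fun _ : Fin 1 => κ T) t) ≤ ∫ t in (0:ℝ)..T, FS V g (d T) (y T) t := by
    have hgx : ∀ t, gT T (XV (d T) (h T) (fun _ : Fin 1 => κ T) t) =
        Real.exp (2 * κ T * (Real.log (mz (d T) t) - y T)) * g (Real.log (mz (d T) t) - y T) := by
      intro t
      rw [hgT]
      simp only
      rw [hX t]
    have hFc := FS_cont hV hg.cont (B := -A) (fun x hx => hg.supp x (by rw [abs_of_nonpos (by linarith)]; linarith)) h1 (y T)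
    refine intervalIntegral.integral_mono_on g5.le ?_ (hFc.intervalIntegrable _ _) fun t _ => hcmp t
    -- integrability: bounded measurable
    refine IntervalIntegrable.const_mul ?_ _
    simp_rw [hgx]
    have hmm : Measurable fun t => Real.exp (2 * κ T * (Real.log (mz (d T) t) - y T)) * g (Real.log (mz (d T) t) - y T) := by
      have h2 : Measurable fun t => Real.log (mz (d T) t) - y T := (Real.measurable_log.comp (TMA.cont h1).measurable).sub_const _
      exact (Real.measurable_exp.comp (h2.const_mul _)).mul (hg.cont.measurable.comp h2)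
    rw [intervalIntegrable_iff]
    refine Measure.integrableOn_of_bounded (M := Real.exp (2 * (V + 1) * A) * M) ?_ hmm.aestronglyMeasurable
      (Eventually.of_forall fun t => ?_)
    · rw [Set.uIoc_of_le g5.le, Real.volume_Ioc]
      exact ENNReal.ofReal_ne_top
    · rw [norm_mul, Real.norm_of_nonneg (Real.exp_pos _).le, Real.norm_of_nonneg (hg.nn _)]
      rcases le_or_gt A |Real.log (mz (d T) t) - y T| with hx | hx
      · rw [hg.supp _ hx, mul_zero]
        positivity
      · refine mul_le_mul (Real.exp_le_exp.2 ?_) (hg.le _) (hg.nn _) (Real.exp_pos _).le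
        have h1 : Real.log (mz (d T) t) - y T ≤ A := (le_abs_self _).trans hx.le
        have h2 : κ T ≤ V + 1 := (le_abs_self _).trans (hκb T)
        calc 2 * κ T * (Real.log (mz (d T) t) - y T) ≤ 2 * κ T * A := mul_le_mul_of_nonneg_left h1 (by have := hκn T; linarith)
          _ ≤ 2 * (V + 1) * A := mul_le_mul_of_nonneg_right (by linarith) (by linarith)
  rw [intervalIntegral.integral_const_mul] at hint
  refine le_trans ?_ hint
  have e5 : R * ∫ t in (0:ℝ)..T, gT T (XV (d T) (h T) (fun _ : Fin 1 => κ T) t) =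
      (ρ T * (√Real.pi * √(l0 T) * Real.exp (κ T ^ 2 * l0 T) / akR (κ T) *
        (1 / T * ∫ t in (0:ℝ)..T, gT T (XV (d T) (h T) (fun _ : Fin 1 => κ T) t)))) * T := by
    rw [hRρ]
    field_simp
  rw [e5]
  exact mul_le_mul_of_nonneg_right g1.le g5.le

open Classical in
/-- (FLO) the mean of the local weight, lower bound -/
theorem flo : S_FLO := by
  intro V hV g A M hg ε hε
  refine ev_of_seq fun d hd => ?_
  set bad : ℝ → ℝ → Prop := fun T y => |y - V * Real.log (1 / d T)| ≤ Real.log (1 / d T) ^ ((1:ℝ) / 4) ∧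
    ¬ (((∫ x, g x) - ε) * T ≤ ∫ t in (0:ℝ)..T, FS V g (d T) y t) with hbad
  set y : ℝ → ℝ := fun T => if h : ∃ y, bad T y then Classical.choose h else V * Real.log (1 / d T) with hy
  have h1 : ∀ᶠ T in atTop, |y T - V * Real.log (1 / d T)| ≤ Real.log (1 / d T) ^ ((1:ℝ) / 4) := by
    filter_upwards [(lim_L hd).eventually_ge_atTop 0] with T hT
    rw [hy]
    simp only
    split_ifs with h
    · exact (Classical.choose_spec h).1
    · rw [sub_self, abs_zero]
      exact Real.rpow_nonneg hT _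
  filter_upwards [flo_seq hV hg hd h1 hε] with T hT
  by_contra hc
  push Not at hc
  obtain ⟨y0, hy1, hy2⟩ := hc
  have hex : ∃ y, bad T y := ⟨y0, hy1, not_le.2 hy2⟩
  have e : y T = Classical.choose hex := by
    rw [hy]
    simp only
    rw [dif_pos hex]
  have h2 := (Classical.choose_spec hex).2
  rw [← e] at h2
  exact h2 hT

end Run7.h291.WG
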