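import Pool.Agent.Run7.h291.WG.G10
import Pool.Agent.Run7.h42.WN_MNB
import Pool.Agent.Run7.h772.WN_ZML

set_option autoImplicit false

/-! The maximum in windows: the lower bound -/

namespace Run7.h291.WG

open Finset Filter MeasureTheory Topology Complex
open Pool.Agent.N748.MG Pool.Agent.N748.MJ Run7.h291.WN Run7.h291.WL Run7.h651.WN

/-- the points of the window where zeta is large -/
def LV (V a δ t : ℝ) : Set ℝ := {u : ℝ | u ∈ Set.Icc t (t + δ ^ (-(V ^ 2 - 1))) ∧ Real.exp (lev V δ + a) ≤ mz δ u}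

lemma LV_meas (V a t : ℝ) {δ : ℝ} (h1 : δ ≤ 1 / 16) : MeasurableSet (LV V a δ t) := by
  unfold LV
  exact measurableSet_Icc.inter (measurableSet_le measurable_const (TMA.cont h1).measurable)

lemma LV_fin (V a δ t : ℝ) : volume (LV V a δ t) < ⊤ := by
  refine (measure_mono (fun u hu => hu.1 : LV V a δ t ⊆ Set.Icc t (t + δ ^ (-(V ^ 2 - 1))))).trans_lt ?_
  rw [Real.volume_Icc]
  exact ENNReal.ofReal_lt_top

/-- many large values in almost all windows -/
theorem lowm {V : ℝ} (hV : 1 < V) {ε : ℝ} (hε : 0 < ε) : ∃ a c : ℝ, 0 < c ∧ Ev fun X δ =>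
    volume {t : ℝ | 0 ≤ t ∧ t ≤ X ∧ volume.real (LV V a δ t) < c * δ} ≤ ENNReal.ofReal (ε * X) := by
  have hV0 : 0 < V := by linarith
  obtain ⟨n, η, H⟩ := swin (Run7.h42.WN.mnb Run7.h772.zml) flo far hV
  obtain ⟨K, a, HE⟩ := H (ε / 4) (by positivity)
  obtain ⟨Cs, hCs, E6⟩ := FS_up' hV0
  refine ⟨a - 1, 1 / (2 * Cs * Real.exp (2 * V * a)), by positivity, HE.mono ?_⟩
  intro X δ hX1 h0 h1 hE
  have hX0 : 0 < X := by linarith
  set y : ℝ := lev V δ + a with hy
  set W : ℝ := δ ^ (-(V ^ 2 - 1)) with hW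
  have hW0 : 0 < W := Real.rpow_pos_of_pos h0 _
  have hFc : Continuous fun t => FS V tent δ y t :=
    FS_cont hV0 tent_cont (B := -1) (fun x hx => tent_zero (by rw [abs_of_nonpos (by linarith)]; linarith)) h1 y
  have hfc : Continuous (fB n V η K a δ) := hFc.mul (BB_cont h1)
  have hAc := Av_cont (l := W) hfc
  have hmk := markov (g := fun t => 4 * (Av W (fB n V η K a δ) t - 1) ^ 2) (by fun_prop) (fun t => by positivity) hX0.le
    (e := ε * X) (by
      rw [intervalIntegral.integral_const_mul]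
      linarith)
  refine (measure_mono ?_).trans hmk
  rintro t ⟨ht1, ht2, ht3⟩
  refine ⟨ht1, ht2, ?_⟩
  by_contra hc
  push Not at hc
  have h2 : 1 / 2 ≤ Av W (fB n V η K a δ) t := by
    by_contra hc2
    push Not at hc2
    nlinarith
  refine absurd ht3 (not_lt.2 ?_)
  -- the integral over the window
  have h3 : W / 2 ≤ ∫ u in t..(t + W), fB n V η K a δ u := by
    unfold Av at h2
    rw [intervalIntegral.integral_comp_add_left (fun u => fB n V η K a δ u), add_zero] at h2
    rw [one_div, one_div, le_inv_mul_iff₀ hW0] at h2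
    linarith
  set G0 : ℝ := √(Real.log (1 / δ)) * Real.exp (2 * V * y) * δ ^ (V ^ 2) with hG0
  have hG : G0 = Real.exp (2 * V * a) * δ ^ (-(V ^ 2)) := lev_G hV0 h0 h1
  have hG00 : 0 < G0 := by
    rw [hG]
    have := Real.rpow_pos_of_pos h0 (-(V ^ 2))
    positivity
  set S := LV V (a - 1) δ t with hS
  have hSm : MeasurableSet S := LV_meas _ _ _ h1
  have h4 : ∫ u in t..(t + W), fB n V η K a δ u ≤ Cs * G0 * volume.real S := by
    rw [intervalIntegral.integral_of_le (by linarith), ← integral_Icc_eq_integral_Ioc]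
    have h5 : Cs * G0 * volume.real S = ∫ u in Set.Icc t (t + W), S.indicator (fun _ => Cs * G0) u := by
      rw [setIntegral_indicator hSm, setIntegral_const, smul_eq_mul, mul_comm]
      congr 2
      exact (Set.inter_eq_right.2 fun u hu => hu.1).symm
    rw [h5]
    refine setIntegral_mono_on hfc.integrableOn_Icc ?_ measurableSet_Icc fun u hu => ?_
    · refine (integrableOn_const (C := Cs * G0) ?_ ).indicator hSm
      rw [Real.volume_Icc]
      exact ENNReal.ofReal_ne_top
    by_cases hne : FS V tent δ y u = 0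
    · have h6 : fB n V η K a δ u = 0 := by
        unfold fB
        rw [← hy, hne, zero_mul]
      rw [h6]
      exact Set.indicator_nonneg (fun _ _ => by positivity) _
    have hm : 0 < mz δ u := by
      rcases (TMA.mz_nn δ u).eq_or_lt with hm | hm
      · exact absurd (FS_zero_of hV0 hm.symm) hne
      · exact hm
    have h6 : u ∈ S := by
      refine ⟨hu, ?_⟩
      have h7 : |Real.log (mz δ u) - y| < 1 := by
        by_contra hc3
        push Not at hc3
        exact hne (FS_eq_zero (tent_zero hc3))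
      rw [← Real.exp_log hm]
      refine Real.exp_le_exp.2 ?_
      have := (abs_lt.1 h7).1
      linarith
    rw [Set.indicator_of_mem h6]
    have h7 : fB n V η K a δ u ≤ FS V tent δ y u := mul_le_of_le_one_right (FS_nn tent_nn h0.le _ _) BB_le
    exact h7.trans (E6 δ h0 h1 y u)
  have h5 := h3.trans h4
  have h6 : W = δ ^ (-(V ^ 2)) * δ := by
    rw [hW]
    nth_rw 3 [← Real.rpow_one δ]
    rw [← Real.rpow_add h0]
    congr 1
    ring
  have hdp : 0 < δ ^ (-(V ^ 2)) := Real.rpow_pos_of_pos h0 _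
  rw [hG, h6] at h5
  have h7 : δ ^ (-(V ^ 2)) * (δ / 2) ≤ δ ^ (-(V ^ 2)) * (Cs * Real.exp (2 * V * a) * volume.real S) := by
    calc δ ^ (-(V ^ 2)) * (δ / 2) = δ ^ (-(V ^ 2)) * δ / 2 := by ring
      _ ≤ _ := h5
      _ = _ := by ring
  have h8 := le_of_mul_le_mul_left h7 hdp
  rw [one_div, inv_mul_le_iff₀ (by positivity)]
  linarith

end Run7.h291.WG
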