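import Pool.Agent.Run7.h291.WG.G11

set_option autoImplicit false

/-! The maximum in windows: the moments, upper bound -/

namespace Run7.h291.WG

open Finset Filter MeasureTheory Topology Complex
open Pool.Agent.N748.MG Pool.Agent.N748.MJ Run7.h291.WN Run7.h291.WL Run7.h651.WN

/-- an exponential is bounded by a sum of kernels -/
lemma exp_sum {c z : ℝ} (hz : z ≤ 0) {J : ℕ} (hJ : -z ≤ J) : Real.exp (c * z) ≤
    Real.exp |c| * (2 * ∑ j ∈ Finset.range (J + 1), Real.exp (-(c * j)) * (1 + (z + j) ^ 2)⁻¹) := by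
  set i : ℕ := ⌊-z⌋₊ with hi
  have h1 : (i:ℝ) ≤ -z := Nat.floor_le (by linarith)
  have h2 : -z < i + 1 := Nat.lt_floor_add_one _
  have h3 : i ≤ J := by
    have : (i:ℝ) ≤ J := h1.trans hJ
    exact_mod_cast this
  have h4 : Real.exp (-(c * i)) * (1 + (z + i) ^ 2)⁻¹ ≤
      ∑ j ∈ Finset.range (J + 1), Real.exp (-(c * j)) * (1 + (z + j) ^ 2)⁻¹ :=
    Finset.single_le_sum (f := fun j : ℕ => Real.exp (-(c * j)) * (1 + (z + j) ^ 2)⁻¹)
      (fun j _ => by positivity) (Finset.mem_range.2 (by omega))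
  have h5 : 1 / 2 ≤ (1 + (z + i) ^ 2)⁻¹ := by
    rw [← one_div]
    exact one_div_le_one_div_of_le (by positivity) (by nlinarith)
  have h6 : Real.exp (c * z) ≤ Real.exp |c| * Real.exp (-(c * i)) := by
    rw [← Real.exp_add]
    refine Real.exp_le_exp.2 ?_
    have h7 : c * (z + i) ≤ |c| := by
      refine (le_abs_self _).trans ?_
      rw [abs_mul]
      exact mul_le_of_le_one_right (abs_nonneg _) (abs_le.2 ⟨by linarith, by linarith⟩)
    linarith
  calc Real.exp (c * z) ≤ Real.exp |c| * Real.exp (-(c * i)) := h6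
    _ = Real.exp |c| * (2 * (Real.exp (-(c * i)) * (1 / 2))) := by ring
    _ ≤ Real.exp |c| * (2 * (Real.exp (-(c * i)) * (1 + (z + i) ^ 2)⁻¹)) := by gcongr
    _ ≤ _ := by gcongr

/-- the truncated power -/
noncomputable def phi (k y δ u : ℝ) : ℝ := mz δ u ^ (2 * k) * psi (mz δ u * Real.exp (-y))

lemma phi_nn {k y δ u : ℝ} : 0 ≤ phi k y δ u := mul_nonneg (Real.rpow_nonneg (TMA.mz_nn _ _) _) (psi_nn _)

lemma phi_cont {k y δ : ℝ} (hk : 0 ≤ k) (h1 : δ ≤ 1 / 16) : Continuous fun u => phi k y δ u := by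
  unfold phi
  exact ((TMA.cont h1).rpow_const fun t => Or.inr (by linarith)).mul (psi_cont.comp ((TMA.cont h1).mul continuous_const))

lemma phi_supp {k y δ u : ℝ} (h : phi k y δ u ≠ 0) : mz δ u < Real.exp (y + 1) := by
  have h2 : psi (mz δ u * Real.exp (-y)) ≠ 0 := fun h3 => h (by unfold phi; rw [h3, mul_zero])
  have h3 : mz δ u * Real.exp (-y) < 2 := by
    by_contra hc
    push Not at hc
    exact h2 (psi_zero hc)
  have h4 : mz δ u < 2 * Real.exp y := by
    have h5 := mul_lt_mul_of_pos_right h3 (Real.exp_pos y)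
    rwa [mul_assoc, ← Real.exp_add, neg_add_cancel, Real.exp_zero, mul_one] at h5
  rw [Real.exp_add, mul_comm (Real.exp y)]
  have h6 : (2:ℝ) < Real.exp 1 := by linarith [Real.exp_one_gt_d9]
  nlinarith [Real.exp_pos y]

lemma phi_bd {k y δ u : ℝ} (hk : 0 ≤ k) : phi k y δ u ≤ Real.exp (2 * k * (y + 1)) := by
  by_cases h : phi k y δ u = 0
  · rw [h]
    positivity
  have h2 := Real.rpow_le_rpow (TMA.mz_nn δ u) (phi_supp h).le (show 0 ≤ 2 * k by linarith)
  rw [← Real.exp_mul] at h2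
  calc phi k y δ u ≤ mz δ u ^ (2 * k) := mul_le_of_le_one_right (Real.rpow_nonneg (TMA.mz_nn _ _) _) (psi_le _)
    _ ≤ Real.exp ((y + 1) * (2 * k)) := h2
    _ = _ := by
      congr 1
      ring

/-- the mean of the truncated power -/
theorem phi_mean {V : ℝ} (hV : 1 < V) {k : ℝ} (hk : V < k) (b : ℝ) : ∃ C : ℝ, 0 < C ∧ Ev fun X δ =>
    ∫ t in (0:ℝ)..X, phi k (lev V δ + b) δ t ≤ C * (δ ^ (V ^ 2) * Real.exp (2 * k * lev V δ)) * X := by
  have hV0 : 0 < V := by linarith
  have hk0 : 0 < k := by linarith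
  set c : ℝ := 2 * (k - V) with hc
  have hc0 : 0 < c := by
    rw [hc]
    linarith
  obtain ⟨C1, H1⟩ := Lr_one V
  set W : ℝ := 2 * k * (V + 1) with hW
  have hW0 : 0 < W := by positivity
  obtain ⟨C2, hC2, HL⟩ := lt 0 V (W + V ^ 2) hV0 (by positivity)
  set q : ℝ := Real.exp (-c) with hq
  have hq0 : 0 < q := Real.exp_pos _
  have hq1 : q < 1 := by
    rw [hq, Real.exp_lt_one_iff]
    linarith
  have hiq : 0 < (1 - q)⁻¹ := inv_pos.2 (by linarith)
  set Ct : ℝ := Real.exp |c| * 2 * Real.exp (c * (b + 1)) * (1 - q)⁻¹ * C2 * Real.exp C1 + 2 with hCt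
  have hCt0 : 0 < Ct := by positivity
  have hX : ∀ᶠ X : ℝ in atTop, (1:ℝ) ≤ X ^ ((1:ℝ) / 2) :=
    (tendsto_rpow_atTop (by norm_num)).eventually_ge_atTop _
  refine ⟨Ct, hCt0, ((HL.and (Ev.of_ev hX)).and ((lev_le V (b + 1) hV0).and (lev_le V 0 hV0))).mono ?_⟩
  rintro X δ hX1 h0 h1 ⟨⟨HL, hX2⟩, ⟨l1, -⟩, ⟨l3, l4⟩⟩
  have hX0 : 0 < X := by linarith
  set L := Real.log (1 / δ) with hLd
  have hL1 : 1 ≤ L := log_inv_ge h0 h1
  have hlev : 0 ≤ lev V δ := by
    have h2 : L ^ ((1:ℝ) / 4) ≤ L := by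
      calc L ^ ((1:ℝ) / 4) ≤ L ^ (1:ℝ) := Real.rpow_le_rpow_of_exponent_le hL1 (by norm_num)
        _ = L := Real.rpow_one L
    have h3 := (abs_le.1 l4).1
    nlinarith
  set y2 : ℝ := lev V δ + (b + 1) with hy2
  set J : ℕ := ⌈(2 * V + 2) * L⌉₊ with hJ
  have hJ1 : (2 * V + 2) * L ≤ J := Nat.le_ceil _
  obtain ⟨N, n1, n2, n3, n4, n5⟩ := HL (fun _ => 0) (by
    intro j
    rw [abs_zero]
    linarith)
  have n5' := fun j : ℕ => n5 (fun _ => V) (by
    intro j
    rw [abs_of_pos hV0]) (y2 - j)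
  choose H hHi hHl hHb using n5'
  have hLr := H1 δ h0 h1
  set E := Real.exp (SM.Lr (fun _ : Fin 1 => V) (fun _ => 0) δ) with hE
  have hE0 : 0 < E := Real.exp_pos _
  have hrp : ∀ a : ℝ, 0 < δ ^ a := fun a => Real.rpow_pos_of_pos h0 a
  set w : ℕ → ℝ := fun j => Real.exp |c| * 2 * Real.exp (c * y2) * q ^ j with hw
  have hw0 : ∀ j, 0 ≤ w j := fun j => by
    rw [hw]
    positivity
  have hqj : ∀ j : ℕ, Real.exp (-(c * j)) = q ^ j := fun j => by
    rw [hq, ← Real.exp_nat_mul]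
    congr 1
    ring
  set GG : ℝ → ℝ := fun t => δ ^ (V ^ 2) + ∑ j ∈ Finset.range (J + 1), w j * H j t with hGG
  have hNf : volume N < ⊤ := (measure_mono n2).trans_lt (by rw [Real.volume_Icc]; exact ENNReal.ofReal_lt_top)
  have hci : IntegrableOn (fun _ : ℝ => δ ^ (V ^ 2)) N := integrableOn_const hNf.ne
  have hsi : IntegrableOn (fun t => ∑ j ∈ Finset.range (J + 1), w j * H j t) N :=
    integrable_finsetSum _ fun j _ => (hHi j).const_mul _
  have hGi : IntegrableOn GG N := hci.add hsi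
  have hoff := offN (g := fun t => phi k (lev V δ + b) δ t) (G := GG) (N := N) (X := X)
    (B := δ ^ (-W)) (c := 1) (v := δ ^ (W + V ^ 2) * X) hX0.le n1 n2 n3
    (mul_nonneg (Real.rpow_nonneg h0.le _) hX0.le) (phi_cont hk0.le h1) (fun t => phi_nn) (fun t => by
      refine (phi_bd hk0.le).trans ?_
      rw [← expL h0]
      refine Real.exp_le_exp.2 ?_
      have h2 : lev V δ + b + 1 = y2 := by rw [hy2]; ring
      rw [h2, hW, mul_assoc (2 * k)]
      exact mul_le_mul_of_nonneg_left l1 (by positivity)) hGi (fun t ht => by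
      rw [one_mul]
      have hm : 0 < mz δ t := by
        have := n4 t ht 0
        rwa [add_zero] at this
      by_cases hne : phi k (lev V δ + b) δ t = 0
      · rw [hne, hGG]
        refine add_nonneg (hrp _).le (Finset.sum_nonneg fun j _ => mul_nonneg (hw0 j) ?_)
        refine le_trans ?_ (hHl j t ht)
        exact mul_nonneg (SM.G_nn _ _ _ _) (by positivity)
      have hsup := phi_supp hne
      have hl : Real.log (mz δ t) < y2 := by
        rw [← Real.log_exp y2]
        refine Real.log_lt_log hm (hsup.trans_le (Real.exp_le_exp.2 (by rw [hy2]; linarith)))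
      set z : ℝ := Real.log (mz δ t) - y2 with hz
      have hmk : mz δ t ^ (2 * k) = Real.exp (2 * k * (z + y2)) := by
        rw [hz, sub_add_cancel, Real.rpow_def_of_pos hm]
        congr 1
        ring
      have hle : phi k (lev V δ + b) δ t ≤ mz δ t ^ (2 * k) :=
        mul_le_of_le_one_right (Real.rpow_nonneg (TMA.mz_nn _ _) _) (psi_le _)
      have hs0 : 0 ≤ ∑ j ∈ Finset.range (J + 1), w j * H j t := Finset.sum_nonneg fun j _ => mul_nonneg (hw0 j) (by
        refine le_trans ?_ (hHl j t ht)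
        exact mul_nonneg (SM.G_nn _ _ _ _) (by positivity))
      rcases lt_or_ge (J:ℝ) (-z) with hzJ | hzJ
      · -- small values
        have h2 : mz δ t ^ (2 * k) ≤ δ ^ (V ^ 2) := by
          rw [hmk]
          have h3 := expL h0 (-(V ^ 2))
          rw [neg_neg] at h3
          rw [← h3]
          refine Real.exp_le_exp.2 ?_
          have h4 : z + y2 ≤ -((V + 1) * L) := by
            have : y2 ≤ (V + 1) * L := l1
            nlinarith
          have h5 : 2 * k * (z + y2) ≤ 2 * k * (-((V + 1) * L)) := mul_le_mul_of_nonneg_left h4 (by positivity)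
          have h6 : V ^ 2 * L ≤ 2 * k * ((V + 1) * L) := by
            have h7 : V ^ 2 ≤ 2 * k * (V + 1) := by nlinarith
            nlinarith
          linarith
        rw [hGG]
        show _ ≤ δ ^ (V ^ 2) + _
        linarith
      · have h2 := exp_sum (c := c) (show z ≤ 0 by rw [hz]; linarith) hzJ
        have h3 : mz δ t ^ (2 * k) = Real.exp (c * y2) * (Real.exp (c * z) * mz δ t ^ (2 * V)) := by
          rw [hmk]
          have : mz δ t ^ (2 * V) = Real.exp (2 * V * (z + y2)) := by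
            rw [hz, sub_add_cancel, Real.rpow_def_of_pos hm]
            congr 1
            ring
          rw [this, ← Real.exp_add, ← Real.exp_add]
          congr 1
          rw [hc]
          ring
        have h4 : Real.exp (c * y2) * (Real.exp (c * z) * mz δ t ^ (2 * V)) ≤ ∑ j ∈ Finset.range (J + 1), w j * H j t := by
          have h5 := mul_le_mul_of_nonneg_right h2 (Real.rpow_nonneg hm.le (2 * V))
          have h6 := mul_le_mul_of_nonneg_left h5 (Real.exp_pos (c * y2)).le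
          refine h6.trans ?_
          have h7 : Real.exp (c * y2) * (Real.exp |c| * (2 * ∑ j ∈ Finset.range (J + 1), Real.exp (-(c * j)) *
              (1 + (z + j) ^ 2)⁻¹) * mz δ t ^ (2 * V)) =
              ∑ j ∈ Finset.range (J + 1), w j * (mz δ t ^ (2 * V) * (1 + (z + j) ^ 2)⁻¹) := by
            rw [Finset.mul_sum, Finset.mul_sum, Finset.sum_mul, Finset.mul_sum]
            refine Finset.sum_congr rfl fun j _ => ?_
            rw [hqj, hw]
            ring
          rw [h7]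
          refine Finset.sum_le_sum fun j _ => mul_le_mul_of_nonneg_left ?_ (hw0 j)
          refine le_trans (le_of_eq ?_) (hHl j t ht)
          have hG : SM.G (fun _ : Fin 1 => V) (fun _ => 0) δ t = mz δ t ^ (2 * V) := by
            unfold SM.G
            simp
          rw [hG, add_zero, hz]
          congr 3
          ring
        rw [hGG]
        show _ ≤ δ ^ (V ^ 2) + _
        have := (hrp (V ^ 2)).le
        linarith)
  refine hoff.trans ?_
  rw [one_mul]
  have f1 : δ ^ (-W) * (δ ^ (W + V ^ 2) * X) = δ ^ (V ^ 2) * X := by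
    rw [← mul_assoc, ← Real.rpow_add h0]
    congr 2
    ring
  rw [f1]
  have f2 : ∫ t in N, GG t ≤ δ ^ (V ^ 2) * X + Real.exp |c| * 2 * Real.exp (c * y2) * (1 - q)⁻¹ * (C2 * (X * (E / √L))) := by
    have g1 : ∫ t in N, GG t = (∫ _t in N, δ ^ (V ^ 2)) + ∫ t in N, ∑ j ∈ Finset.range (J + 1), w j * H j t :=
      integral_add hci hsi
    rw [g1]
    refine add_le_add ?_ ?_
    · rw [setIntegral_const, smul_eq_mul, mul_comm]
      refine mul_le_mul_of_nonneg_left ?_ (hrp _).le
      have h2 := measureReal_mono (μ := volume) n2 (by rw [Real.volume_Icc]; exact ENNReal.ofReal_ne_top)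
      rw [Real.volume_real_Icc_of_le hX0.le, sub_zero] at h2
      exact h2
    · rw [integral_finsetSum _ fun j _ => (hHi j).const_mul _]
      simp_rw [integral_const_mul]
      have h2 : ∀ j ∈ Finset.range (J + 1), w j * ∫ t in N, H j t ≤ w j * (C2 * (X * (E / √L))) := fun j _ =>
        mul_le_mul_of_nonneg_left (hHb j) (hw0 j)
      refine (Finset.sum_le_sum h2).trans ?_
      rw [← Finset.sum_mul]
      refine mul_le_mul_of_nonneg_right ?_ (by positivity)
      rw [hw]
      simp only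
      rw [← Finset.mul_sum]
      refine mul_le_mul_of_nonneg_left ?_ (by positivity)
      have h3 := geom_sum_eq hq1.ne (J + 1)
      rw [h3, ← neg_div_neg_eq, neg_sub, neg_sub, div_eq_mul_inv]
      refine mul_le_of_le_one_left (inv_nonneg.2 (by linarith)) ?_
      have : 0 < q ^ (J + 1) := by positivity
      linarith
  have f3 : E ≤ Real.exp C1 * δ ^ (-(V ^ 2)) := by
    rw [← expL h0, ← Real.exp_add]
    exact Real.exp_le_exp.2 (by linarith)
  have f4 : δ ^ (-(V ^ 2)) / √L = δ ^ (V ^ 2) * Real.exp (2 * V * lev V δ) := by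
    have h2 := lev_G (V := V) (a := 0) hV0 h0 h1
    rw [add_zero, mul_zero, Real.exp_zero, one_mul, ← hLd] at h2
    have hs : 0 < √L := Real.sqrt_pos.2 (by linarith)
    rw [← h2]
    field_simp
  have f5 : E / √L ≤ Real.exp C1 * (δ ^ (V ^ 2) * Real.exp (2 * V * lev V δ)) := by
    rw [← f4, ← mul_div_assoc]
    exact div_le_div_of_nonneg_right f3 (Real.sqrt_nonneg _)
  have f6 : Real.exp (c * y2) = Real.exp (c * (b + 1)) * Real.exp (c * lev V δ) := by
    rw [← Real.exp_add, hy2]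
    congr 1
    ring
  have f7 : Real.exp (c * lev V δ) * Real.exp (2 * V * lev V δ) = Real.exp (2 * k * lev V δ) := by
    rw [← Real.exp_add]
    congr 1
    rw [hc]
    ring
  have f8 : 1 ≤ Real.exp (2 * k * lev V δ) := Real.one_le_exp (by positivity)
  have hd := hrp (V ^ 2)
  calc (∫ t in N, GG t) + δ ^ (V ^ 2) * X ≤ δ ^ (V ^ 2) * X + Real.exp |c| * 2 * Real.exp (c * y2) * (1 - q)⁻¹ *
        (C2 * (X * (E / √L))) + δ ^ (V ^ 2) * X := add_le_add f2 le_rfl
    _ ≤ δ ^ (V ^ 2) * X + Real.exp |c| * 2 * Real.exp (c * y2) * (1 - q)⁻¹ *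
        (C2 * (X * (Real.exp C1 * (δ ^ (V ^ 2) * Real.exp (2 * V * lev V δ))))) + δ ^ (V ^ 2) * X := by gcongr
    _ = (Ct - 2) * (δ ^ (V ^ 2) * (Real.exp (c * lev V δ) * Real.exp (2 * V * lev V δ))) * X + 2 * (δ ^ (V ^ 2) * 1) * X := by
        rw [f6, hCt]
        ring
    _ ≤ (Ct - 2) * (δ ^ (V ^ 2) * Real.exp (2 * k * lev V δ)) * X + 2 * (δ ^ (V ^ 2) * Real.exp (2 * k * lev V δ)) * X := by
        rw [f7]
        gcongr
    _ = _ := by ring

/-- the truncated moments of almost all windows, upper bound -/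
theorem upm {V : ℝ} (hV : 1 < V) {k : ℝ} (hk : V < k) (b : ℝ) {ε : ℝ} (hε : 0 < ε) : ∃ C : ℝ, 0 < C ∧ Ev fun X δ =>
    volume {t : ℝ | 0 ≤ t ∧ t ≤ X ∧ C * (δ * Real.exp (2 * k * lev V δ)) <
      ∫ u in t..(t + δ ^ (-(V ^ 2 - 1))), phi k (lev V δ + b) δ u} ≤ ENNReal.ofReal (ε * X) := by
  have hV0 : 0 < V := by linarith
  have hk0 : 0 < k := by linarith
  obtain ⟨C, hC, HE⟩ := phi_mean hV hk b
  set W : ℝ := 2 * k * (V + 1) with hW
  have hW0 : 0 < W := by positivity
  set θ : ℝ := V ^ 2 - 1 with hθ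
  have hθ0 : 0 < θ := by
    rw [hθ]
    nlinarith
  refine ⟨6 * (C + 1) / ε, by positivity, (((HE.and ((lev_le V (b + 1) hV0).and (lev_le V 0 hV0))).and
    (Ev.win (D := θ + W + V ^ 2) (c := 1) (e := 1) one_pos one_pos)).and
    (Ev.win (D := θ) (c := ε / 2) (e := 1) (half_pos hε) one_pos)).mono ?_⟩
  rintro X δ hX1 h0 h1 ⟨⟨⟨HE, ⟨l1, -⟩, ⟨-, l4⟩⟩, w1⟩, w2⟩
  have hX0 : 0 < X := by linarith
  rw [Real.rpow_one, one_mul] at w1
  rw [Real.rpow_one] at w2
  set L := Real.log (1 / δ) with hLd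
  have hL1 : 1 ≤ L := log_inv_ge h0 h1
  have hlev : 0 ≤ lev V δ := by
    have h2 : L ^ ((1:ℝ) / 4) ≤ L := by
      calc L ^ ((1:ℝ) / 4) ≤ L ^ (1:ℝ) := Real.rpow_le_rpow_of_exponent_le hL1 (by norm_num)
        _ = L := Real.rpow_one L
    have h3 := (abs_le.1 l4).1
    nlinarith
  set H : ℝ := δ ^ (-θ) with hH
  have hH0 : 0 < H := Real.rpow_pos_of_pos h0 _
  have hrp : ∀ a : ℝ, 0 < δ ^ a := fun a => Real.rpow_pos_of_pos h0 a
  set Q : ℝ := δ ^ (V ^ 2) * Real.exp (2 * k * lev V δ) with hQ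
  have hQ0 : 0 < Q := by
    have := hrp (V ^ 2)
    positivity
  have hQ1 : δ ^ (V ^ 2) ≤ Q := le_mul_of_one_le_right (hrp _).le (Real.one_le_exp (by positivity))
  set φ : ℝ → ℝ := fun u => phi k (lev V δ + b) δ u with hφ
  have hφc : Continuous φ := phi_cont hk0.le h1
  have hφB : ∀ u, φ u ≤ δ ^ (-W) := fun u => by
    refine (phi_bd hk0.le).trans ?_
    rw [← expL h0]
    refine Real.exp_le_exp.2 ?_
    have h2 : lev V δ + b + 1 = lev V δ + (b + 1) := by ring
    rw [h2, hW, mul_assoc (2 * k)]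
    exact mul_le_mul_of_nonneg_left l1 (by positivity)
  have hint : ∫ s in (0:ℝ)..(X + H), φ s ≤ (C + 1) * Q * X := by
    rw [← intervalIntegral.integral_add_adjacent_intervals (hφc.intervalIntegrable 0 X) (hφc.intervalIntegrable X (X + H))]
    have g1 : ∫ s in X..(X + H), φ s ≤ Q * X := by
      have g2 := intervalIntegral.integral_mono_on (μ := volume) (by linarith : X ≤ X + H) (hφc.intervalIntegrable _ _)
        (by simp : IntervalIntegrable (fun _ : ℝ => δ ^ (-W)) volume X (X + H)) fun u _ => hφB u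
      rw [intervalIntegral.integral_const, smul_eq_mul, add_sub_cancel_left] at g2
      refine g2.trans ?_
      have g3 : H * δ ^ (-W) = δ ^ (-(θ + W + V ^ 2)) * δ ^ (V ^ 2) := by
        rw [hH, ← Real.rpow_add h0, ← Real.rpow_add h0]
        congr 1
        ring
      rw [g3]
      calc δ ^ (-(θ + W + V ^ 2)) * δ ^ (V ^ 2) ≤ X * Q := mul_le_mul w1 hQ1 (hrp _).le hX0.le
        _ = Q * X := mul_comm _ _
    have g4 : ∫ s in (0:ℝ)..X, φ s ≤ C * Q * X := HE
    linarith
  have hcQ : 0 < 6 * (C + 1) / ε * Q := by positivity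
  have hw := weak_vol (g := φ) hφc (fun x => phi_nn) (l := H) (X := X) (c := 6 * (C + 1) / ε * Q) (e := ε / 2 * X) hH0
    hX0.le hcQ (by
      have h2 : 6 * (C + 1) / ε * Q * (ε / 2 * X) = 3 * ((C + 1) * Q * X) := by
        field_simp
        ring
      rw [h2]
      linarith)
  have hsub : {t : ℝ | 0 ≤ t ∧ t ≤ X ∧ 6 * (C + 1) / ε * (δ * Real.exp (2 * k * lev V δ)) <
      ∫ u in t..(t + H), phi k (lev V δ + b) δ u} ⊆
      {t | 0 ≤ t ∧ t ≤ X ∧ ∃ H', H ≤ H' ∧ t + H' ≤ X ∧ 6 * (C + 1) / ε * Q * H' < ∫ s in t..(t + H'), φ s} ∪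
      Set.Icc (X - H) X := by
    rintro t ⟨g1, g2, g3⟩
    rcases le_or_gt (t + H) X with g4 | g4
    · left
      refine ⟨g1, g2, H, le_rfl, g4, ?_⟩
      have g5 : Q * H = δ * Real.exp (2 * k * lev V δ) := by
        rw [hQ, hH]
        have : δ ^ (V ^ 2) * δ ^ (-θ) = δ := by
          rw [← Real.rpow_add h0, hθ]
          have : V ^ 2 + -(V ^ 2 - 1) = 1 := by ring
          rw [this, Real.rpow_one]
        calc δ ^ (V ^ 2) * Real.exp (2 * k * lev V δ) * δ ^ (-θ) = (δ ^ (V ^ 2) * δ ^ (-θ)) * Real.exp (2 * k * lev V δ) := by ring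
          _ = _ := by rw [this]
      rw [mul_assoc, g5]
      exact g3
    · right
      exact ⟨by linarith, g2⟩
  refine (measure_mono hsub).trans ((measure_union_le _ _).trans ?_)
  have hsum : ε * X = ε / 2 * X + ε / 2 * X := by ring
  rw [hsum, ENNReal.ofReal_add (by positivity) (by positivity)]
  refine add_le_add hw ?_
  rw [Real.volume_Icc]
  refine ENNReal.ofReal_le_ofReal ?_
  linarith

end Run7.h291.WG
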