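import Pool.Agent.Run7.h291.WG.G12

set_option autoImplicit false

/-! The maximum in windows: the theorem -/

namespace Run7.h291.WG

open Finset Filter MeasureTheory Topology Complex
open Pool.Agent.N748.MG Pool.Agent.N748.MJ Run7.h291.WN Run7.h291.WL Run7.h651.WN

/-- the order of the maximum -/
noncomputable def MM (θ δ : ℝ) : ℝ := δ ^ (-√(1 + θ)) * Real.log (1 / δ) ^ (-(1 / (4 * √(1 + θ))))

lemma MM_lev {θ δ : ℝ} (hθ : 0 < θ) (h0 : 0 < δ) (h1 : δ ≤ 1 / 16) : Real.exp (lev (√(1 + θ)) δ) = MM θ δ := by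
  have hL : 0 < Real.log (1 / δ) := lt_of_lt_of_le one_pos (log_inv_ge h0 h1)
  unfold lev MM
  rw [Real.exp_sub, expL h0, Real.rpow_neg hL.le, Real.rpow_def_of_pos hL, div_eq_mul_inv]
  congr 3
  ring

/-- the behaviour of zeta in the window `[t, t + δ^(-θ)]` -/
structure Good (θ K ε C δ t : ℝ) : Prop where
  /-- the maximum, upper bound -/
  up : ∀ u ∈ Set.Icc t (t + δ ^ (-θ)), mz δ u ≤ C * MM θ δ
  /-- many values of the order of the maximum -/
  low : δ / C ≤ volume.real {u : ℝ | u ∈ Set.Icc t (t + δ ^ (-θ)) ∧ MM θ δ / C ≤ mz δ u}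
  /-- the number of large values, upper bound -/
  cnt : ∀ c : ℝ, 0 < c → volume.real {u : ℝ | u ∈ Set.Icc t (t + δ ^ (-θ)) ∧ c * MM θ δ ≤ mz δ u} ≤
    C * c ^ (-(2 * (√(1 + θ) + ε))) * δ
  /-- the moments, upper bounds -/
  mup : ∀ k : ℝ, √(1 + θ) + ε ≤ k → k ≤ K → ∫ u in t..(t + δ ^ (-θ)), mz δ u ^ (2 * k) ≤ C * (δ * MM θ δ ^ (2 * k))
  /-- the moments, lower bounds -/
  mlow : ∀ k : ℝ, 0 ≤ k → k ≤ K → δ * MM θ δ ^ (2 * k) / C ≤ ∫ u in t..(t + δ ^ (-θ)), mz δ u ^ (2 * k)

/-- the deterministic part -/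
theorem good_of {θ K ε : ℝ} (hθ : 0 < θ) (hε : 0 < ε) {a b c C1 : ℝ} (hc : 0 < c) (hC1 : 0 < C1) :
    ∃ C : ℝ, 0 < C ∧ ∀ δ t : ℝ, 0 < δ → δ ≤ 1 / 16 → c * δ ≤ volume.real (LV (√(1 + θ)) a δ t) →
    (∀ u ∈ Set.Icc t (t + δ ^ (-θ)), mz δ u < Real.exp (lev (√(1 + θ)) δ + b)) →
    ∫ u in t..(t + δ ^ (-θ)), phi (√(1 + θ) + ε) (lev (√(1 + θ)) δ + b) δ u ≤
      C1 * (δ * Real.exp (2 * (√(1 + θ) + ε) * lev (√(1 + θ)) δ)) → Good θ K ε C δ t := by
  set V : ℝ := √(1 + θ) with hV
  have hV2 : V ^ 2 - 1 = θ := by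
    rw [hV, Real.sq_sqrt (by linarith)]
    ring
  have hV0 : 0 < V := Real.sqrt_pos.2 (by linarith)
  set k1 : ℝ := V + ε with hk1
  have hk10 : 0 < k1 := by positivity
  set C : ℝ := Real.exp |b| + Real.exp |a| + 1 / c + C1 + C1 * Real.exp (2 * |b| * |K|) + Real.exp (2 * |a| * |K|) / c with hC
  have hC0 : 0 < C := by positivity
  have e1 : Real.exp |b| ≤ C := by
    rw [hC]
    have : 0 < Real.exp |a| := Real.exp_pos _
    have : 0 < 1 / c := by positivity
    have : 0 < C1 * Real.exp (2 * |b| * |K|) := by positivity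
    have : 0 < Real.exp (2 * |a| * |K|) / c := by positivity
    linarith
  have e2 : Real.exp |a| ≤ C := by
    rw [hC]
    have : 0 < Real.exp |b| := Real.exp_pos _
    have : 0 < 1 / c := by positivity
    have : 0 < C1 * Real.exp (2 * |b| * |K|) := by positivity
    have : 0 < Real.exp (2 * |a| * |K|) / c := by positivity
    linarith
  have e3 : 1 / c ≤ C := by
    rw [hC]
    have : 0 < Real.exp |b| := Real.exp_pos _
    have : 0 < Real.exp |a| := Real.exp_pos _
    have : 0 < C1 * Real.exp (2 * |b| * |K|) := by positivity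
    have : 0 < Real.exp (2 * |a| * |K|) / c := by positivity
    linarith
  have e4 : C1 ≤ C := by
    rw [hC]
    have : 0 < Real.exp |b| := Real.exp_pos _
    have : 0 < Real.exp |a| := Real.exp_pos _
    have : 0 < 1 / c := by positivity
    have : 0 < C1 * Real.exp (2 * |b| * |K|) := by positivity
    have : 0 < Real.exp (2 * |a| * |K|) / c := by positivity
    linarith
  have e5 : C1 * Real.exp (2 * |b| * |K|) ≤ C := by
    rw [hC]
    have : 0 < Real.exp |b| := Real.exp_pos _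
    have : 0 < Real.exp |a| := Real.exp_pos _
    have : 0 < 1 / c := by positivity
    have : 0 < Real.exp (2 * |a| * |K|) / c := by positivity
    linarith
  have e6 : Real.exp (2 * |a| * |K|) / c ≤ C := by
    rw [hC]
    have : 0 < Real.exp |b| := Real.exp_pos _
    have : 0 < Real.exp |a| := Real.exp_pos _
    have : 0 < 1 / c := by positivity
    have : 0 < C1 * Real.exp (2 * |b| * |K|) := by positivity
    linarith
  refine ⟨C, hC0, fun δ t h0 h1 A1 A2 A3 => ?_⟩
  set H : ℝ := δ ^ (-θ) with hH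
  have hH0 : 0 < H := Real.rpow_pos_of_pos h0 _
  have hmc : Continuous fun u => mz δ u := TMA.cont h1
  set m : ℝ := MM θ δ with hm
  have hme : Real.exp (lev V δ) = m := MM_lev hθ h0 h1
  have hm0 : 0 < m := by
    rw [← hme]
    exact Real.exp_pos _
  have hub : ∀ u ∈ Set.Icc t (t + H), mz δ u ≤ Real.exp b * m := fun u hu => by
    have := (A2 u hu).le
    rw [Real.exp_add, hme] at this
    linarith
  have hmk : ∀ k : ℝ, Real.exp (2 * k * lev V δ) = m ^ (2 * k) := fun k => by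
    rw [← hme, ← Real.exp_mul]
    congr 1
    ring
  have hphi : ∀ u ∈ Set.Icc t (t + H), phi k1 (lev V δ + b) δ u = mz δ u ^ (2 * k1) := fun u hu => by
    unfold phi
    rw [psi_one, mul_one]
    have h2 := mul_le_mul_of_nonneg_right (A2 u hu).le (Real.exp_pos (-(lev V δ + b))).le
    rwa [← Real.exp_add, add_neg_cancel, Real.exp_zero] at h2
  have hint : ∫ u in t..(t + H), mz δ u ^ (2 * k1) ≤ C1 * (δ * m ^ (2 * k1)) := by
    have h2 : ∫ u in t..(t + H), mz δ u ^ (2 * k1) = ∫ u in t..(t + H), phi k1 (lev V δ + b) δ u := by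
      refine intervalIntegral.integral_congr fun u hu => ?_
      rw [Set.uIcc_of_le (by linarith)] at hu
      exact (hphi u hu).symm
    rw [h2, ← hmk]
    exact A3
  have hpc : ∀ k : ℝ, 0 ≤ k → Continuous fun u => mz δ u ^ (2 * k) := fun k hk =>
    hmc.rpow_const fun t => Or.inr (by linarith)
  -- a Markov inequality in the window
  have hmk2 : ∀ c' : ℝ, 0 < c' → ∀ k : ℝ, 0 ≤ k → (c' ^ (2 * k)) * volume.real {u : ℝ | u ∈ Set.Icc t (t + H) ∧ c' ≤ mz δ u} ≤
      ∫ u in t..(t + H), mz δ u ^ (2 * k) := by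
    intro c' hc' k hk
    set S : Set ℝ := {u : ℝ | u ∈ Set.Icc t (t + H) ∧ c' ≤ mz δ u} with hS
    have hSm : MeasurableSet S := measurableSet_Icc.inter (measurableSet_le measurable_const hmc.measurable)
    rw [intervalIntegral.integral_of_le (by linarith), ← integral_Icc_eq_integral_Ioc]
    have h5 : c' ^ (2 * k) * volume.real S = ∫ u in Set.Icc t (t + H), S.indicator (fun _ => c' ^ (2 * k)) u := by
      rw [setIntegral_indicator hSm, setIntegral_const, smul_eq_mul, mul_comm]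
      congr 2
      exact (Set.inter_eq_right.2 fun u hu => hu.1).symm
    rw [h5]
    refine setIntegral_mono_on ?_ (hpc k hk).integrableOn_Icc measurableSet_Icc fun u hu => ?_
    · refine (integrableOn_const (C := c' ^ (2 * k)) ?_ ).indicator hSm
      rw [Real.volume_Icc]
      exact ENNReal.ofReal_ne_top
    · by_cases hu2 : u ∈ S
      · rw [Set.indicator_of_mem hu2]
        exact Real.rpow_le_rpow hc'.le hu2.2 (by linarith)
      · rw [Set.indicator_of_notMem hu2]
        exact Real.rpow_nonneg (TMA.mz_nn _ _) _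
  have hLVe : LV V a δ t = {u : ℝ | u ∈ Set.Icc t (t + H) ∧ Real.exp a * m ≤ mz δ u} := by
    unfold LV
    rw [hV2, ← hme, ← Real.exp_add, add_comm a]
  rw [hLVe] at A1
  refine ⟨fun u hu => ?_, ?_, fun c' hc' => ?_, fun k hk hkK => ?_, fun k hk hkK => ?_⟩
  · refine (hub u hu).trans (mul_le_mul_of_nonneg_right ?_ hm0.le)
    exact (Real.exp_le_exp.2 (le_abs_self b)).trans e1
  · -- many large values
    have h2 : {u : ℝ | u ∈ Set.Icc t (t + H) ∧ Real.exp a * m ≤ mz δ u} ⊆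
        {u : ℝ | u ∈ Set.Icc t (t + H) ∧ m / C ≤ mz δ u} := by
      rintro u ⟨g1, g2⟩
      refine ⟨g1, le_trans ?_ g2⟩
      rw [div_le_iff₀ hC0]
      have g3 : 1 ≤ Real.exp a * C := by
        have g4 : Real.exp (-|a|) ≤ Real.exp a := Real.exp_le_exp.2 (neg_abs_le a)
        calc (1:ℝ) = Real.exp (-|a|) * Real.exp |a| := by rw [← Real.exp_add, neg_add_cancel, Real.exp_zero]
          _ ≤ Real.exp a * C := mul_le_mul g4 e2 (Real.exp_pos _).le (Real.exp_pos _).le
      nlinarith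
    have h3 := measureReal_mono (μ := volume) h2 (by
      refine ((measure_mono (fun u hu => hu.1 : {u : ℝ | u ∈ Set.Icc t (t + H) ∧ m / C ≤ mz δ u} ⊆
        Set.Icc t (t + H))).trans_lt ?_).ne
      rw [Real.volume_Icc]
      exact ENNReal.ofReal_lt_top)
    refine le_trans ?_ (A1.trans h3)
    rw [div_le_iff₀ hC0]
    rw [div_le_iff₀ hc] at e3
    nlinarith
  · -- the number of large values
    have h2 := hmk2 (c' * m) (by positivity) k1 hk10.le
    have h3 : (c' * m) ^ (2 * k1) = c' ^ (2 * k1) * m ^ (2 * k1) := Real.mul_rpow hc'.le hm0.le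
    have hp1 : 0 < c' ^ (2 * k1) := Real.rpow_pos_of_pos hc' _
    have hp2 : 0 < m ^ (2 * k1) := Real.rpow_pos_of_pos hm0 _
    rw [Real.rpow_neg hc'.le]
    have h4 : c' ^ (2 * k1) * m ^ (2 * k1) * volume.real {u : ℝ | u ∈ Set.Icc t (t + H) ∧ c' * m ≤ mz δ u} ≤
        C1 * (δ * m ^ (2 * k1)) := by
      rw [← h3]
      exact h2.trans hint
    have h5 : c' ^ (2 * k1) * volume.real {u : ℝ | u ∈ Set.Icc t (t + H) ∧ c' * m ≤ mz δ u} ≤ C1 * δ := by
      have h6 : m ^ (2 * k1) * (c' ^ (2 * k1) * volume.real {u : ℝ | u ∈ Set.Icc t (t + H) ∧ c' * m ≤ mz δ u}) ≤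
          m ^ (2 * k1) * (C1 * δ) := by
        calc _ = c' ^ (2 * k1) * m ^ (2 * k1) * volume.real {u : ℝ | u ∈ Set.Icc t (t + H) ∧ c' * m ≤ mz δ u} := by ring
          _ ≤ _ := h4
          _ = _ := by ring
      exact le_of_mul_le_mul_left h6 hp2
    have h6 : volume.real {u : ℝ | u ∈ Set.Icc t (t + H) ∧ c' * m ≤ mz δ u} ≤ (c' ^ (2 * k1))⁻¹ * (C1 * δ) := by
      rw [← div_eq_inv_mul, le_div_iff₀ hp1]
      linarith
    refine h6.trans ?_
    calc (c' ^ (2 * k1))⁻¹ * (C1 * δ) = C1 * (c' ^ (2 * k1))⁻¹ * δ := by ring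
      _ ≤ C * (c' ^ (2 * k1))⁻¹ * δ := by gcongr
  · -- upper bounds of the moments
    have hk0 : 0 ≤ k := hk10.le.trans hk
    have h2 : ∫ u in t..(t + H), mz δ u ^ (2 * k) ≤ ∫ u in t..(t + H), (Real.exp b * m) ^ (2 * (k - k1)) * mz δ u ^ (2 * k1) := by
      refine intervalIntegral.integral_mono_on (by linarith) ((hpc k hk0).intervalIntegrable _ _)
        ((continuous_const.mul (hpc k1 hk10.le)).intervalIntegrable _ _) fun u hu => ?_
      rcases (TMA.mz_nn δ u).eq_or_lt with hz | hz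
      · rw [← hz, Real.zero_rpow (by linarith : 2 * k ≠ 0)]
        positivity
      · have h3 : mz δ u ^ (2 * k) = mz δ u ^ (2 * (k - k1)) * mz δ u ^ (2 * k1) := by
          rw [← Real.rpow_add hz]
          congr 1
          ring
        rw [h3]
        exact mul_le_mul_of_nonneg_right (Real.rpow_le_rpow hz.le (hub u hu) (by linarith)) (Real.rpow_nonneg hz.le _)
    rw [intervalIntegral.integral_const_mul] at h2
    refine h2.trans ?_
    have h3 : (Real.exp b * m) ^ (2 * (k - k1)) ≤ Real.exp (2 * |b| * |K|) * m ^ (2 * (k - k1)) := by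
      rw [Real.mul_rpow (Real.exp_pos _).le hm0.le, ← Real.exp_mul]
      refine mul_le_mul_of_nonneg_right (Real.exp_le_exp.2 ?_) (Real.rpow_nonneg hm0.le _)
      have h4 : k - k1 ≤ |K| := by
        have := le_abs_self K
        linarith
      have h5 : 0 ≤ k - k1 := by linarith
      calc b * (2 * (k - k1)) ≤ |b| * (2 * (k - k1)) := mul_le_mul_of_nonneg_right (le_abs_self b) (by linarith)
        _ ≤ |b| * (2 * |K|) := mul_le_mul_of_nonneg_left (by linarith) (abs_nonneg b)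
        _ = 2 * |b| * |K| := by ring
    have h4 : m ^ (2 * (k - k1)) * m ^ (2 * k1) = m ^ (2 * k) := by
      rw [← Real.rpow_add hm0]
      congr 1
      ring
    calc (Real.exp b * m) ^ (2 * (k - k1)) * ∫ u in t..(t + H), mz δ u ^ (2 * k1) ≤
          (Real.exp (2 * |b| * |K|) * m ^ (2 * (k - k1))) * (C1 * (δ * m ^ (2 * k1))) :=
          mul_le_mul h3 hint (intervalIntegral.integral_nonneg (by linarith) fun u _ => Real.rpow_nonneg (TMA.mz_nn _ _) _)
            (by positivity)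
      _ = (C1 * Real.exp (2 * |b| * |K|)) * (δ * (m ^ (2 * (k - k1)) * m ^ (2 * k1))) := by ring
      _ ≤ C * (δ * m ^ (2 * k)) := by
          rw [h4]
          exact mul_le_mul_of_nonneg_right e5 (by positivity)
  · -- lower bounds of the moments
    refine le_trans ?_ (hmk2 (Real.exp a * m) (by positivity) k hk)
    have h3 : Real.exp (-(2 * |a| * |K|)) * m ^ (2 * k) ≤ (Real.exp a * m) ^ (2 * k) := by
      rw [Real.mul_rpow (Real.exp_pos _).le hm0.le, ← Real.exp_mul]
      refine mul_le_mul_of_nonneg_right (Real.exp_le_exp.2 ?_) (Real.rpow_nonneg hm0.le _)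
      have h4 : k ≤ |K| := by
        have := le_abs_self K
        linarith
      have h5 : -|a| ≤ a := neg_abs_le a
      have h6 : |a| * k ≤ |a| * |K| := mul_le_mul_of_nonneg_left h4 (abs_nonneg a)
      nlinarith
    have hp2 : 0 < m ^ (2 * k) := Real.rpow_pos_of_pos hm0 _
    calc δ * m ^ (2 * k) / C ≤ (Real.exp (-(2 * |a| * |K|)) * m ^ (2 * k)) * (c * δ) := by
          rw [div_le_iff₀ hC0]
          have h5 : 1 ≤ Real.exp (-(2 * |a| * |K|)) * c * C := by
            have h6 : Real.exp (-(2 * |a| * |K|)) * c * (Real.exp (2 * |a| * |K|) / c) = 1 := by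
              have : Real.exp (-(2 * |a| * |K|)) * Real.exp (2 * |a| * |K|) = 1 := by
                rw [← Real.exp_add, neg_add_cancel, Real.exp_zero]
              field_simp
              linarith
            calc (1:ℝ) = Real.exp (-(2 * |a| * |K|)) * c * (Real.exp (2 * |a| * |K|) / c) := h6.symm
              _ ≤ _ := mul_le_mul_of_nonneg_left e6 (by positivity)
          have h7 : 0 ≤ δ * m ^ (2 * k) := by positivity
          nlinarith
      _ ≤ _ := mul_le_mul h3 A1 (by positivity) (Real.rpow_nonneg (by positivity) _)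

/-- the theorem, given the upper bound of the maximum -/
theorem main (hU : S_MXU) {θ : ℝ} (hθ : 0 < θ) (K ε : ℝ) (hε : 0 < ε) : ∃ C : ℝ, 0 < C ∧ Ev fun X δ =>
    volume {t : ℝ | 0 ≤ t ∧ t ≤ X ∧ ¬ Good θ K ε C δ t} ≤ ENNReal.ofReal (ε * X) := by
  set V : ℝ := √(1 + θ) with hV
  have hV2 : V ^ 2 - 1 = θ := by
    rw [hV, Real.sq_sqrt (by linarith)]
    ring
  have hV1 : 1 < V := by
    rw [hV]
    exact Real.lt_sqrt_of_sq_lt (by linarith)
  obtain ⟨b, HU⟩ := hU V hV1 (ε / 3) (by positivity)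
  obtain ⟨a, c, hc, HL⟩ := lowm hV1 (show 0 < ε / 3 by positivity)
  obtain ⟨C1, hC1, HM⟩ := upm hV1 (show V < V + ε by linarith) b (show 0 < ε / 3 by positivity)
  obtain ⟨C, hC, HG⟩ := good_of (K := K) hθ hε (a := a) (b := b) hc hC1
  rw [← hV] at HG
  rw [hV2] at HU HM
  refine ⟨C, hC, ((HU.and HL).and HM).mono ?_⟩
  rintro X δ hX1 h0 h1 ⟨⟨HU, HL⟩, HM⟩
  have hX0 : 0 < X := by linarith
  have hsub : {t : ℝ | 0 ≤ t ∧ t ≤ X ∧ ¬ Good θ K ε C δ t} ⊆
      ({t : ℝ | 0 ≤ t ∧ t ≤ X ∧ ∃ u : ℝ, t ≤ u ∧ u ≤ t + δ ^ (-θ) ∧ Real.exp (lev V δ + b) ≤ mz δ u} ∪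
      {t : ℝ | 0 ≤ t ∧ t ≤ X ∧ volume.real (LV V a δ t) < c * δ}) ∪
      {t : ℝ | 0 ≤ t ∧ t ≤ X ∧ C1 * (δ * Real.exp (2 * (V + ε) * lev V δ)) <
        ∫ u in t..(t + δ ^ (-θ)), phi (V + ε) (lev V δ + b) δ u} := by
    rintro t ⟨g1, g2, g3⟩
    by_contra hcon
    rw [Set.mem_union, Set.mem_union, not_or, not_or] at hcon
    obtain ⟨⟨n1, n2⟩, n3⟩ := hcon
    refine g3 (HG δ t h0 h1 ?_ ?_ ?_)
    · by_contra hc
      push Not at hc
      exact n2 ⟨g1, g2, hc⟩
    · intro u hu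
      by_contra hc
      push Not at hc
      exact n1 ⟨g1, g2, u, hu.1, hu.2, hc⟩
    · by_contra hc
      push Not at hc
      exact n3 ⟨g1, g2, hc⟩
  refine (measure_mono hsub).trans ((measure_union_le _ _).trans ((add_le_add (measure_union_le _ _) le_rfl).trans ?_))
  have hsum : ε * X = ε / 3 * X + ε / 3 * X + ε / 3 * X := by ring
  rw [hsum, ENNReal.ofReal_add (by positivity) (by positivity), ENNReal.ofReal_add (by positivity) (by positivity)]
  exact add_le_add (add_le_add HU HL) HM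

end Run7.h291.WG
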