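import Pool.Agent.Run7.h291.WG.G13

set_option autoImplicit false

/-! The maximum in windows: the second moment at higher levels -/

namespace Run7.h291.WG

open Finset Filter MeasureTheory Topology Complex
open Pool.Agent.N748.MG Pool.Agent.N748.MJ Run7.h291.WN Run7.h291.WL Run7.h651.WN

lemma lev_le2 (V : ℝ) (hV : 0 < V) : Ev fun _ δ => ∀ a : ℝ, 0 ≤ a → a ≤ Real.log (1 / δ) ^ ((1:ℝ) / 4) / 2 →
    lev V δ + a ≤ (V + 1) * Real.log (1 / δ) ∧
    |lev V δ + a - V * Real.log (1 / δ)| ≤ Real.log (1 / δ) ^ ((1:ℝ) / 4) := by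
  have h2 : ∀ᶠ L : ℝ in atTop, Real.log L / (4 * V) ≤ L ^ ((1:ℝ) / 4) / 2 := by
    have h3 := (isLittleO_log_rpow_atTop (show (0:ℝ) < 1 / 4 by norm_num)).bound (show (0:ℝ) < 2 * V by positivity)
    filter_upwards [h3, eventually_ge_atTop 1] with L g1 g3
    rw [Real.norm_of_nonneg (Real.log_nonneg g3), Real.norm_of_nonneg (by positivity)] at g1
    rw [div_le_iff₀ (by positivity)]
    linarith
  refine (Ev.of_log h2).mono ?_
  rintro X δ _ h0 h1' g2 a ha ha2
  have hL : 1 ≤ Real.log (1 / δ) := log_inv_ge h0 h1'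
  have h5 : 0 ≤ Real.log (Real.log (1 / δ)) / (4 * V) := div_nonneg (Real.log_nonneg hL) (by positivity)
  have h6 : Real.log (1 / δ) ^ ((1:ℝ) / 4) ≤ Real.log (1 / δ) := by
    calc Real.log (1 / δ) ^ ((1:ℝ) / 4) ≤ Real.log (1 / δ) ^ (1:ℝ) := Real.rpow_le_rpow_of_exponent_le hL (by norm_num)
      _ = Real.log (1 / δ) := Real.rpow_one _
  unfold lev
  constructor
  · linarith
  · rw [abs_le]
    constructor <;> linarith

/-- the second moment of the weight of a window, at all levels above the level of the maximum -/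
theorem swin2 (hM : S_MNB) (hF : S_FLO) (hR : S_FAR) {V : ℝ} (hV : 1 < V) :
    ∃ (n : ℕ) (η K C : ℝ), 0 < C ∧ Ev fun X δ => ∀ a : ℝ, 0 ≤ a → a ≤ Real.log (1 / δ) ^ ((1:ℝ) / 4) / 2 →
    ∫ t in (0:ℝ)..X, (Av (δ ^ (-(V ^ 2 - 1))) (fB n V η K a δ) t - 1) ^ 2 ≤ C * Real.exp (2 * V * a) * X ∧
    X / 4 ≤ ∫ t in (0:ℝ)..X, Av (δ ^ (-(V ^ 2 - 1))) (fB n V η K a δ) t := by
  have hV0 : 0 < V := by linarith
  set θ : ℝ := V ^ 2 - 1 with hθ
  have hθ0 : 0 < θ := by
    rw [hθ]
    nlinarith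
  set d : ℝ := θ / 2 with hd
  have hd0 : 0 < d := by positivity
  set η : ℝ := d / (4 * V) with hη
  have hη0 : 0 < η := by positivity
  obtain ⟨n, hn⟩ := exists_nat_ge (2 * V ^ 2 / d + 1)
  have hn1 : (1:ℝ) ≤ n := le_trans (by have : 0 ≤ 2 * V ^ 2 / d := by positivity
                                       linarith) hn
  have hn1' : 1 ≤ n := by exact_mod_cast hn1
  have hn0 : (0:ℝ) < n := by linarith
  set p : ℝ := V ^ 2 - V ^ 2 / n - 2 * V * η with hp
  have hp1 : 1 < p := by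
    have g1 : V ^ 2 / n ≤ d / 2 := by
      rw [div_le_iff₀ hn0]
      have g2 : 2 * V ^ 2 / d ≤ n := by linarith
      rw [div_le_iff₀ hd0] at g2
      linarith
    have g3 : 2 * V * η = d / 2 := by
      rw [hη]
      field_simp
      norm_num
    have g4 : V ^ 2 = 1 + 2 * d := by
      rw [hd, hθ]
      ring
    rw [hp, g3]
    linarith
  have hηV : η ≤ 2 * V := by
    rw [hη, div_le_iff₀ (by positivity), hd, hθ]
    nlinarith
  -- the constants
  obtain ⟨e, he⟩ : ∃ e : ℝ, e = 1 / 4 := ⟨_, rfl⟩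
  have he0 : 0 < e := by rw [he]; norm_num
  have he1 : e ≤ 1 := by rw [he]; norm_num
  obtain ⟨C3, hC3, E3⟩ := loss n hn1' hV0 hη0 hηV tent_TF
  obtain ⟨C4, hC4, E4⟩ := pair n hn1' hV0 hη0 tent_TF
  obtain ⟨C5, hC5, E5⟩ := fst_up hV0 tent_TF
  obtain ⟨Cs, hCs, E6⟩ := FS_up' hV0
  obtain ⟨C2, δ0, hC2, hδ0, E7⟩ := hM V hV0 e he0
  set q3 : ℝ := (2:ℝ) ^ (-(η ^ 2 / 2)) with hq3
  have hq30 : 0 < q3 := Real.rpow_pos_of_pos (by norm_num) _
  have hq31 : q3 < 1 := Real.rpow_lt_one_of_one_lt_of_neg (by norm_num) (by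
    have : 0 < η ^ 2 / 2 := by positivity
    linarith)
  set q : ℝ := (2:ℝ) ^ (1 - p) with hq
  have hq0 : 0 < q := Real.rpow_pos_of_pos (by norm_num) _
  have hq1 : q < 1 := Real.rpow_lt_one_of_one_lt_of_neg (by norm_num) (by linarith)
  have hiq3 : 0 < (1 - q3)⁻¹ := inv_pos.2 (by linarith)
  have hiq : 0 < (1 - q)⁻¹ := inv_pos.2 (by linarith)
  set B3 : ℝ := 4 * (C3 * (1 - q3)⁻¹) / e + 1 with hB3
  have hB31 : 1 ≤ B3 := by
    rw [hB3]
    have : 0 ≤ 4 * (C3 * (1 - q3)⁻¹) / e := by positivity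
    linarith
  set K : ℝ := B3 ^ (1 / η) with hK
  have hK1 : 1 ≤ K := Real.one_le_rpow hB31 (by positivity)
  have hK0 : 0 < K := by linarith
  have hKη : C3 * K ^ (-η) * (1 - q3)⁻¹ ≤ e / 4 := by
    have g1 : K ^ (-η) = B3⁻¹ := by
      rw [hK, ← Real.rpow_mul (by linarith)]
      have : 1 / η * -η = -1 := by field_simp
      rw [this, Real.rpow_neg_one]
    rw [g1]
    have g2 : C3 * B3⁻¹ * (1 - q3)⁻¹ = (C3 * (1 - q3)⁻¹) / B3 := by ring
    rw [g2, div_le_iff₀ (by linarith), hB3]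
    have g3 : e / 4 * (4 * (C3 * (1 - q3)⁻¹) / e + 1) = C3 * (1 - q3)⁻¹ + e / 4 := by
      field_simp
    rw [g3]
    linarith
  set D : ℝ := Cs * C5 + C4 * K ^ (2 * V) * (1 - q)⁻¹ + 1 with hD
  have hKp : 0 < K ^ (2 * V) := Real.rpow_pos_of_pos hK0 _
  have hD0 : 0 < D := by positivity
  refine ⟨n, η, K, 2 * D + 100 + 100 * C2, by positivity, ?_⟩
  have E2 := hR V θ hV0 hθ0 tent 1 1 tent_TF e he0
  have E1 := hF V hV0 tent 1 1 tent_TF (e / 2) (half_pos he0)
  set W : ℝ := WW V with hW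
  have hW0 : 0 < W := by
    rw [hW]
    unfold WW
    positivity
  refine (((((((((((E1.and E2).and E3).and E4).and E5).and (lev_le2 V hV0)).and (FS_bd hV0 tent_TF)).and (Ev.of_le hδ0)).and
    (Ev.win (D := θ + 2 * W) (c := e) (e := 1) he0 one_pos)).and
    (Ev.win (D := θ + W) (c := e) (e := 1) he0 one_pos)).and
    ((Ev.small (C := (1 + e) * C2) (c := θ) (e := e) hθ0 he0).and
    ((Ev.small (C := 2) (c := 1) (e := e / 4) one_pos (by positivity)).and
      (Ev.small (C := 2) (c := 2) (e := e / 2) two_pos (by positivity)))))).mono ?_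
  rintro X δ hX1 h0 h1 ⟨⟨⟨⟨⟨⟨⟨⟨⟨⟨E1, E2⟩, E3⟩, E4⟩, E5⟩, El⟩, EB⟩, hδ⟩, w2⟩, w3⟩, s2, s3, s4⟩ a ha0 ha1
  have hX0 : 0 < X := lt_of_lt_of_le one_pos hX1
  rw [Real.rpow_one] at w2 w3 s3
  set y : ℝ := lev V δ + a with hy
  obtain ⟨hy1, hy2⟩ := El a ha0 ha1
  have E1 := E1 y hy2
  rw [tent_one] at E1
  have E5 := E5 y hy1
  set H : ℝ := δ ^ (-θ) with hH
  have hH0 : 0 < H := Real.rpow_pos_of_pos h0 _
  have hH1 : 1 ≤ H := Real.one_le_rpow_of_pos_of_le_one_of_nonpos h0 (by linarith) (by linarith)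
  set Mb : ℝ := δ ^ (-W) with hMd
  have hMb0 : 0 < Mb := Real.rpow_pos_of_pos h0 _
  have hFc : Continuous fun t => FS V tent δ y t :=
    FS_cont hV0 tent_cont (B := -1) (fun x hx => tent_zero (by rw [abs_of_nonpos (by linarith)]; linarith)) h1 y
  have hBc : Continuous fun t => BB n V η K δ y t := BB_cont h1
  have hFn : ∀ t, 0 ≤ FS V tent δ y t := fun t => FS_nn tent_nn h0.le _ t
  have hfe : fB n V η K a δ = fun t => FS V tent δ y t * BB n V η K δ y t := rfl
  set f : ℝ → ℝ := fun t => FS V tent δ y t * BB n V η K δ y t with hf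
  rw [hfe]
  have hfc : Continuous f := hFc.mul hBc
  have hf0 : ∀ t, 0 ≤ f t := fun t => mul_nonneg (hFn t) BB_nn
  have hfF : ∀ t, f t ≤ FS V tent δ y t := fun t => mul_le_of_le_one_right (hFn t) BB_le
  have hfM : ∀ t, f t ≤ Mb := fun t => (hfF t).trans (EB y t hy1)
  set G0 : ℝ := √(Real.log (1 / δ)) * Real.exp (2 * V * y) * δ ^ (V ^ 2) with hG0
  have hG : G0 = Real.exp (2 * V * a) * δ ^ (-(V ^ 2)) := lev_G hV0 h0 h1
  have hG00 : 0 < G0 := by
    rw [hG]
    have := Real.rpow_pos_of_pos h0 (-(V ^ 2))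
    positivity
  set Ea : ℝ := Real.exp (2 * V * a) with hEa
  have hEa1 : 1 ≤ Ea := Real.one_le_exp (by positivity)
  have hEa0 : 0 < Ea := by linarith
  have hGδ : G0 * δ = Ea * H := by
    rw [hG, mul_assoc, hH]
    congr 1
    nth_rw 2 [← Real.rpow_one δ]
    rw [← Real.rpow_add h0]
    congr 1
    rw [hθ]
    ring
  -- the correlations
  have hcor : Continuous fun u => ∫ t in (0:ℝ)..X, f t * f (t + u) := by
    refine intervalIntegral.continuous_parametric_intervalIntegral_of_continuous (f := fun u t =>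
      f t * f (t + u)) ?_ continuous_const
    exact (hfc.comp continuous_snd).mul (hfc.comp (by fun_prop))
  have hi : ∀ a b : ℝ, IntervalIntegrable (fun u => ∫ t in (0:ℝ)..X, f t * f (t + u)) volume a b := fun a b =>
    hcor.intervalIntegrable a b
  have hcor0 : ∀ u, 0 ≤ ∫ t in (0:ℝ)..X, f t * f (t + u) := fun u =>
    intervalIntegral.integral_nonneg hX0.le fun t _ => mul_nonneg (hf0 _) (hf0 _)
  have near : ∀ y' : ℝ, y' ≤ 1 → ∫ u in (0:ℝ)..y', ∫ t in (0:ℝ)..X, f t * f (t + u) ≤ X * (D * Ea * H) := by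
    intro y' hy'
    have key := near_sum hcor hcor0 (p := p) (A0 := Cs * G0 * (C5 * X)) (A1 := C4 * K ^ (2 * V) * G0 * X) (A2 := δ ^ (2:ℝ) * X)
      h0 h1 hp1 (by positivity) (by positivity) (fun u _ _ => ?_) (fun j hj u hu1 hu2 => ?_) hy'
    · refine key.trans ?_
      rw [← hq]
      have g1 : Cs * G0 * (C5 * X) * δ + C4 * K ^ (2 * V) * G0 * X * δ * (1 - q)⁻¹ =
          X * ((Cs * C5 + C4 * K ^ (2 * V) * (1 - q)⁻¹) * (G0 * δ)) := by ring
      rw [g1, hGδ]
      have g4 : 2 * (δ ^ (2:ℝ) * X) ≤ X * (1 * Ea * H) := by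
        have g5 : 1 ≤ Ea * H := by nlinarith
        have g6 : 2 * δ ^ (2:ℝ) ≤ 1 := by linarith
        nlinarith
      have g5 : X * ((Cs * C5 + C4 * K ^ (2 * V) * (1 - q)⁻¹) * (Ea * H)) + X * (1 * Ea * H) = X * (D * Ea * H) := by
        rw [hD]
        ring
      linarith
    · -- very near pairs
      calc ∫ t in (0:ℝ)..X, f t * f (t + u) ≤ ∫ t in (0:ℝ)..X, (Cs * G0) * FS V tent δ y t := by
            refine intervalIntegral.integral_mono_on hX0.le ?_ ?_ fun t _ => ?_
            · exact (hfc.mul (hfc.comp (by fun_prop))).intervalIntegrable _ _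
            · exact (continuous_const.mul hFc).intervalIntegrable _ _
            · rw [mul_comm]
              exact mul_le_mul ((hfF _).trans (E6 δ h0 h1 y _)) (hfF t) (hf0 t) (by positivity)
        _ = (Cs * G0) * ∫ t in (0:ℝ)..X, FS V tent δ y t := intervalIntegral.integral_const_mul _ _
        _ ≤ _ := mul_le_mul_of_nonneg_left E5 (by positivity)
    · -- near pairs
      have k1 := xj_pow h0 h1 j
      have g1 := E4 (xj δ j) y K u (xj_nn h0 h1 hj) (xj_le h0 h1 j) hy1 hK1 (by rw [k1]; exact hu1) (by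
        rw [k1]
        refine hu2.trans (le_of_eq ?_)
        rw [pow_succ]
        ring)
      calc ∫ t in (0:ℝ)..X, f t * f (t + u) ≤ ∫ t in (0:ℝ)..X, FS V tent δ y t * FS V tent δ y (t + u) *
            psi (kb V η K δ y * bar n (V - η) δ (xj δ j) t) := by
            refine intervalIntegral.integral_mono_on hX0.le ?_ ?_ fun t _ => ?_
            · exact (hfc.mul (hfc.comp (by fun_prop))).intervalIntegrable _ _
            · exact ((hFc.mul (hFc.comp (by fun_prop))).mul
                (psi_cont.comp (continuous_const.mul (bar_cont h1)))).intervalIntegrable _ _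
            · have r1 : f t ≤ FS V tent δ y t * psi (kb V η K δ y * bar n (V - η) δ (xj δ j) t) :=
                mul_le_mul_of_nonneg_left (BB_le' hj) (hFn t)
              calc f t * f (t + u) ≤ (FS V tent δ y t * psi (kb V η K δ y * bar n (V - η) δ (xj δ j) t)) *
                    FS V tent δ y (t + u) := mul_le_mul r1 (hfF _) (hf0 _) (mul_nonneg (hFn t) (psi_nn _))
                _ = _ := by ring
        _ ≤ _ := g1
        _ = _ := by
            rw [pow_xj h0 h1 j]
            ring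
  have far : ∀ u : ℝ, 1 ≤ u → u ≤ H → ∫ t in (0:ℝ)..X, f t * f (t + u) ≤ X * ((1 + e) * B2 V δ u + e) := by
    intro u hu1 hu2
    have g1 := E2 y u hy1 hu1 hu2
    rw [tent_one] at g1
    have g2 : ∫ t in (0:ℝ)..X, f t * f (t + u) ≤ ∫ t in (0:ℝ)..X, FS V tent δ y t * FS V tent δ y (t + u) := by
      refine intervalIntegral.integral_mono_on hX0.le ?_ ?_ fun t _ => ?_
      · exact (hfc.mul (hfc.comp (by fun_prop))).intervalIntegrable _ _
      · exact (hFc.mul (hFc.comp (by fun_prop))).intervalIntegrable _ _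
      · exact mul_le_mul (hfF _) (hfF _) (hf0 _) (hFn _)
    refine (g2.trans g1).trans (le_of_eq ?_)
    ring
  have hprim : ∀ y' ∈ Set.Icc 0 H, ∫ u in (0:ℝ)..y', ∫ t in (0:ℝ)..X, f t * f (t + u) ≤
      X * (((1 + e) ^ 2 + e) * y' + (D * Ea * H + (1 + e) * C2)) := by
    rintro y' ⟨hy0, hyH⟩
    rcases le_total y' 1 with hy1 | hy1
    · refine (near y' hy1).trans (mul_le_mul_of_nonneg_left ?_ hX0.le)
      have h2 : 0 ≤ ((1 + e) ^ 2 + e) * y' + (1 + e) * C2 := by positivity
      linarith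
    · rw [← intervalIntegral.integral_add_adjacent_intervals (hi 0 1) (hi 1 y')]
      have h2 := near 1 le_rfl
      have h3 : ∫ u in (1:ℝ)..y', ∫ t in (0:ℝ)..X, f t * f (t + u) ≤ ∫ h in (1:ℝ)..y', X * ((1 + e) * B2 V δ h + e) := by
        refine intervalIntegral.integral_mono_on hy1 (hi _ _) ?_ fun h hh => ?_
        · exact (continuous_const.mul ((continuous_const.mul (B2_cont h0)).add continuous_const)).intervalIntegrable _ _
        · exact far h hh.1 (hh.2.trans hyH)
      have h4 : ∫ h in (1:ℝ)..y', X * ((1 + e) * B2 V δ h + e) = X * ((1 + e) * (∫ h in (1:ℝ)..y', B2 V δ h) + (y' - 1) * e) := by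
        have hq : Continuous fun h : ℝ => (1 + e) * B2 V δ h := continuous_const.mul (B2_cont h0)
        rw [intervalIntegral.integral_const_mul, intervalIntegral.integral_add
          (hq.intervalIntegrable _ _) (by simp),
          intervalIntegral.integral_const_mul, intervalIntegral.integral_const, smul_eq_mul]
      have h5 := E7 δ h0 hδ y' hy1
      rw [h4] at h3
      have h6 : X * ((1 + e) * (∫ h in (1:ℝ)..y', B2 V δ h) + (y' - 1) * e) ≤
          X * ((1 + e) * ((1 + e) * y' + C2) + y' * e) := by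
        refine mul_le_mul_of_nonneg_left (add_le_add (mul_le_mul_of_nonneg_left h5 (by linarith)) ?_) hX0.le
        nlinarith
      nlinarith
  -- the mean
  have hmean : (1 - e) * X ≤ ∫ t in (0:ℝ)..X, f t := by
    have hti : ∀ j : ℕ, IntervalIntegrable
        (fun t => FS V tent δ y t * (1 - psi (kb V η K δ y * bar n (V - η) δ (xj δ j) t))) volume 0 X := fun i =>
      (hFc.mul (continuous_const.sub (psi_cont.comp (continuous_const.mul (bar_cont h1))))).intervalIntegrable _ _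
    have q1 : ∫ t in (0:ℝ)..X, FS V tent δ y t * (1 - BB n V η K δ y t) ≤
        ∑ j ∈ Finset.range (JJ δ + 1), ∫ t in (0:ℝ)..X, FS V tent δ y t * (1 - psi (kb V η K δ y * bar n (V - η) δ (xj δ j) t)) := by
      rw [← intervalIntegral.integral_finsetSum fun i _ => hti i]
      refine intervalIntegral.integral_mono_on hX0.le ((hFc.mul (continuous_const.sub hBc)).intervalIntegrable _ _) ?_
        fun t _ => ?_
      · exact Continuous.intervalIntegrable (by
          refine continuous_finsetSum _ fun i _ => ?_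
          exact hFc.mul (continuous_const.sub (psi_cont.comp (continuous_const.mul (bar_cont h1))))) _ _
      · rw [← Finset.mul_sum]
        exact mul_le_mul_of_nonneg_left one_sub_BB (hFn t)
    have q2 : ∀ j ∈ Finset.range (JJ δ + 1), ∫ t in (0:ℝ)..X, FS V tent δ y t *
        (1 - psi (kb V η K δ y * bar n (V - η) δ (xj δ j) t)) ≤ (C3 * K ^ (-η) * q3 ^ j + δ ^ (2:ℝ)) * X := by
      intro j hj
      have hjJ : j ≤ JJ δ := by
        have := Finset.mem_range.1 hj
        omega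
      have g1 := E3 (xj δ j) y K (xj_nn h0 h1 hjJ) (xj_le h0 h1 j) hy1 hK1
      have g2 : δ ^ (η ^ 2 / 2 * (1 - xj δ j)) = q3 ^ j := by
        rw [mul_comm, pow_xj h0 h1 j, hq3, ← Real.rpow_natCast ((2:ℝ) ^ (-(η ^ 2 / 2))) j, ← Real.rpow_mul (by norm_num)]
        congr 1
        ring
      rw [g2] at g1
      exact g1
    have q3' : ∑ j ∈ Finset.range (JJ δ + 1), (C3 * K ^ (-η) * q3 ^ j + δ ^ (2:ℝ)) * X ≤ e / 2 * X := by
      rw [← Finset.sum_mul, Finset.sum_add_distrib, ← Finset.mul_sum, Finset.sum_const, Finset.card_range, nsmul_eq_mul]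
      refine mul_le_mul_of_nonneg_right ?_ hX0.le
      have g1 : ∑ j ∈ Finset.range (JJ δ + 1), q3 ^ j ≤ (1 - q3)⁻¹ := by
        have h2 := geom_sum_eq hq31.ne (JJ δ + 1)
        rw [h2, ← neg_div_neg_eq, neg_sub, neg_sub, div_eq_mul_inv]
        refine mul_le_of_le_one_left (inv_nonneg.2 (by linarith)) ?_
        have : 0 < q3 ^ (JJ δ + 1) := by positivity
        linarith
      have hKn : 0 < K ^ (-η) := Real.rpow_pos_of_pos hK0 _
      have g2 := mul_le_mul_of_nonneg_left g1 (show 0 ≤ C3 * K ^ (-η) by positivity)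
      have g3 : ((JJ δ + 1 : ℕ) : ℝ) * δ ^ (2:ℝ) ≤ e / 4 := by
        have r1 : ((JJ δ + 1 : ℕ) : ℝ) ≤ 2 ^ (JJ δ + 1) := by
          exact_mod_cast (Nat.lt_two_pow_self (n := JJ δ + 1)).le
        have r2 := two_pow_JJ h0 h1
        have r3 : δ ^ (2:ℝ) = δ * δ := by
          rw [Real.rpow_two]
          ring
        rw [r3]
        calc ((JJ δ + 1 : ℕ) : ℝ) * (δ * δ) ≤ 2 ^ (JJ δ + 1) * (δ * δ) := mul_le_mul_of_nonneg_right r1 (by positivity)
          _ = 2 * (δ * 2 ^ (JJ δ)) * δ := by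
              rw [pow_succ]
              ring
          _ ≤ 2 * 1 * δ := by
              refine mul_le_mul_of_nonneg_right ?_ h0.le
              linarith
          _ = 2 * δ := by ring
          _ ≤ e / 4 := s3
      linarith
    have q4 : ∫ t in (0:ℝ)..X, FS V tent δ y t * (1 - BB n V η K δ y t) ≤ e / 2 * X :=
      q1.trans ((Finset.sum_le_sum q2).trans q3')
    have q7 : ∫ t in (0:ℝ)..X, f t = (∫ t in (0:ℝ)..X, FS V tent δ y t) -
        ∫ t in (0:ℝ)..X, FS V tent δ y t * (1 - BB n V η K δ y t) := by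
      have r1 : Continuous fun t => FS V tent δ y t * (1 - BB n V η K δ y t) := hFc.mul (continuous_const.sub hBc)
      rw [← intervalIntegral.integral_sub (hFc.intervalIntegrable _ _) (r1.intervalIntegrable _ _)]
      refine intervalIntegral.integral_congr fun t _ => ?_
      show FS V tent δ y t * BB n V η K δ y t = _
      ring
    rw [q7]
    linarith
  have hdev := dev_le (f := f) (M := Mb) (X := X) (H := H) (a := (1 + e) ^ 2 + e) (b := D * Ea * H + (1 + e) * C2) (e := e)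
    hfc hf0 hfM hX0 hH0 hprim hmean
  have g2 : H * Mb ^ 2 / X ≤ e := by
    rw [div_le_iff₀ hX0]
    have : H * Mb ^ 2 = δ ^ (-(θ + 2 * W)) := by
      rw [hH, hMd, pow_two, ← Real.rpow_add h0, ← Real.rpow_add h0]
      congr 1
      ring
    rw [this]
    exact w2
  have g3 : H * Mb ≤ e * X := by
    have : H * Mb = δ ^ (-(θ + W)) := by
      rw [hH, hMd, ← Real.rpow_add h0]
      congr 1
      ring
    rw [this]
    exact w3
  constructor
  · unfold Av
    refine hdev.trans ?_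
    have g1 : 2 * (D * Ea * H + (1 + e) * C2) / H ≤ 2 * D * Ea + 4 * C2 := by
      rw [div_le_iff₀ hH0]
      have : (1 + e) * C2 ≤ 2 * C2 * H := by nlinarith
      nlinarith
    have g3' : 2 * H * Mb / X ≤ 2 * e := by
      rw [div_le_iff₀ hX0]
      linarith
    have g4 : (1 + e) ^ 2 + e + 2 * (D * Ea * H + (1 + e) * C2) / H + H * Mb ^ 2 / X - 1 + 2 * e +
        2 * H * Mb / X ≤ (2 * D + 100 + 100 * C2) * Ea := by
      have r1 : (1 + e) ^ 2 + e + e - 1 + 2 * e + 2 * e ≤ 100 * Ea := by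
        rw [he]
        linarith
      have r2 : 4 * C2 ≤ 100 * C2 * Ea := by nlinarith
      nlinarith
    calc X * ((1 + e) ^ 2 + e + 2 * (D * Ea * H + (1 + e) * C2) / H + H * Mb ^ 2 / X - 1 + 2 * e +
        2 * H * Mb / X) ≤ X * ((2 * D + 100 + 100 * C2) * Ea) := mul_le_mul_of_nonneg_left g4 hX0.le
      _ = (2 * D + 100 + 100 * C2) * Ea * X := mul_comm _ _
  · unfold Av
    rw [intervalIntegral.integral_const_mul]
    have h3 := mean_ge (X := X) hfc hf0 hfM hH0.le
    rw [one_div, le_inv_mul_iff₀ hH0]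
    have h4 : H * (H * Mb) ≤ H * (e * X) := mul_le_mul_of_nonneg_left g3 hH0.le
    have h5 : H * ((1 - e) * X) ≤ H * ∫ t in (0:ℝ)..X, f t := mul_le_mul_of_nonneg_left hmean hH0.le
    have h6 : H * (X / 4) ≤ H * ((1 - e) * X) - H * (e * X) := by
      rw [← mul_sub]
      refine mul_le_mul_of_nonneg_left ?_ hH0.le
      rw [he]
      linarith
    nlinarith

end Run7.h291.WG
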