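import Pool.Agent.Run7.h291.WG.G5

set_option autoImplicit false

/-!
# The sharp order of the maximum in windows (T17): statements of parts

`mz δ t = |ζ(1/2 + δ + i t)|`, `FS V g δ y t = √(π log (1/(2δ))) g(log |ζ| - y) (2δ)^(V²) |ζ|^(2V) / a(V)`.
-/

namespace Run7.h291.WG

open Finset Filter MeasureTheory Topology Complex
open Pool.Agent.N748.MG Pool.Agent.N748.MJ Run7.h291.WN Run7.h291.WL

/-- the level of the maximum -/
noncomputable def lev (V δ : ℝ) : ℝ := V * Real.log (1 / δ) - Real.log (Real.log (1 / δ)) / (4 * V)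

/-- (FLO) the mean of the local weight, lower bound, uniformly in the level `y` near `V log (1/δ)`.

Proof. Let `l0 = (LZ (1 + 2 * δ) 0).re = log ζ(1 + 2δ)` and `k = y / l0`, so `k → V` and `(V - k)² l0 → 0`. By sequences (`ev_of_seq`
in `WL/D1.lean`; choose a bad `y = y(T)` whenever there is one) and helper42's `LP.red` (with `m = 1`, `h = 0`, `k T = y T / l0`,
`g T x = exp (2 k x) g x`) and `LP.llt`: `√(π l0) exp (-k² l0) / aR k * (1/T) ∫ |ζ|^(2k) g(log |ζ| - y) → ∫ g`. On the support of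
`g(log |ζ| - y)` is `|ζ|^(2V) = |ζ|^(2k) exp (2 (V-k) y) exp (2 (V-k) (log |ζ| - y))`, the last factor is `1 + o(1)`, and
`(2δ)^(V²) exp (2 (V-k) k l0) = ((2δ) e^(l0))^(V²) exp (-(V-k)² l0) exp (-k² l0)`, and `a(k) → a(V)` by `EQC`. -/
def S_FLO : Prop := ∀ V : ℝ, 0 < V → ∀ (g : ℝ → ℝ) (A M : ℝ), TF g A M → ∀ ε : ℝ, 0 < ε → Ev fun X δ => ∀ y : ℝ,
  |y - V * Real.log (1 / δ)| ≤ Real.log (1 / δ) ^ ((1:ℝ) / 4) →
  ((∫ x, g x) - ε) * X ≤ ∫ t in (0:ℝ)..X, FS V g δ y t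

/-- (MXU) the maximum in windows of length `δ^(-(V²-1))`, the sharp upper bound.

Proof. (1) `lt 0 R D` (`WG/G2.lean`) at the distance `δ' ∈ [δ/2, 3δ/2]` (`m = 0`, `h = 0`, `k = V`): for all `y` at once
`∫_N |ζ|^(2V) (1 + (log |ζ| - y)²)⁻¹ ≤ C X δ^(-V²) / √L`, `L = log (1/δ)`. As `log⁺ (e^(-y0) |ζ|) ≤ C exp (2 V (log |ζ| - y0))
Σ_{0 ≤ j ≤ W L} e^(-V j) (1 + (log |ζ| - y0 - j)²)⁻¹` for `|ζ| ≤ δ^(-W)`, `∫_N log⁺ (e^(-y0) |ζ(1/2+δ'+it)|) dt ≤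
C X exp (-2 V y0) δ^(-V²) / √L = C X exp (-2 V a) δ^(V²)` for `y0 = lev V δ + a`. (2) `log⁺ (e^(-y0) |ζ|)` is subharmonic
(Jensen's formula, see the proof of `H402R2/SubMean.lean`, or the circle average of `log ‖f‖` in Mathlib), so its value at
`1/2 + δ + i u` is at most `(4 / (π δ²)) ∬` over the disc of radius `δ/2`; with `H = δ^(-(V²-1))` windows the mean over `t` of the
integral over the window and `δ' ∈ [δ/2, 3δ/2]` is at most `C (H + 2) δ exp (-2 V a) δ^(V²) ≤ C' exp (-2 V a) δ²`.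
(3) The exceptional sets `[0,X] \ N` (measure `δ^D X`, one for each `δ'`: use measurability by Fubini for the function
`log⁺`, or bound `∫_{[0,X]} ≤ ∫_N + (δ^D X)^(1/2) (∫_0^X |ζ|²)^(1/2)`) and the large values `|ζ| ≥ δ^(-W)` (SUPW, `WC/Supw.lean`,
or the mean square) are negligible. -/
def S_MXU : Prop := ∀ V : ℝ, 1 < V → ∀ ε : ℝ, 0 < ε → ∃ a : ℝ, Ev fun X δ =>
  volume {t : ℝ | 0 ≤ t ∧ t ≤ X ∧ ∃ u : ℝ, t ≤ u ∧ u ≤ t + δ ^ (-(V ^ 2 - 1)) ∧ Real.exp (lev V δ + a) ≤ mz δ u} ≤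
    ENNReal.ofReal (ε * X)

/-- (FAR) the two-point function of the local weight at distances at least `1`, any level -/
def S_FAR : Prop := ∀ V D : ℝ, 0 < V → 0 < D → ∀ (g : ℝ → ℝ) (A M : ℝ), TF g A M → ∀ ε : ℝ, 0 < ε → Ev fun X δ =>
  ∀ y h : ℝ, y ≤ (V + 1) * Real.log (1 / δ) → 1 ≤ h → h ≤ δ ^ (-D) →
  ∫ t in (0:ℝ)..X, FS V g δ y t * FS V g δ y (t + h) ≤ ((1 + ε) * B2 V δ h * (∫ x, g x) ^ 2 + ε) * X

end Run7.h291.WG
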