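import Pool.Agent.Run7.h291.WG.G13
import Pool.Agent.Run7.h701.MX.M3

set_option autoImplicit false

/-!
# The maximum in windows: the tail of the maximum, upper bound

The proof is the one of helper701's `Run7.h701.MX.mxu`, with explicit constants.
-/

namespace Run7.h291.WG

open Filter Topology MeasureTheory Real Set
open Pool.Agent.N748.MG Pool.Agent.N748.MJ Run7.h291.WN Run7.h701.MX
open scoped ENNReal

/-- the tail of the maximum in windows, upper bound -/
theorem mxq {V : ℝ} (hV : 1 < V) : ∃ C : ℝ, 0 < C ∧ Ev fun X δ => ∀ a : ℝ,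
    volume {t : ℝ | 0 ≤ t ∧ t ≤ X ∧ ∃ u : ℝ, t ≤ u ∧ u ≤ t + δ ^ (-(V ^ 2 - 1)) ∧ Real.exp (lev V δ + a) ≤ mz δ u} ≤
      ENNReal.ofReal (C * (Real.exp (-(2 * V * a)) + δ) * X) := by
  obtain ⟨C, hC, E0⟩ := mean_log hV
  obtain ⟨CS, hCS, hsup⟩ := sup_log
  set Q : ℝ := 3 * CS * C * (2:ℝ) ^ (V ^ 2 + 2) with hQ
  have hQ0 : 0 < Q := by positivity
  have hV0 : 0 < V := by linarith
  refine ⟨(Q + 1) * Real.exp (2 * V), by positivity, ?_⟩
  have hX : ∀ᶠ X : ℝ in atTop, 4 ≤ X := eventually_ge_atTop 4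
  refine ((((Ev.nb E0.up).and (Ev.of_ev hX)).and (Ev.win (D := V ^ 2 - 1) (c := 1 / 2) (e := 1) (by norm_num)
    one_pos)).and (Ev.win (D := 1) (c := 1) (e := 1) one_pos one_pos)).mono ?_
  rintro X δ hX1 hδ hδ16 ⟨⟨⟨h0, hX4⟩, hw⟩, hw2⟩ a
  rw [Real.rpow_one] at hw
  have hX0 : 0 < X := by linarith
  have hδX : 1 ≤ δ * X := by
    rw [Real.rpow_one, one_mul, Real.rpow_neg_one, inv_le_iff_one_le_mul₀ hδ] at hw2
    linarith
  rcases lt_or_ge a 1 with ha | ha
  · -- small levels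
    have h1 : 1 ≤ Real.exp (2 * V) * Real.exp (-(2 * V * a)) := by
      rw [← Real.exp_add]
      refine Real.one_le_exp ?_
      nlinarith
    refine (measure_mono (show _ ⊆ Set.Icc 0 X from fun t ht => ⟨ht.1, ht.2.1⟩)).trans ?_
    rw [Real.volume_Icc, sub_zero]
    refine ENNReal.ofReal_le_ofReal ?_
    have h2 : 0 < Real.exp (2 * V) := Real.exp_pos _
    have h3 : 0 < Real.exp (-(2 * V * a)) := Real.exp_pos _
    have h4 : 1 ≤ (Q + 1) * Real.exp (2 * V) * (Real.exp (-(2 * V * a)) + δ) := by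
      have h5 : 0 ≤ Q * (Real.exp (2 * V) * Real.exp (-(2 * V * a))) := by positivity
      have h6 : 0 ≤ (Q + 1) * Real.exp (2 * V) * δ := by positivity
      nlinarith
    nlinarith
  set b : ℝ := a - 1 with hb
  have hb0 : 0 ≤ b := by linarith
  have hL := log_inv_ge hδ hδ16
  set L := Real.log (1 / δ) with hLdef
  have hL0 : 0 < L := by linarith
  have hsL : 0 < √L := Real.sqrt_pos.2 hL0
  set H : ℝ := δ ^ (-(V ^ 2 - 1)) with hH
  have hH1 : 1 ≤ H := by
    refine Real.one_le_rpow_of_pos_of_le_one_of_nonpos hδ (by linarith) ?_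
    nlinarith
  set y0 : ℝ := lev V δ + b with hy0
  have hlev : 0 ≤ lev V δ := by
    unfold lev
    rw [← hLdef]
    have h1 : Real.log L ≤ L := by
      have := Real.log_le_sub_one_of_pos hL0
      linarith
    have h2 : Real.log L / (4 * V) ≤ L := by
      rw [div_le_iff₀ (by positivity)]
      nlinarith
    nlinarith
  have hy00 : 0 ≤ y0 := by linarith
  have hexp : Real.exp (-(2 * V * y0)) = Real.exp (-(2 * V * b)) * (δ ^ (2 * V ^ 2) * √L) := by
    have e1 : δ ^ (2 * V ^ 2) = Real.exp (-(2 * V ^ 2 * L)) := by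
      rw [hLdef, one_div, Real.log_inv, Real.rpow_def_of_pos hδ]
      congr 1
      ring
    have e2 : √L = Real.exp (Real.log L / 2) := by
      rw [Real.exp_half, Real.exp_log hL0]
    rw [e1, e2, ← Real.exp_add, ← Real.exp_add]
    congr 1
    rw [hy0]
    unfold lev
    rw [← hLdef]
    field_simp
    ring
  set Ea : ℝ := Real.exp (-(2 * V * b)) with hEa
  have hEa0 : 0 < Ea := Real.exp_pos _
  set B : ℝ := C * (2:ℝ) ^ (V ^ 2 + 2) * (δ ^ (V ^ 2) * (Ea + δ)) * X with hB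
  have hδV : 0 < δ ^ (V ^ 2) := Real.rpow_pos_of_pos hδ _
  have hB0 : 0 ≤ B := by positivity
  have hmean : ∀ δ' : ℝ, δ / 2 ≤ δ' → δ' ≤ 3 * δ / 2 →
      ∫⁻ t in Ioo 0 (2 * X), ENNReal.ofReal (posLog ‖((Real.exp (-y0) : ℝ) : ℂ) *
        riemannZeta (1 / 2 + δ' + t * Complex.I)‖) ≤ ENNReal.ofReal B := by
    intro δ' g1 g2
    have hδ'0 : 0 < δ' := by linarith
    refine (h0 δ' g1 g2 (2 * X) (by linarith) y0 hy00).trans (ENNReal.ofReal_le_ofReal ?_)
    have k1 : δ' ^ (-(V ^ 2)) ≤ (2:ℝ) ^ (V ^ 2) * δ ^ (-(V ^ 2)) := by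
      calc δ' ^ (-(V ^ 2)) ≤ (δ / 2) ^ (-(V ^ 2)) :=
            Real.rpow_le_rpow_of_nonpos (by positivity) g1 (by nlinarith)
        _ = (2:ℝ) ^ (V ^ 2) * δ ^ (-(V ^ 2)) := by
            rw [Real.div_rpow hδ.le two_pos.le, Real.rpow_neg two_pos.le, div_inv_eq_mul, mul_comm]
    have k2 : δ' ^ (V ^ 2 + 1) ≤ (2:ℝ) ^ (V ^ 2 + 1) * δ ^ (V ^ 2 + 1) := by
      rw [← Real.mul_rpow two_pos.le hδ.le]
      exact Real.rpow_le_rpow hδ'0.le (by linarith) (by positivity)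
    have k3 : L / 2 ≤ Real.log (1 / δ') := by
      have h1 : 1 / δ * (2 / 3) ≤ 1 / δ' := by
        rw [div_mul_div_comm, div_le_div_iff₀ (by positivity) hδ'0]
        linarith
      have h2 := Real.log_le_log (by positivity) h1
      rw [Real.log_mul (by positivity) (by norm_num), ← hLdef] at h2
      have h3 : -(1 / 2) ≤ Real.log (2 / 3) := by
        have := Real.one_sub_inv_le_log_of_pos (show (0:ℝ) < 2 / 3 by norm_num)
        norm_num at this
        linarith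
      linarith
    have k4 : √L / 2 ≤ √(Real.log (1 / δ')) := by
      have h1 : √L / 2 = √(L / 4) := by
        rw [Real.sqrt_div hL0.le, show (4:ℝ) = 2 ^ 2 by norm_num, Real.sqrt_sq two_pos.le]
      rw [h1]
      exact Real.sqrt_le_sqrt (by linarith)
    have k5 : Real.exp (-(2 * V * y0)) * δ' ^ (-(V ^ 2)) / √(Real.log (1 / δ')) ≤
        Ea * (2:ℝ) ^ (V ^ 2 + 1) * δ ^ (V ^ 2) := by
      rw [hexp]
      calc Ea * (δ ^ (2 * V ^ 2) * √L) * δ' ^ (-(V ^ 2)) / √(Real.log (1 / δ')) ≤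
            Ea * (δ ^ (2 * V ^ 2) * √L) * ((2:ℝ) ^ (V ^ 2) * δ ^ (-(V ^ 2))) / (√L / 2) := by
              have := Real.rpow_pos_of_pos hδ (2 * V ^ 2)
              have := Real.rpow_pos_of_pos hδ (-(V ^ 2))
              have := Real.rpow_pos_of_pos hδ'0 (-(V ^ 2))
              gcongr
        _ = Ea * (2 * (2:ℝ) ^ (V ^ 2)) * (δ ^ (2 * V ^ 2) * δ ^ (-(V ^ 2))) := by
              field_simp
        _ = Ea * (2:ℝ) ^ (V ^ 2 + 1) * δ ^ (V ^ 2) := by
              rw [← Real.rpow_add hδ, Real.rpow_add two_pos, Real.rpow_one, mul_comm (2:ℝ) (2 ^ (V ^ 2))]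
              congr 2
              ring
    have k6 : (2:ℝ) ^ (V ^ 2 + 2) = 2 ^ (V ^ 2 + 1) * 2 := by
      rw [show V ^ 2 + 2 = (V ^ 2 + 1) + 1 by ring, Real.rpow_add two_pos, Real.rpow_one]
    have k7 : δ ^ (V ^ 2 + 1) = δ ^ (V ^ 2) * δ := by rw [Real.rpow_add hδ, Real.rpow_one]
    calc C * (Real.exp (-(2 * V * y0)) * δ' ^ (-(V ^ 2)) / √(Real.log (1 / δ')) + δ' ^ (V ^ 2 + 1)) * (2 * X) ≤
          C * (Ea * (2:ℝ) ^ (V ^ 2 + 1) * δ ^ (V ^ 2) + (2:ℝ) ^ (V ^ 2 + 1) * δ ^ (V ^ 2 + 1)) * (2 * X) := by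
          have : 0 ≤ 2 * X := by positivity
          exact mul_le_mul_of_nonneg_right (mul_le_mul_of_nonneg_left (add_le_add k5 k2) hC.le) this
      _ = B := by
          rw [hB, k6, k7]
          ring
  have hdiff : DifferentiableOn ℂ (fun s => ((Real.exp (-y0) : ℝ) : ℂ) * riemannZeta s)
      {s : ℂ | 1 / 2 < s.re ∧ s.re < 1} := fun s hs =>
    ((differentiableAt_riemannZeta (by
      intro h
      have h2 := hs.2
      rw [h] at h2
      simp at h2)).const_mul _).differentiableWithinAt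
  have hBd := hsup (fun s => ((Real.exp (-y0) : ℝ) : ℂ) * riemannZeta s) hdiff δ 0 (2 * X) B hδ hδ16 hB0 hmean H 1
    (by linarith) one_pos
  have hsub : {t : ℝ | 0 ≤ t ∧ t ≤ X ∧ ∃ u : ℝ, t ≤ u ∧ u ≤ t + H ∧ Real.exp (lev V δ + a) ≤ mz δ u} ⊆
      Set.Icc 0 1 ∪ {t : ℝ | 0 + 1 ≤ t ∧ t + H + 1 ≤ 2 * X ∧ ∃ u : ℝ, t ≤ u ∧ u ≤ t + H ∧
        1 ≤ posLog ‖((Real.exp (-y0) : ℝ) : ℂ) * riemannZeta (1 / 2 + δ + u * Complex.I)‖} := by
    rintro t ⟨t0, t1, u, u1, u2, u3⟩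
    rcases le_or_gt t 1 with h | h
    · exact Or.inl ⟨t0, h⟩
    · refine Or.inr ⟨by linarith, by linarith, u, u1, u2, ?_⟩
      rw [nrm]
      have h3 : Real.exp 1 ≤ Real.exp (-y0) * mz δ u := by
        calc Real.exp 1 = Real.exp (-y0) * Real.exp (lev V δ + a) := by
              rw [← Real.exp_add]
              congr 1
              rw [hy0]
              ring
          _ ≤ _ := mul_le_mul_of_nonneg_left u3 (Real.exp_pos _).le
      have h4 := Real.log_le_log (Real.exp_pos _) h3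
      rw [Real.log_exp] at h4
      exact h4.trans (le_max_right _ _)
  refine (measure_mono hsub).trans ((measure_union_le _ _).trans ?_)
  have hv : volume (Set.Icc (0:ℝ) 1) = ENNReal.ofReal 1 := by
    rw [Real.volume_Icc]
    norm_num
  rw [hv]
  refine (add_le_add le_rfl hBd).trans ?_
  rw [← ENNReal.ofReal_add zero_le_one (by positivity)]
  refine ENNReal.ofReal_le_ofReal ?_
  have hHδ : H * δ ^ (V ^ 2) = δ := by
    rw [hH, ← Real.rpow_add hδ]
    have : -(V ^ 2 - 1) + V ^ 2 = 1 := by ring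
    rw [this, Real.rpow_one]
  have hfin : CS * (H + 2) * B / (δ * 1) ≤ Q * (Ea + δ) * X := by
    calc CS * (H + 2) * B / (δ * 1) ≤ CS * (3 * H) * B / (δ * 1) := by
          have : H + 2 ≤ 3 * H := by linarith
          gcongr
      _ = Q * ((H * δ ^ (V ^ 2)) / δ) * (Ea + δ) * X := by
          rw [hB, hQ]
          ring
      _ = Q * (Ea + δ) * X := by
          rw [hHδ, div_self hδ.ne', mul_one]
  have hEa2 : Ea = Real.exp (2 * V) * Real.exp (-(2 * V * a)) := by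
    rw [hEa, ← Real.exp_add, hb]
    congr 1
    ring
  have hV1 : 1 ≤ Real.exp (2 * V) := Real.one_le_exp (by positivity)
  have h3 : 0 < Real.exp (-(2 * V * a)) := Real.exp_pos _
  have h4 : Q * (Ea + δ) * X ≤ Q * Real.exp (2 * V) * (Real.exp (-(2 * V * a)) + δ) * X := by
    refine mul_le_mul_of_nonneg_right ?_ hX0.le
    rw [hEa2]
    have h6 : Real.exp (2 * V) * Real.exp (-(2 * V * a)) + δ ≤ Real.exp (2 * V) * (Real.exp (-(2 * V * a)) + δ) := by
      nlinarith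
    calc Q * (Real.exp (2 * V) * Real.exp (-(2 * V * a)) + δ) ≤ Q * (Real.exp (2 * V) * (Real.exp (-(2 * V * a)) + δ)) :=
          mul_le_mul_of_nonneg_left h6 hQ0.le
      _ = _ := by ring
  have h5 : δ * X ≤ Real.exp (2 * V) * (Real.exp (-(2 * V * a)) + δ) * X := by
    refine mul_le_mul_of_nonneg_right ?_ hX0.le
    nlinarith
  nlinarith

end Run7.h291.WG
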