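import Pool.Agent.Run7.h291.WG.G15
import Pool.Agent.Run7.h291.WG.G14

set_option autoImplicit false

/-! The maximum in windows: the tail of the maximum, lower bound -/

namespace Run7.h291.WG

open Finset Filter MeasureTheory Topology Complex
open Pool.Agent.N748.MG Pool.Agent.N748.MJ Run7.h291.WN Run7.h291.WL Run7.h651.WN

/-- a second moment inequality -/
lemma pzl {Z : ℝ → ℝ} (hZ : Continuous Z) (h0 : ∀ t, 0 ≤ Z t) {X lam s A2 p : ℝ} (hX : 0 ≤ X) (hs : 0 < s) (hlam : 0 < lam)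
    (h1 : X / 4 ≤ ∫ t in (0:ℝ)..X, Z t) (h2 : ∫ t in (0:ℝ)..X, Z t ^ 2 ≤ A2) (hp : 0 ≤ p)
    (h3 : volume {t : ℝ | 0 ≤ t ∧ t ≤ X ∧ 0 < Z t} ≤ ENNReal.ofReal p) :
    X / 4 - lam * p - A2 / (2 * s) ≤ s / 2 * volume.real {t : ℝ | 0 ≤ t ∧ t ≤ X ∧ lam ≤ Z t} := by
  set P : Set ℝ := {t : ℝ | 0 ≤ t ∧ t ≤ X ∧ 0 < Z t} with hP
  set Q : Set ℝ := {t : ℝ | 0 ≤ t ∧ t ≤ X ∧ lam ≤ Z t} with hQ
  have hPe : P = Set.Icc 0 X ∩ {t | 0 < Z t} := by
    ext t
    simp only [hP, Set.mem_setOf_eq, Set.mem_inter_iff, Set.mem_Icc]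
    tauto
  have hQe : Q = Set.Icc 0 X ∩ {t | lam ≤ Z t} := by
    ext t
    simp only [hQ, Set.mem_setOf_eq, Set.mem_inter_iff, Set.mem_Icc]
    tauto
  have hPm : MeasurableSet P := by
    rw [hPe]
    exact measurableSet_Icc.inter (measurableSet_lt measurable_const hZ.measurable)
  have hQm : MeasurableSet Q := by
    rw [hQe]
    exact measurableSet_Icc.inter (measurableSet_le measurable_const hZ.measurable)
  have hPs : P ⊆ Set.Icc 0 X := by
    rw [hPe]
    exact Set.inter_subset_left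
  have hQs : Q ⊆ Set.Icc 0 X := by
    rw [hQe]
    exact Set.inter_subset_left
  have hfin : volume (Set.Icc (0:ℝ) X) ≠ ⊤ := by
    rw [Real.volume_Icc]
    exact ENNReal.ofReal_ne_top
  have iP : IntegrableOn (fun t => P.indicator (fun _ => lam) t) (Set.Icc 0 X) :=
    (integrableOn_const (C := lam) hfin).indicator hPm
  have iQ : IntegrableOn (fun t => Q.indicator (fun _ => s / 2) t) (Set.Icc 0 X) :=
    (integrableOn_const (C := s / 2) hfin).indicator hQm
  have iZ : IntegrableOn (fun t => 1 / (2 * s) * Z t ^ 2) (Set.Icc 0 X) :=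
    (continuous_const.mul (hZ.pow 2)).integrableOn_Icc
  have key : ∫ t in Set.Icc 0 X, Z t ≤ ∫ t in Set.Icc 0 X, (P.indicator (fun _ => lam) t + 1 / (2 * s) * Z t ^ 2 +
      Q.indicator (fun _ => s / 2) t) := by
    refine setIntegral_mono_on hZ.integrableOn_Icc ((iP.add iZ).add iQ) measurableSet_Icc fun t ht => ?_
    have hz := h0 t
    have q1 : 0 ≤ 1 / (2 * s) * Z t ^ 2 := by positivity
    have q2 : 0 ≤ P.indicator (fun _ => lam) t := Set.indicator_nonneg (fun _ _ => hlam.le) _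
    have q3 : 0 ≤ Q.indicator (fun _ => s / 2) t := Set.indicator_nonneg (fun _ _ => by positivity) _
    rcases hz.eq_or_lt with hz0 | hz0
    · rw [← hz0] at q1 ⊢
      linarith
    rcases lt_or_ge (Z t) lam with hl | hl
    · have : t ∈ P := ⟨ht.1, ht.2, hz0⟩
      rw [Set.indicator_of_mem this]
      linarith
    · have : t ∈ Q := ⟨ht.1, ht.2, hl⟩
      rw [Set.indicator_of_mem this]
      have h4 : 0 ≤ (Z t - s) ^ 2 / (2 * s) := by positivity
      have h5 : (Z t - s) ^ 2 / (2 * s) = 1 / (2 * s) * Z t ^ 2 + s / 2 - Z t := by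
        field_simp
        ring
      linarith
  have e0 : ∀ f : ℝ → ℝ, ∫ t in Set.Icc 0 X, f t = ∫ t in (0:ℝ)..X, f t := fun f => by
    rw [intervalIntegral.integral_of_le hX, integral_Icc_eq_integral_Ioc]
  have e1 : ∫ t in Set.Icc 0 X, (P.indicator (fun _ => lam) t + 1 / (2 * s) * Z t ^ 2 + Q.indicator (fun _ => s / 2) t) =
      lam * volume.real P + 1 / (2 * s) * (∫ t in (0:ℝ)..X, Z t ^ 2) + s / 2 * volume.real Q := by
    have g1 := integral_add (μ := volume.restrict (Set.Icc 0 X)) (iP.add iZ) iQ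
    have g2 := integral_add (μ := volume.restrict (Set.Icc 0 X)) iP iZ
    simp only [Pi.add_apply] at g1 g2
    rw [g1, g2, setIntegral_indicator hPm, setIntegral_indicator hQm, setIntegral_const, setIntegral_const, smul_eq_mul,
      smul_eq_mul, Set.inter_eq_right.2 hPs, Set.inter_eq_right.2 hQs, integral_const_mul, e0]
    ring
  rw [e1, e0] at key
  have h4 : volume.real P ≤ p := ENNReal.toReal_le_of_le_ofReal hp h3
  have h5 : lam * volume.real P ≤ lam * p := mul_le_mul_of_nonneg_left h4 hlam.le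
  have h6 : 1 / (2 * s) * (∫ t in (0:ℝ)..X, Z t ^ 2) ≤ A2 / (2 * s) := by
    calc 1 / (2 * s) * (∫ t in (0:ℝ)..X, Z t ^ 2) ≤ 1 / (2 * s) * A2 := mul_le_mul_of_nonneg_left h2 (by positivity)
      _ = A2 / (2 * s) := by ring
  linarith

/-- many values at higher levels, with the right probability -/
theorem tlow {V : ℝ} (hV : 1 < V) : ∃ c c' : ℝ, 0 < c ∧ 0 < c' ∧ Ev fun X δ => ∀ a : ℝ, 0 ≤ a →
    a + 1 ≤ Real.log (1 / δ) ^ ((1:ℝ) / 4) / 2 →
    ENNReal.ofReal (c * Real.exp (-(2 * V * a)) * X) ≤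
      volume {t : ℝ | 0 ≤ t ∧ t ≤ X ∧ c' * δ ≤ volume.real (LV V a δ t)} := by
  have hV0 : 0 < V := by linarith
  obtain ⟨n, η, K, C, hC, HE⟩ := swin2 (Run7.h42.WN.mnb Run7.h772.zml) flo far hV
  obtain ⟨Cs, hCs, E6⟩ := FS_up' hV0
  obtain ⟨CU, hCU, HU⟩ := mxq hV
  set C3 : ℝ := CU * (Real.exp (2 * V) + 1) with hC3
  have hC30 : 0 < C3 := by positivity
  have hlim : ∀ᶠ L : ℝ in atTop, 2 * V * (L ^ ((1:ℝ) / 4) / 2) ≤ L := by
    have h3 := (tendsto_rpow_atTop (show (0:ℝ) < 3 / 4 by norm_num)).eventually_ge_atTop V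
    filter_upwards [h3, eventually_ge_atTop 1] with L g1 g3
    have h0 : 0 < L := by linarith
    have g4 : L ^ ((3:ℝ) / 4) * L ^ ((1:ℝ) / 4) = L := by
      rw [← Real.rpow_add h0]
      norm_num
    have g5 : V * L ^ ((1:ℝ) / 4) ≤ L ^ ((3:ℝ) / 4) * L ^ ((1:ℝ) / 4) :=
      mul_le_mul_of_nonneg_right g1 (Real.rpow_nonneg h0.le _)
    linarith
  refine ⟨1 / (64 * (2 * C + 2)) * Real.exp (-(2 * V)), 1 / (8 * C3 * Cs), by positivity, by positivity,
    ((HE.and HU).and (Ev.of_log hlim)).mono ?_⟩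
  rintro X δ hX1 h0 h1 ⟨⟨hE, hU⟩, hL⟩ a ha0 haL
  have hX0 : 0 < X := lt_of_lt_of_le one_pos hX1
  obtain ⟨hE1, hE2⟩ := hE (a + 1) (by linarith) haL
  set Ea : ℝ := Real.exp (2 * V * (a + 1)) with hEa
  have hEa0 : 0 < Ea := Real.exp_pos _
  have hEa1 : 1 ≤ Ea := Real.one_le_exp (by positivity)
  set y : ℝ := lev V δ + (a + 1) with hy
  set W : ℝ := δ ^ (-(V ^ 2 - 1)) with hW
  have hW0 : 0 < W := Real.rpow_pos_of_pos h0 _
  have hFc : Continuous fun t => FS V tent δ y t :=
    FS_cont hV0 tent_cont (B := -1) (fun x hx => tent_zero (by rw [abs_of_nonpos (by linarith)]; linarith)) h1 y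
  have hfc : Continuous (fB n V η K (a + 1) δ) := hFc.mul (BB_cont h1)
  have hf0 : ∀ t, 0 ≤ fB n V η K (a + 1) δ t := fun t => mul_nonneg (FS_nn tent_nn h0.le _ t) BB_nn
  have hAc := Av_cont (l := W) hfc
  have hA0 : ∀ t, 0 ≤ Av W (fB n V η K (a + 1) δ) t := fun t => by
    unfold Av
    exact mul_nonneg (by positivity) (intervalIntegral.integral_nonneg hW0.le fun u _ => hf0 _)
  -- a positive weight gives a large value
  have hpt : ∀ t u : ℝ, u ∈ Set.Icc t (t + W) → fB n V η K (a + 1) δ u ≠ 0 → u ∈ LV V a δ t := by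
    intro t u hu hne
    have hne' : FS V tent δ y u ≠ 0 := by
      intro h
      refine hne ?_
      unfold fB
      rw [← hy, h, zero_mul]
    have hm : 0 < mz δ u := by
      rcases (TMA.mz_nn δ u).eq_or_lt with hm | hm
      · exact absurd (FS_zero_of hV0 hm.symm) hne'
      · exact hm
    refine ⟨hu, ?_⟩
    have h7 : |Real.log (mz δ u) - y| < 1 := by
      by_contra hc3
      push Not at hc3
      exact hne' (FS_eq_zero (tent_zero hc3))
    rw [← Real.exp_log hm]
    refine Real.exp_le_exp.2 ?_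
    have := (abs_lt.1 h7).1
    linarith
  have hP : volume {t : ℝ | 0 ≤ t ∧ t ≤ X ∧ 0 < Av W (fB n V η K (a + 1) δ) t} ≤ ENNReal.ofReal (C3 / Ea * X) := by
    refine (measure_mono (show _ ⊆ {t : ℝ | 0 ≤ t ∧ t ≤ X ∧ ∃ u : ℝ, t ≤ u ∧ u ≤ t + W ∧
      Real.exp (lev V δ + a) ≤ mz δ u} from ?_)).trans ((hU a).trans (ENNReal.ofReal_le_ofReal ?_))
    · rintro t ⟨t0, t1, t2⟩
      refine ⟨t0, t1, ?_⟩
      by_contra hcon
      push Not at hcon
      have h3 : ∀ u ∈ Set.uIcc t (t + W), fB n V η K (a + 1) δ u = 0 := by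
        intro u hu
        rw [Set.uIcc_of_le (by linarith)] at hu
        by_contra hne
        exact absurd (hpt t u hu hne).2 (not_le.2 (hcon u hu.1 hu.2))
      have h4 : ∫ u in t..(t + W), fB n V η K (a + 1) δ u = 0 := by
        rw [intervalIntegral.integral_congr (g := fun _ => (0:ℝ)) h3]
        simp
      unfold Av at t2
      rw [intervalIntegral.integral_comp_add_left (fun u => fB n V η K (a + 1) δ u), add_zero, h4, mul_zero] at t2
      exact lt_irrefl _ t2
    · refine mul_le_mul_of_nonneg_right ?_ hX0.le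
      have e1 : Real.exp (-(2 * V * a)) = Real.exp (2 * V) / Ea := by
        rw [eq_div_iff hEa0.ne', hEa, ← Real.exp_add]
        congr 1
        ring
      have e2 : δ ≤ 1 / Ea := by
        rw [le_div_iff₀ hEa0, hEa]
        have e3 : δ = Real.exp (-Real.log (1 / δ)) := by
          rw [one_div, Real.log_inv, neg_neg, Real.exp_log h0]
        have e4 : 2 * V * (a + 1) ≤ Real.log (1 / δ) := by
          refine le_trans (mul_le_mul_of_nonneg_left haL (by positivity)) hL
        nth_rw 1 [e3]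
        rw [← Real.exp_add]
        rw [Real.exp_le_one_iff]
        linarith
      rw [e1]
      calc CU * (Real.exp (2 * V) / Ea + δ) ≤ CU * (Real.exp (2 * V) / Ea + 1 / Ea) := by gcongr
        _ = C3 / Ea := by
            rw [hC3]
            ring
  set lam : ℝ := Ea / (8 * C3) with hlam
  have hlam0 : 0 < lam := by positivity
  set s : ℝ := 8 * ((2 * C + 2) * Ea) with hs
  have hs0 : 0 < s := by positivity
  have hA2 : ∫ t in (0:ℝ)..X, Av W (fB n V η K (a + 1) δ) t ^ 2 ≤ (2 * C + 2) * Ea * X := by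
    have h2 : ∫ t in (0:ℝ)..X, Av W (fB n V η K (a + 1) δ) t ^ 2 ≤
        ∫ t in (0:ℝ)..X, (2 * (Av W (fB n V η K (a + 1) δ) t - 1) ^ 2 + 2) := by
      refine intervalIntegral.integral_mono_on hX0.le ((hAc.pow 2).intervalIntegrable _ _)
        ((by fun_prop : Continuous fun t => (2 * (Av W (fB n V η K (a + 1) δ) t - 1) ^ 2 + 2)).intervalIntegrable _ _)
        fun t _ => ?_
      nlinarith [sq_nonneg (Av W (fB n V η K (a + 1) δ) t - 2)]
    rw [intervalIntegral.integral_add ((by fun_prop : Continuous fun t =>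
      2 * (Av W (fB n V η K (a + 1) δ) t - 1) ^ 2).intervalIntegrable _ _) (by simp),
      intervalIntegral.integral_const_mul, intervalIntegral.integral_const, smul_eq_mul, sub_zero] at h2
    have h3 : X * 2 ≤ 2 * Ea * X := by nlinarith
    nlinarith
  have key := pzl hAc hA0 hX0.le hs0 hlam0 hE2 hA2 (show 0 ≤ C3 / Ea * X by positivity) hP
  have e1 : lam * (C3 / Ea * X) = X / 8 := by
    rw [hlam]
    field_simp
  have e2 : (2 * C + 2) * Ea * X / (2 * s) = X / 16 := by
    rw [hs]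
    field_simp
    norm_num
  rw [e1, e2] at key
  have key2 : X / 16 ≤ s / 2 * volume.real {t : ℝ | 0 ≤ t ∧ t ≤ X ∧ lam ≤ Av W (fB n V η K (a + 1) δ) t} := by
    linarith
  set QQ : Set ℝ := {t : ℝ | 0 ≤ t ∧ t ≤ X ∧ lam ≤ Av W (fB n V η K (a + 1) δ) t} with hQQ
  have hQs : QQ ⊆ {t : ℝ | 0 ≤ t ∧ t ≤ X ∧ 1 / (8 * C3 * Cs) * δ ≤ volume.real (LV V a δ t)} := by
    rintro t ⟨t0, t1, t2⟩
    refine ⟨t0, t1, ?_⟩
    have h3 : lam * W ≤ ∫ u in t..(t + W), fB n V η K (a + 1) δ u := by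
      unfold Av at t2
      rw [intervalIntegral.integral_comp_add_left (fun u => fB n V η K (a + 1) δ u), add_zero] at t2
      rw [one_div, le_inv_mul_iff₀ hW0] at t2
      linarith
    set G0 : ℝ := √(Real.log (1 / δ)) * Real.exp (2 * V * y) * δ ^ (V ^ 2) with hG0
    have hG : G0 = Ea * δ ^ (-(V ^ 2)) := lev_G hV0 h0 h1
    have hG00 : 0 < G0 := by
      rw [hG]
      have := Real.rpow_pos_of_pos h0 (-(V ^ 2))
      positivity
    set S := LV V a δ t with hS
    have hSm : MeasurableSet S := LV_meas _ _ _ h1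
    have h4 : ∫ u in t..(t + W), fB n V η K (a + 1) δ u ≤ Cs * G0 * volume.real S := by
      rw [intervalIntegral.integral_of_le (by linarith), ← integral_Icc_eq_integral_Ioc]
      have h5 : Cs * G0 * volume.real S = ∫ u in Set.Icc t (t + W), S.indicator (fun _ => Cs * G0) u := by
        rw [setIntegral_indicator hSm, setIntegral_const, smul_eq_mul, mul_comm]
        congr 2
        exact (Set.inter_eq_right.2 fun u hu => hu.1).symm
      rw [h5]
      refine setIntegral_mono_on hfc.integrableOn_Icc ?_ measurableSet_Icc fun u hu => ?_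
      · refine (integrableOn_const (C := Cs * G0) ?_ ).indicator hSm
        rw [Real.volume_Icc]
        exact ENNReal.ofReal_ne_top
      by_cases hne : fB n V η K (a + 1) δ u = 0
      · rw [hne]
        exact Set.indicator_nonneg (fun _ _ => by positivity) _
      rw [Set.indicator_of_mem (hpt t u hu hne)]
      have h7 : fB n V η K (a + 1) δ u ≤ FS V tent δ y u := mul_le_of_le_one_right (FS_nn tent_nn h0.le _ _) BB_le
      exact h7.trans (E6 δ h0 h1 y u)
    have h5 := h3.trans h4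
    have h6 : W = δ ^ (-(V ^ 2)) * δ := by
      rw [hW]
      nth_rw 3 [← Real.rpow_one δ]
      rw [← Real.rpow_add h0]
      congr 1
      ring
    have hdp : 0 < δ ^ (-(V ^ 2)) := Real.rpow_pos_of_pos h0 _
    rw [hG, h6, hlam] at h5
    have h7 : (Ea * δ ^ (-(V ^ 2))) * (δ / (8 * C3)) ≤ (Ea * δ ^ (-(V ^ 2))) * (Cs * volume.real S) := by
      calc (Ea * δ ^ (-(V ^ 2))) * (δ / (8 * C3)) = Ea / (8 * C3) * (δ ^ (-(V ^ 2)) * δ) := by ring
        _ ≤ _ := h5
        _ = _ := by ring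
    have h8 := le_of_mul_le_mul_left h7 (by positivity)
    have h9 : 1 / (8 * C3 * Cs) * δ = (δ / (8 * C3)) / Cs := by field_simp
    rw [h9, div_le_iff₀ hCs]
    linarith
  refine le_trans ?_ (measure_mono hQs)
  have hfin : volume QQ ≠ ⊤ := by
    refine ((measure_mono (show QQ ⊆ Set.Icc 0 X from fun t ht => ⟨ht.1, ht.2.1⟩)).trans_lt ?_).ne
    rw [Real.volume_Icc]
    exact ENNReal.ofReal_lt_top
  rw [← ENNReal.ofReal_toReal hfin]
  refine ENNReal.ofReal_le_ofReal ?_
  show _ ≤ volume.real QQ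
  have h9 : X / (8 * s) ≤ volume.real QQ := by
    rw [div_le_iff₀ (by positivity)]
    nlinarith
  refine le_trans (le_of_eq ?_) h9
  rw [hs, hEa]
  have e3 : Real.exp (2 * V * (a + 1)) = (Real.exp (-(2 * V)) * Real.exp (-(2 * V * a)))⁻¹ := by
    rw [← Real.exp_add, ← Real.exp_neg]
    congr 1
    ring
  rw [e3]
  field_simp
  norm_num

end Run7.h291.WG
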