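import Pool.Agent.Run7.h291.WG.G16
import Pool.Agent.Run7.h291.WG.G17

set_option autoImplicit false

/-! The maximum in windows: the tails of the maximum and of the moments -/

namespace Run7.h291.WG

open Finset Filter MeasureTheory Topology Complex
open Pool.Agent.N748.MG Pool.Agent.N748.MJ Run7.h291.WN Run7.h291.WL Run7.h651.WN

/-- conditions on the level -/
lemma lev_rg (V s : ℝ) (hV : 0 < V) : Ev fun _ δ => ∀ a : ℝ, a ≤ Real.log (1 / δ) ^ ((1:ℝ) / 5) →
    a + s + 1 ≤ Real.log (1 / δ) ^ ((1:ℝ) / 4) / 2 ∧ δ ≤ Real.exp (-(2 * V * a)) := by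
  have h1 : ∀ᶠ L : ℝ in atTop, L ^ ((1:ℝ) / 5) + s + 1 ≤ L ^ ((1:ℝ) / 4) / 2 := by
    have h3 := (tendsto_rpow_atTop (show (0:ℝ) < 1 / 20 by norm_num)).eventually_ge_atTop 4
    have h4 := (tendsto_rpow_atTop (show (0:ℝ) < 1 / 4 by norm_num)).eventually_ge_atTop (4 * (s + 1))
    filter_upwards [h3, h4, eventually_ge_atTop 1] with L g1 g2 g3
    have h0 : 0 < L := by linarith
    have g4 : L ^ ((1:ℝ) / 20) * L ^ ((1:ℝ) / 5) = L ^ ((1:ℝ) / 4) := by
      rw [← Real.rpow_add h0]
      norm_num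
    have g5 : 4 * L ^ ((1:ℝ) / 5) ≤ L ^ ((1:ℝ) / 20) * L ^ ((1:ℝ) / 5) :=
      mul_le_mul_of_nonneg_right g1 (Real.rpow_nonneg h0.le _)
    linarith
  have h2 : ∀ᶠ L : ℝ in atTop, 2 * V * L ^ ((1:ℝ) / 5) ≤ L := by
    have h3 := (tendsto_rpow_atTop (show (0:ℝ) < 4 / 5 by norm_num)).eventually_ge_atTop (2 * V)
    filter_upwards [h3, eventually_ge_atTop 1] with L g1 g3
    have h0 : 0 < L := by linarith
    have g4 : L ^ ((4:ℝ) / 5) * L ^ ((1:ℝ) / 5) = L := by
      rw [← Real.rpow_add h0]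
      norm_num
    have g5 : 2 * V * L ^ ((1:ℝ) / 5) ≤ L ^ ((4:ℝ) / 5) * L ^ ((1:ℝ) / 5) :=
      mul_le_mul_of_nonneg_right g1 (Real.rpow_nonneg h0.le _)
    linarith
  refine ((Ev.of_log h1).and (Ev.of_log h2)).mono ?_
  rintro X δ _ h0 _ ⟨g1, g2⟩ a ha
  refine ⟨by linarith, ?_⟩
  have e3 : δ = Real.exp (-Real.log (1 / δ)) := by
    rw [one_div, Real.log_inv, neg_neg, Real.exp_log h0]
  nth_rw 1 [e3]
  refine Real.exp_le_exp.2 ?_
  have : 2 * V * a ≤ 2 * V * Real.log (1 / δ) ^ ((1:ℝ) / 5) := mul_le_mul_of_nonneg_left ha (by positivity)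
  linarith

/-- the tail of the maximum -/
theorem tails_max {V : ℝ} (hV : 1 < V) : ∃ c C : ℝ, 0 < c ∧ 0 < C ∧ Ev fun X δ => ∀ a : ℝ, 0 ≤ a →
    a ≤ Real.log (1 / δ) ^ ((1:ℝ) / 5) →
    ENNReal.ofReal (c * Real.exp (-(2 * V * a)) * X) ≤
      volume {t : ℝ | 0 ≤ t ∧ t ≤ X ∧ c * δ ≤ volume.real (LV V a δ t)} ∧
    volume {t : ℝ | 0 ≤ t ∧ t ≤ X ∧ ∃ u : ℝ, t ≤ u ∧ u ≤ t + δ ^ (-(V ^ 2 - 1)) ∧ Real.exp (lev V δ + a) ≤ mz δ u} ≤
      ENNReal.ofReal (C * Real.exp (-(2 * V * a)) * X) := by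
  have hV0 : 0 < V := by linarith
  obtain ⟨c, c', hc, hc', HL⟩ := tlow hV
  obtain ⟨CU, hCU, HU⟩ := mxq hV
  refine ⟨min c c', 2 * CU, lt_min hc hc', by positivity, ((HL.and HU).and (lev_rg V 0 hV0)).mono ?_⟩
  rintro X δ hX1 h0 h1 ⟨⟨hl, hu⟩, hr⟩ a ha haL
  have hX0 : 0 < X := lt_of_lt_of_le one_pos hX1
  obtain ⟨r1, r2⟩ := hr a haL
  constructor
  · refine le_trans (ENNReal.ofReal_le_ofReal ?_) ((hl a ha (by linarith)).trans (measure_mono ?_))
    · gcongr
      exact min_le_left _ _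
    · rintro t ⟨t0, t1, t2⟩
      exact ⟨t0, t1, (mul_le_mul_of_nonneg_right (min_le_right _ _) h0.le).trans t2⟩
  · refine (hu a).trans (ENNReal.ofReal_le_ofReal ?_)
    refine mul_le_mul_of_nonneg_right ?_ hX0.le
    nlinarith

/-- the tail of the moments -/
theorem tails_mom {V : ℝ} (hV : 1 < V) {κ : ℝ} (hκ : 0 < κ) (K : ℝ) : ∃ c C : ℝ, 0 < c ∧ 0 < C ∧ Ev fun X δ =>
    ∀ k : ℝ, V + κ ≤ k → k ≤ K → ∀ a : ℝ, 0 ≤ a → a ≤ Real.log (1 / δ) ^ ((1:ℝ) / 5) →
    ENNReal.ofReal (c * Real.exp (-(2 * V * a)) * X) ≤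
      volume {t : ℝ | 0 ≤ t ∧ t ≤ X ∧ Real.exp (2 * k * a) * (δ * Real.exp (2 * k * lev V δ)) ≤
        ∫ u in t..(t + δ ^ (-(V ^ 2 - 1))), mz δ u ^ (2 * k)} ∧
    volume {t : ℝ | 0 ≤ t ∧ t ≤ X ∧ Real.exp (2 * k * a) * (δ * Real.exp (2 * k * lev V δ)) ≤
        ∫ u in t..(t + δ ^ (-(V ^ 2 - 1))), mz δ u ^ (2 * k)} ≤
      ENNReal.ofReal (C * Real.exp (-(2 * V * a)) * X) := by
  have hV0 : 0 < V := by linarith
  obtain ⟨c, c', hc, hc', HL⟩ := tlow hV
  obtain ⟨CU, hCU, HU⟩ := mxq hV
  obtain ⟨CM, hCM, HM⟩ := win_mean2 hV hκ K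
  set s : ℝ := |Real.log c'| with hs
  have hs0 : 0 ≤ s := abs_nonneg _
  refine ⟨c * Real.exp (-(2 * V * s)), 2 * CU + CM, by positivity, by positivity,
    (((HL.and HU).and HM).and ((lev_rg V 0 hV0).and (lev_rg V s hV0))).mono ?_⟩
  rintro X δ hX1 h0 h1 ⟨⟨⟨hl, hu⟩, hm⟩, hr, hr'⟩ k hk hkK a ha haL
  have hX0 : 0 < X := lt_of_lt_of_le one_pos hX1
  obtain ⟨r1, r2⟩ := hr a haL
  obtain ⟨r1', -⟩ := hr' a haL
  have hk0 : 0 < k := by linarith
  set W : ℝ := δ ^ (-(V ^ 2 - 1)) with hW
  have hW0 : 0 < W := Real.rpow_pos_of_pos h0 _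
  have hmc : Continuous fun u => mz δ u := TMA.cont h1
  have hpc : Continuous fun u => mz δ u ^ (2 * k) := hmc.rpow_const fun t => Or.inr (by linarith)
  set m2 : ℝ := Real.exp (2 * k * lev V δ) with hm2
  have hm20 : 0 < m2 := Real.exp_pos _
  constructor
  · -- lower bound
    have h2 := hl (a + s) (by linarith) (by linarith)
    refine le_trans (le_of_eq ?_) (h2.trans (measure_mono ?_))
    · congr 2
      rw [mul_assoc, ← Real.exp_add]
      congr 2
      ring
    · rintro t ⟨t0, t1, t2⟩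
      refine ⟨t0, t1, ?_⟩
      set S := LV V (a + s) δ t with hS
      have hSm : MeasurableSet S := LV_meas _ _ _ h1
      have h4 : (Real.exp (2 * k * (a + s)) * m2) * volume.real S ≤ ∫ u in t..(t + W), mz δ u ^ (2 * k) := by
        rw [intervalIntegral.integral_of_le (by linarith), ← integral_Icc_eq_integral_Ioc]
        have h5 : (Real.exp (2 * k * (a + s)) * m2) * volume.real S =
            ∫ u in Set.Icc t (t + W), S.indicator (fun _ => (Real.exp (2 * k * (a + s)) * m2)) u := by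
          rw [setIntegral_indicator hSm, setIntegral_const, smul_eq_mul, mul_comm]
          congr 2
          exact (Set.inter_eq_right.2 fun u hu => hu.1).symm
        rw [h5]
        refine setIntegral_mono_on ?_ hpc.integrableOn_Icc measurableSet_Icc fun u hu => ?_
        · refine (integrableOn_const (C := (Real.exp (2 * k * (a + s)) * m2)) ?_ ).indicator hSm
          rw [Real.volume_Icc]
          exact ENNReal.ofReal_ne_top
        · by_cases hu2 : u ∈ S
          · rw [Set.indicator_of_mem hu2]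
            have h6 := Real.rpow_le_rpow (Real.exp_pos _).le hu2.2 (show 0 ≤ 2 * k by linarith)
            rw [← Real.exp_mul] at h6
            refine le_trans (le_of_eq ?_) h6
            rw [hm2, ← Real.exp_add]
            congr 1
            ring
          · rw [Set.indicator_of_notMem hu2]
            exact Real.rpow_nonneg (TMA.mz_nn _ _) _
      refine le_trans ?_ h4
      have h5 : 1 ≤ Real.exp (2 * k * s) * c' := by
        have h6 : Real.exp (-s) ≤ c' := by
          rw [← Real.exp_log hc']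
          exact Real.exp_le_exp.2 (by rw [hs]; exact neg_abs_le _)
        have h7 : Real.exp s ≤ Real.exp (2 * k * s) := Real.exp_le_exp.2 (by nlinarith)
        calc (1:ℝ) = Real.exp s * Real.exp (-s) := by rw [← Real.exp_add, add_neg_cancel, Real.exp_zero]
          _ ≤ Real.exp (2 * k * s) * c' := mul_le_mul h7 h6 (Real.exp_pos _).le (Real.exp_pos _).le
      have h6 : Real.exp (2 * k * (a + s)) = Real.exp (2 * k * a) * Real.exp (2 * k * s) := by
        rw [← Real.exp_add]
        congr 1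
        ring
      rw [h6]
      have h7 : 0 < Real.exp (2 * k * a) := Real.exp_pos _
      calc Real.exp (2 * k * a) * (δ * m2) = (Real.exp (2 * k * a) * m2 * δ) * 1 := by ring
        _ ≤ (Real.exp (2 * k * a) * m2 * δ) * (Real.exp (2 * k * s) * c') := mul_le_mul_of_nonneg_left h5 (by positivity)
        _ = (Real.exp (2 * k * a) * Real.exp (2 * k * s) * m2) * (c' * δ) := by ring
        _ ≤ _ := mul_le_mul_of_nonneg_left t2 (by positivity)
  · -- upper bound
    have h2 := hu a
    have h3 := hm k hk hkK a ha (by linarith)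
    set F : ℝ → ℝ := fun t => ∫ u in t..(t + W), phi k (lev V δ + a) δ u with hF
    have hFc : Continuous F := by
      have h4 : Continuous fun t : ℝ => ∫ x in (0:ℝ)..W, phi k (lev V δ + a) δ (t + x) := by
        refine intervalIntegral.continuous_parametric_intervalIntegral_of_continuous (f := fun t x =>
          phi k (lev V δ + a) δ (t + x)) ?_ continuous_const
        exact (phi_cont hk0.le h1).comp (by fun_prop)
      refine h4.congr fun t => ?_
      rw [hF]
      simp only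
      rw [intervalIntegral.integral_comp_add_left (fun u => phi k (lev V δ + a) δ u), add_zero]
    have hF0 : ∀ t, 0 ≤ F t := fun t => intervalIntegral.integral_nonneg (by linarith) fun u _ => phi_nn
    set Y : ℝ := Real.exp (2 * k * a) * (δ * m2) with hY
    have hY0 : 0 < Y := by positivity
    have h4 : volume {t : ℝ | 0 ≤ t ∧ t ≤ X ∧ Y ≤ F t} ≤ ENNReal.ofReal (CM * Real.exp (-(2 * V * a)) * X) := by
      set B : Set ℝ := {t : ℝ | 0 ≤ t ∧ t ≤ X ∧ Y ≤ F t} with hB
      have hBe : B = Set.Icc 0 X ∩ {t | Y ≤ F t} := by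
        ext t
        simp only [hB, Set.mem_setOf_eq, Set.mem_inter_iff, Set.mem_Icc]
        tauto
      have hBm : MeasurableSet B := by
        rw [hBe]
        exact measurableSet_Icc.inter (measurableSet_le measurable_const hFc.measurable)
      have hBs : B ⊆ Set.Icc 0 X := by
        rw [hBe]
        exact Set.inter_subset_left
      have hfin : volume B ≠ ⊤ := by
        refine ((measure_mono hBs).trans_lt ?_).ne
        rw [Real.volume_Icc]
        exact ENNReal.ofReal_lt_top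
      have h5 : Y * volume.real B ≤ ∫ t in (0:ℝ)..X, F t := by
        rw [intervalIntegral.integral_of_le hX0.le, ← integral_Icc_eq_integral_Ioc]
        have h6 : Y * volume.real B = ∫ t in Set.Icc 0 X, B.indicator (fun _ => Y) t := by
          rw [setIntegral_indicator hBm, setIntegral_const, smul_eq_mul, mul_comm, Set.inter_eq_right.2 hBs]
        rw [h6]
        refine setIntegral_mono_on ?_ hFc.integrableOn_Icc measurableSet_Icc fun t _ => ?_
        · refine (integrableOn_const (C := Y) ?_ ).indicator hBm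
          rw [Real.volume_Icc]
          exact ENNReal.ofReal_ne_top
        · by_cases ht : t ∈ B
          · rw [Set.indicator_of_mem ht]
            exact ht.2.2
          · rw [Set.indicator_of_notMem ht]
            exact hF0 t
      have h6 := h5.trans h3
      rw [← ENNReal.ofReal_toReal hfin]
      refine ENNReal.ofReal_le_ofReal ?_
      show volume.real B ≤ _
      have h7 : CM * Real.exp (2 * (k - V) * a) * (δ * m2) * X = Y * (CM * Real.exp (-(2 * V * a)) * X) := by
        have h8 : Real.exp (2 * (k - V) * a) = Real.exp (2 * k * a) * Real.exp (-(2 * V * a)) := by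
          rw [← Real.exp_add]
          congr 1
          ring
        rw [h8, hY]
        ring
      rw [h7] at h6
      exact le_of_mul_le_mul_left h6 hY0
    have hsub : {t : ℝ | 0 ≤ t ∧ t ≤ X ∧ Y ≤ ∫ u in t..(t + W), mz δ u ^ (2 * k)} ⊆
        {t : ℝ | 0 ≤ t ∧ t ≤ X ∧ ∃ u : ℝ, t ≤ u ∧ u ≤ t + W ∧ Real.exp (lev V δ + a) ≤ mz δ u} ∪
        {t : ℝ | 0 ≤ t ∧ t ≤ X ∧ Y ≤ F t} := by
      rintro t ⟨t0, t1, t2⟩
      by_cases hex : ∃ u : ℝ, t ≤ u ∧ u ≤ t + W ∧ Real.exp (lev V δ + a) ≤ mz δ u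
      · exact Or.inl ⟨t0, t1, hex⟩
      · right
        push Not at hex
        refine ⟨t0, t1, t2.trans (le_of_eq ?_)⟩
        rw [hF]
        refine intervalIntegral.integral_congr fun u hu => ?_
        rw [Set.uIcc_of_le (by linarith)] at hu
        have h5 := hex u hu.1 hu.2
        show mz δ u ^ (2 * k) = phi k (lev V δ + a) δ u
        unfold phi
        rw [psi_one, mul_one]
        have h6 := mul_le_mul_of_nonneg_right h5.le (Real.exp_pos (-(lev V δ + a))).le
        rwa [← Real.exp_add, add_neg_cancel, Real.exp_zero] at h6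
    refine (measure_mono hsub).trans ((measure_union_le _ _).trans ((add_le_add h2 h4).trans ?_))
    rw [← ENNReal.ofReal_add (by positivity) (by positivity)]
    refine ENNReal.ofReal_le_ofReal ?_
    have h5 : CU * (Real.exp (-(2 * V * a)) + δ) * X ≤ CU * (2 * Real.exp (-(2 * V * a))) * X := by
      gcongr
      linarith
    linarith

end Run7.h291.WG
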