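import Pool.Agent.Run7.h291.WG.Stm3

set_option autoImplicit false

/-! High values up to the edge: levels below the edge -/

namespace Run7.h291.WG

open Finset Filter MeasureTheory Topology Complex
open Pool.Agent.N748.MG Pool.Agent.N748.MJ Run7.h291.WN Run7.h291.WL Run7.h651.WN

lemma lev_le3 (V a0 : ℝ) (hV : 0 < V) : Ev fun _ δ => ∀ a : ℝ, a ≤ a0 → -(Real.log (1 / δ) ^ ((1:ℝ) / 4) / 2) ≤ a →
    lev V δ + a ≤ (V + 1) * Real.log (1 / δ) ∧ |lev V δ + a - V * Real.log (1 / δ)| ≤ Real.log (1 / δ) ^ ((1:ℝ) / 4) := by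
  have h2 : ∀ᶠ L : ℝ in atTop, Real.log L / (4 * V) ≤ L ^ ((1:ℝ) / 4) / 2 ∧ a0 ≤ L ^ ((1:ℝ) / 4) := by
    have h3 := (isLittleO_log_rpow_atTop (show (0:ℝ) < 1 / 4 by norm_num)).bound (show (0:ℝ) < 2 * V by positivity)
    have h4 := (tendsto_rpow_atTop (show (0:ℝ) < 1 / 4 by norm_num)).eventually_ge_atTop a0
    filter_upwards [h3, h4, eventually_ge_atTop 1] with L g1 g2 g3
    rw [Real.norm_of_nonneg (Real.log_nonneg g3), Real.norm_of_nonneg (by positivity)] at g1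
    refine ⟨?_, g2⟩
    rw [div_le_iff₀ (by positivity)]
    linarith
  refine (Ev.of_log h2).mono ?_
  rintro X δ _ h0 h1' ⟨g2, g4⟩ a ha ha2
  have hL : 1 ≤ Real.log (1 / δ) := log_inv_ge h0 h1'
  have h5 : 0 ≤ Real.log (Real.log (1 / δ)) / (4 * V) := div_nonneg (Real.log_nonneg hL) (by positivity)
  have h6 : Real.log (1 / δ) ^ ((1:ℝ) / 4) ≤ Real.log (1 / δ) := by
    calc Real.log (1 / δ) ^ ((1:ℝ) / 4) ≤ Real.log (1 / δ) ^ (1:ℝ) := Real.rpow_le_rpow_of_exponent_le hL (by norm_num)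
      _ = Real.log (1 / δ) := Real.rpow_one _
  unfold lev
  constructor
  · linarith
  · rw [abs_le]
    constructor <;> linarith

end Run7.h291.WG
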