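import Pool.Agent.Run7.h291.WG.G1

set_option autoImplicit false

/-! The maximum in windows: a local upper bound for joint moments -/

namespace Run7.h291.WG

open Finset Filter MeasureTheory Topology Complex
open Pool.Agent.N748.MG Pool.Agent.N748.MJ Run7.h291.WN Run7.h291.WL Run7.h651.WN

lemma four' {γ : ℝ → ℂ} {V δ t : ℝ} (y : ℝ) (h : 0 < mz δ t) :
    ∫ ξ, γ ξ * cexp (-(I * y * ξ)) * Kz V δ t ξ =
      ((mz δ t ^ (2 * V) : ℝ) : ℂ) * ∫ ξ, γ ξ * cexp (I * (Real.log (mz δ t) - y : ℝ) * ξ) := by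
  rw [← integral_const_mul]
  refine integral_congr_ae (Eventually.of_forall fun ξ => ?_)
  simp only
  rw [Kz_eq h]
  have e : cexp (I * (Real.log (mz δ t) - y : ℝ) * ξ) = cexp (-(I * y * ξ)) *
      cexp (I * (Real.log (mz δ t) : ℝ) * ξ) := by
    rw [← Complex.exp_add]
    congr 1
    push_cast
    ring
  rw [e]
  ring

variable {m : ℕ}

/-- the factors at the other points -/
noncomputable def Pp (k h : Fin (m + 1) → ℝ) (δ t : ℝ) : ℝ := ∏ j : Fin m, mz δ (t + h j.succ) ^ (2 * k j.succ)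

lemma G_Pp (k h : Fin (m + 1) → ℝ) (δ t : ℝ) : SM.G k h δ t = mz δ (t + h 0) ^ (2 * k 0) * Pp k h δ t := by
  unfold SM.G Pp
  rw [Fin.prod_univ_succ]

lemma Pp_nn (k h : Fin (m + 1) → ℝ) (δ t : ℝ) : 0 ≤ Pp k h δ t :=
  Finset.prod_nonneg fun j _ => Real.rpow_nonneg (norm_nonneg _) _

lemma Pp_meas (k h : Fin (m + 1) → ℝ) {δ : ℝ} (h1 : δ ≤ 1 / 16) : Measurable fun t => Pp k h δ t := by
  unfold Pp
  refine Finset.measurable_prod _ fun _ _ => ?_
  exact ((TMA.cont h1).measurable.comp (measurable_id.add_const _)).pow_const _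

lemma prod_be (k h : Fin (m + 1) → ℝ) (δ t ξ : ℝ) :
    ∏ j, ZZ (riemannZeta (pw δ (t + h j))) (be k ξ j) ((fun _ => 0 : Fin (m + 1) → ℤ) j) =
      Kz (k 0) δ (t + h 0) ξ * (Pp k h δ t : ℂ) := by
  rw [Fin.prod_univ_succ, be_zero, Kz_ZZ]
  congr 1
  unfold Pp
  rw [Complex.ofReal_prod]
  refine Finset.prod_congr rfl fun j _ => ?_
  rw [be_succ]
  unfold ZZ mz
  rw [zpow_zero, mul_one, Complex.ofReal_cpow (norm_nonneg _)]
  push_cast
  rfl

lemma Kz_meas2 (V u : ℝ) {δ : ℝ} (h1 : δ ≤ 1 / 16) : Measurable fun q : ℝ × ℝ => Kz V δ (q.1 + u) q.2 := by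
  have hm : Measurable fun q : ℝ × ℝ => ((q.1 + u, q.2) : ℝ × ℝ) :=
    (measurable_fst.add_const u).prodMk measurable_snd
  have h2 : Measurable ((fun q : ℝ × ℝ => Kz V δ q.1 q.2) ∘ fun q : ℝ × ℝ => ((q.1 + u, q.2) : ℝ × ℝ)) :=
    (Kz_meas V h1).comp hm
  exact h2

/-- the integrand -/
noncomputable def FF (k h : Fin (m + 1) → ℝ) (δ y t ξ : ℝ) : ℂ :=
  gm ξ * cexp (-(I * y * ξ)) * (Kz (k 0) δ (t + h 0) ξ * (Pp k h δ t : ℂ))

lemma FF_meas (k h : Fin (m + 1) → ℝ) {δ : ℝ} (y : ℝ) (h1 : δ ≤ 1 / 16) :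
    Measurable fun q : ℝ × ℝ => FF k h δ y q.1 q.2 := by
  have m1 : Measurable fun q : ℝ × ℝ => gm q.2 := gm_cont.measurable.comp measurable_snd
  have m2 : Measurable fun q : ℝ × ℝ => cexp (-(I * y * q.2)) := by fun_prop
  have m3 := Kz_meas2 (k 0) (h 0) h1
  have m4 : Measurable fun q : ℝ × ℝ => (Pp k h δ q.1 : ℂ) :=
    Complex.measurable_ofReal.comp ((Pp_meas k h h1).comp measurable_fst)
  unfold FF
  exact (m1.mul m2).mul (m3.mul m4)

/-- the local upper bound for joint moments -/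
theorem lt (m : ℕ) (R D : ℝ) (hR : 0 < R) (hD : 0 < D) : ∃ C : ℝ, 0 < C ∧ Ev fun X δ =>
    ∀ h : Fin (m + 1) → ℝ, (∀ j, |h j| ≤ X ^ ((1:ℝ) / 2)) →
    ∃ N : Set ℝ, MeasurableSet N ∧ N ⊆ Set.Icc 0 X ∧ volume (Set.Icc 0 X \ N) ≤ ENNReal.ofReal (δ ^ D * X) ∧
      (∀ t ∈ N, ∀ j, 0 < mz δ (t + h j)) ∧
      ∀ k : Fin (m + 1) → ℝ, (∀ j, |k j| ≤ R) → ∀ y : ℝ, ∃ H : ℝ → ℝ, IntegrableOn H N ∧
        (∀ t ∈ N, SM.G k h δ t * (1 + (Real.log (mz δ (t + h 0)) - y) ^ 2)⁻¹ ≤ H t) ∧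
        ∫ t in N, H t ≤ C * (X * (Real.exp (SM.Lr k h δ) / √(Real.log (1 / δ)))) := by
  have hpi := Real.pi_pos
  have hZ := LZB.main
  have hR1 : 0 < R + 1 := by linarith
  obtain ⟨c, C, hc, hC, hcC⟩ := posF (m + 1) (R + 1) hR1.le
  obtain ⟨C0, hC0, hC02⟩ := LZ_zero hZ
  set ε0 : ℝ := min 1 (c / 2) with hε0
  have hε0p : 0 < ε0 := lt_min one_pos (by positivity)
  set Ct : ℝ := (C + 1) * 6 * √(8 * Real.pi) with hCt
  have hCtp : 0 < Ct := by positivity
  have hlim : ∀ᶠ L : ℝ in atTop, 2 * C0 ≤ L := eventually_ge_atTop _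
  refine ⟨Ct, hCtp, ((jmF (m + 1) (R + 1) D hR1 hD ε0 hε0p).and (Ev.of_log hlim)).mono ?_⟩
  rintro X δ hX h0 h1 ⟨hj, hL2⟩ h hh
  obtain ⟨N, n1, n2, n3, n4, n5⟩ := hj h hh
  have hX0 : 0 < X := by linarith
  set L := Real.log (1 / δ) with hLd
  have hL1 : 1 ≤ L := log_inv_ge h0 h1
  set l0 := (LZ (1 + 2 * δ) 0).re with hl0d
  have hl0 : L / 2 ≤ l0 := by
    have := (abs_le.1 (hC02 δ h0 h1)).1
    rw [← hl0d, ← hLd] at this
    linarith
  have hl0p : 0 < l0 := by linarith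
  have hpos : ∀ t ∈ N, ∀ j, 0 < mz δ (t + h j) := fun t ht j => norm_pos_iff.2 (n4 t ht j)
  refine ⟨N, n1, n2, n3, hpos, fun k hk y => ?_⟩
  obtain ⟨hCu, hcl⟩ := hcC h
  obtain ⟨a, ha1, ha2⟩ := hcl k (fun j => (hk j).trans (by linarith))
  have ha0 : 0 < a := by linarith
  have hn : ∀ j, ‖((k j : ℝ) : ℂ)‖ ≤ R + 1 := by
    intro j
    rw [Complex.norm_real, Real.norm_eq_abs]
    exact (hk j).trans (by linarith)
  -- integrability
  have hGi : IntegrableOn (fun t => SM.G k h δ t) N := by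
    have hf := SM.real_form (k := k) (h := h) (δ := δ) (T := X) (a := a) (ε := ε0) (N := N) hX0 ha0.le ha2
      (n5 (SM.cc k) (fun _ => 0) hn (fun j => by simpa using hR1.le))
    by_contra hcon
    have h0 : ∫ t in N, SM.G k h δ t = 0 := integral_undef hcon
    rw [h0, mul_zero, zero_sub, abs_neg] at hf
    have h1 := le_abs_self (X * a)
    have h2 : ε0 ≤ c / 2 := min_le_right _ _
    nlinarith
  have hNf : volume N < ⊤ := (measure_mono n2).trans_lt (by rw [Real.volume_Icc]; exact ENNReal.ofReal_lt_top)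
  have hfin : IsFiniteMeasure (volume.restrict N) := ⟨by rw [Measure.restrict_apply_univ]; exact hNf⟩
  set F : ℝ → ℝ → ℂ := fun t ξ => FF k h δ y t ξ with hF
  have hen : ∀ ξ : ℝ, ‖cexp (-(I * y * ξ))‖ = 1 := by
    intro ξ
    rw [Complex.norm_exp]
    have : (-(I * (y : ℂ) * (ξ : ℂ))).re = 0 := by
      rw [Complex.neg_re, mul_assoc, Complex.I_mul_re, ← Complex.ofReal_mul, Complex.ofReal_im, neg_zero, neg_zero]
    rw [this, Real.exp_zero]
  have hgi : Integrable fun ξ => ‖gm ξ‖ := (gm_cont.integrable_of_hasCompactSupport gm_csupp).norm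
  have hfi : Integrable (Function.uncurry F) ((volume.restrict N).prod (volume : Measure ℝ)) := by
    have hb : Integrable (fun q : ℝ × ℝ => SM.G k h δ q.1 * ‖gm q.2‖) ((volume.restrict N).prod (volume : Measure ℝ)) :=
      Integrable.mul_prod hGi hgi
    refine hb.mono' ?_ ?_
    · exact (FF_meas k h y h1).aestronglyMeasurable
    · have hae := (Measure.quasiMeasurePreserving_fst (μ := volume.restrict N)
        (ν := (volume : Measure ℝ))).ae (ae_restrict_mem n1)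
      filter_upwards [hae] with q hq
      show ‖gm q.2 * cexp (-(I * y * q.2)) * (Kz (k 0) δ (q.1 + h 0) q.2 * (Pp k h δ q.1 : ℂ))‖ ≤ _
      rw [norm_mul, norm_mul, norm_mul, hen, Kz_norm (hpos _ hq 0), Complex.norm_real, Real.norm_of_nonneg (Pp_nn _ _ _ _),
        G_Pp]
      linarith
  refine ⟨fun t => (∫ ξ, F t ξ).re, (hfi.integral_prod_left).re, ?_, ?_⟩
  · intro t ht
    have e1 : ∫ ξ, F t ξ = ((SM.G k h δ t * km (Real.log (mz δ (t + h 0)) - y) : ℝ) : ℂ) := by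
      have e2 : ∀ ξ, F t ξ = (gm ξ * cexp (-(I * y * ξ)) * Kz (k 0) δ (t + h 0) ξ) * (Pp k h δ t : ℂ) := fun ξ => by
        show FF k h δ y t ξ = _
        unfold FF
        ring
      simp_rw [e2]
      rw [integral_mul_const, four' y (hpos t ht 0), gm_four, G_Pp]
      push_cast
      ring
    show _ ≤ (∫ ξ, F t ξ).re
    rw [e1, Complex.ofReal_re]
    exact mul_le_mul_of_nonneg_left (km_ge _) (SM.G_nn _ _ _ _)
  · have e1 : ∫ t in N, (∫ ξ, F t ξ).re = (∫ t in N, ∫ ξ, F t ξ).re := integral_re hfi.integral_prod_left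
    rw [e1, integral_integral_swap hfi]
    refine (Complex.re_le_norm _).trans ?_
    have hG := integrable_exp_neg_mul_sq (show 0 < l0 / 4 by positivity)
    have hbd : Integrable fun ξ : ℝ => (X * (C + 1) * 6 * Real.exp (SM.Lr k h δ)) * Real.exp (-(l0 / 4) * ξ ^ 2) :=
      hG.const_mul _
    refine (norm_integral_le_of_norm_le hbd (Eventually.of_forall fun ξ => ?_)).trans ?_
    · have e2 : ∫ t in N, F t ξ = gm ξ * cexp (-(I * y * ξ)) *
          ∫ t in N, ∏ j, ZZ (riemannZeta (pw δ (t + h j))) (be k ξ j) ((fun _ => 0 : Fin (m + 1) → ℤ) j) := by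
        rw [← integral_const_mul]
        refine integral_congr_ae (Eventually.of_forall fun t => ?_)
        have e3 := prod_be k h δ t ξ
        simp only at e3 ⊢
        rw [e3]
        rfl
      rw [e2, norm_mul, norm_mul, hen, mul_one]
      rcases lt_or_ge 2 |ξ| with h2 | h2
      · rw [gm_zero h2.le, norm_zero, zero_mul]
        positivity
      have hbn : ∀ j, ‖be k ξ j‖ ≤ R + 1 := be_norm hk h2
      have hj2 := n5 (be k ξ) (fun _ => 0) hbn (fun j => by simpa using hR1.le)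
      rw [SM.sp_zero, SM.sm_zero] at hj2
      set J := ∫ t in N, ∏ j, ZZ (riemannZeta (pw δ (t + h j))) (be k ξ j) ((fun _ => 0 : Fin (m + 1) → ℤ) j) with hJd
      set LL := LM (be k ξ) (be k ξ) h δ with hLL
      have hav : ‖aV (be k ξ) (be k ξ) h‖ ≤ C := hCu _ _ hbn hbn
      have h3 : ‖cexp (-LL) * J‖ ≤ X * (C + 1) := by
        have h4 := norm_sub_norm_le (cexp (-LL) * J) ((X:ℂ) * aV (be k ξ) (be k ξ) h)
        have h5 : ‖(X:ℂ) * aV (be k ξ) (be k ξ) h‖ ≤ X * C := by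
          rw [norm_mul, Complex.norm_real, Real.norm_of_nonneg hX0.le]
          exact mul_le_mul_of_nonneg_left hav hX0.le
        have h6 : ε0 * X ≤ 1 * X := mul_le_mul_of_nonneg_right (min_le_left _ _) hX0.le
        linarith
      have h4 : J = cexp LL * (cexp (-LL) * J) := by
        rw [← mul_assoc, ← Complex.exp_add, add_neg_cancel, Complex.exp_zero, one_mul]
      rw [h4, norm_mul, LM_be h0 k h ξ, ← hl0d]
      calc ‖gm ξ‖ * (Real.exp (SM.Lr k h δ) * Real.exp (-(l0 / 4) * ξ ^ 2) * ‖cexp (-LL) * J‖) ≤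
          6 * (Real.exp (SM.Lr k h δ) * Real.exp (-(l0 / 4) * ξ ^ 2) * (X * (C + 1))) :=
            mul_le_mul (gm_le ξ) (mul_le_mul_of_nonneg_left h3 (by positivity)) (by positivity) (by norm_num)
        _ = _ := by ring
    · rw [integral_const_mul, integral_gaussian]
      have h3 : √(Real.pi / (l0 / 4)) ≤ √(8 * Real.pi) / √L := by
        rw [← Real.sqrt_div (by positivity)]
        refine Real.sqrt_le_sqrt ?_
        rw [div_div_eq_mul_div, div_le_div_iff₀ hl0p (by linarith)]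
        nlinarith
      calc X * (C + 1) * 6 * Real.exp (SM.Lr k h δ) * √(Real.pi / (l0 / 4)) ≤
          X * (C + 1) * 6 * Real.exp (SM.Lr k h δ) * (√(8 * Real.pi) / √L) :=
            mul_le_mul_of_nonneg_left h3 (by positivity)
        _ = Ct * (X * (Real.exp (SM.Lr k h δ) / √L)) := by
            rw [hCt]
            ring

end Run7.h291.WG
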