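import Pool.Agent.Run7.h291.WG.G20

set_option autoImplicit false

/-! High values up to the edge: the law of large numbers -/

namespace Run7.h291.WG

open Finset Filter MeasureTheory Topology Complex
open Pool.Agent.N748.MG Pool.Agent.N748.MJ Run7.h291.WN Run7.h291.WL Run7.h651.WN

/-- the mean of the integrals over windows -/
lemma wmean {f : ℝ → ℝ} (hf : Continuous f) (h0 : ∀ u, 0 ≤ f u) {Mb H X : ℝ} (hM : ∀ u, f u ≤ Mb) (hH : 0 < H) (hX : 0 ≤ X) :
    ∫ t in (0:ℝ)..X, (∫ u in t..(t + H), f u) ≤ H * ((∫ s in (0:ℝ)..X, f s) + H * Mb) := by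
  have hi : ∀ a b : ℝ, IntervalIntegrable f volume a b := fun a b => hf.intervalIntegrable a b
  have hint : ∫ s in (0:ℝ)..(X + H), f s ≤ (∫ s in (0:ℝ)..X, f s) + H * Mb := by
    rw [← intervalIntegral.integral_add_adjacent_intervals (hi 0 X) (hi X (X + H))]
    have g2 := intervalIntegral.integral_mono_on (μ := volume) (by linarith : X ≤ X + H) (hi _ _)
      (by simp : IntervalIntegrable (fun _ : ℝ => Mb) volume X (X + H)) fun u _ => hM u
    rw [intervalIntegral.integral_const, smul_eq_mul, add_sub_cancel_left] at g2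
    linarith
  have e1 : ∀ t : ℝ, ∫ u in t..(t + H), f u = ∫ x in (0:ℝ)..H, f (t + x) := fun t => by
    rw [intervalIntegral.integral_comp_add_left, add_zero]
  simp_rw [e1]
  rw [swap_c (F := fun t x => f (t + x)) (hf.comp (by fun_prop))]
  have e2 : ∀ x ∈ Set.Icc 0 H, ∫ t in (0:ℝ)..X, f (t + x) ≤ ∫ s in (0:ℝ)..(X + H), f s := by
    intro x hx
    rw [intervalIntegral.integral_comp_add_right, zero_add]
    have e3 : ∫ s in (0:ℝ)..(X + H), f s = (∫ s in (0:ℝ)..x, f s) + (∫ s in x..(X + x), f s) + ∫ s in (X + x)..(X + H), f s := by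
      rw [intervalIntegral.integral_add_adjacent_intervals (hi _ _) (hi _ _),
        intervalIntegral.integral_add_adjacent_intervals (hi _ _) (hi _ _)]
    rw [e3]
    have i1 : 0 ≤ ∫ s in (0:ℝ)..x, f s := intervalIntegral.integral_nonneg hx.1 fun u _ => h0 _
    have i2 : 0 ≤ ∫ s in (X + x)..(X + H), f s := intervalIntegral.integral_nonneg (by linarith [hx.2]) fun u _ => h0 _
    linarith
  have hc : Continuous fun x : ℝ => ∫ t in (0:ℝ)..X, f (t + x) := by
    refine intervalIntegral.continuous_parametric_intervalIntegral_of_continuous (f := fun x t =>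
      f (t + x)) ?_ continuous_const
    exact hf.comp (by fun_prop)
  have e4 := intervalIntegral.integral_mono_on (μ := volume) hH.le (hc.intervalIntegrable _ _)
    (by simp : IntervalIntegrable (fun _ : ℝ => ∫ s in (0:ℝ)..(X + H), f s) volume 0 H) e2
  rw [intervalIntegral.integral_const, smul_eq_mul, sub_zero] at e4
  exact e4.trans (mul_le_mul_of_nonneg_left hint hH.le)

/-- the law of large numbers below the edge -/
theorem lln : S_LLN := by
  intro V hV g A M hg ε hε
  have hV0 : 0 < V := by linarith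
  have hgi : Integrable g := hg.cont.integrable_of_hasCompactSupport
    (HasCompactSupport.intro (isCompact_Icc (a := -A) (b := A)) fun x hx => hg.supp x (by
      by_contra hc
      push Not at hc
      exact hx ⟨(abs_lt.1 hc).1.le, (abs_lt.1 hc).2.le⟩))
  have hgn : (0 : ℝ → ℝ) ≤ g := fun x => hg.nn x
  rcases (integral_nonneg (μ := volume) hgn).eq_or_lt with hI | hI
  · -- the zero function
    have h1 : g =ᵐ[volume] 0 := (integral_eq_zero_iff_of_nonneg hgn hgi).1 hI.symm
    have h2 : g = 0 := (Continuous.ae_eq_iff_eq volume hg.cont continuous_zero).1 h1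
    refine ⟨0, (Ev.of_log (P := fun _ => True) (Filter.Eventually.of_forall fun _ => trivial)).mono ?_⟩
    intro X δ hX1 h0 h1' _ a _ _
    have h3 : {t : ℝ | 0 ≤ t ∧ t ≤ X ∧
        ε < |Av (δ ^ (-(V ^ 2 - 1))) (fun u => FS V g δ (lev V δ + a) u) t - ∫ x, g x|} = ∅ := by
      rw [Set.eq_empty_iff_forall_notMem]
      rintro t ⟨-, -, h4⟩
      rw [← hI] at h4
      have h5 : Av (δ ^ (-(V ^ 2 - 1))) (fun u => FS V g δ (lev V δ + a) u) t = 0 := by
        unfold Av FS
        rw [h2]
        simp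
      rw [h5, sub_zero, abs_zero] at h4
      linarith
    rw [h3, measure_empty]
    exact bot_le
  set I : ℝ := ∫ x, g x with hId
  have hg' : TF (fun x => g x / I) A (M / I) := ⟨hg.cont.div_const I, fun x => div_nonneg (hg.nn x) hI.le,
    fun x => div_le_div_of_nonneg_right (hg.le x) hI.le, fun x hx => by
      show g x / I = 0
      rw [hg.supp x hx, zero_div], hg.A1, div_nonneg hg.M0 hI.le⟩
  have hg1 : ∫ x, (fun x => g x / I) x = 1 := by
    show ∫ x, g x / I = 1
    rw [integral_div, ← hId, div_self hI.ne']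
  obtain ⟨n, η, H⟩ := swin3 (Run7.h42.WN.mnb Run7.h772.zml) flo far hV hg' hg1
  set r : ℝ := ε / (2 * I) with hr
  have hr0 : 0 < r := by positivity
  set ε1 : ℝ := min (r ^ 2 * (ε / 2)) (r * (ε / 4)) with hε1
  have hε10 : 0 < ε1 := lt_min (by positivity) (by positivity)
  obtain ⟨K, a0, HE⟩ := H ε1 hε10
  set θ : ℝ := V ^ 2 - 1 with hθ
  have hθ0 : 0 < θ := by
    rw [hθ]
    nlinarith
  set W : ℝ := WW V with hW
  refine ⟨a0, (((HE.and (lev_le3 V a0 hV0)).and (FS_bd hV0 hg')).and
    (Ev.win (D := θ + W) (c := ε1) (e := 1) hε10 one_pos)).mono ?_⟩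
  rintro X δ hX1 h0 h1 ⟨⟨⟨HE, Hl⟩, HB⟩, w⟩ a haa haL
  rw [Real.rpow_one] at w
  have hX0 : 0 < X := by linarith
  obtain ⟨m1, m2⟩ := HE a haa haL
  obtain ⟨l1, -⟩ := Hl a haa haL
  set y : ℝ := lev V δ + a with hy
  set Hh : ℝ := δ ^ (-θ) with hH
  have hH0 : 0 < Hh := Real.rpow_pos_of_pos h0 _
  set G : ℝ → ℝ := fun x => g x / I with hG
  set F : ℝ → ℝ := fun t => FS V G δ y t with hF
  set B : ℝ → ℝ := fun t => BB n V η K δ y t with hB
  have hFc : Continuous F :=
    FS_cont hV0 hg'.cont (B := -A) (fun x hx => hg'.supp x (by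
      have hA := hg.A1
      rw [abs_of_nonpos (by linarith)]
      linarith)) h1 y
  have hBc : Continuous B := BB_cont h1
  have hF0 : ∀ t, 0 ≤ F t := fun t => FS_nn hg'.nn h0.le _ t
  have hQc : Continuous fun t => F t * (1 - B t) := hFc.mul (continuous_const.sub hBc)
  have hQ0 : ∀ t, 0 ≤ F t * (1 - B t) := fun t => mul_nonneg (hF0 t) (by
    have := @BB_le n V η K δ y t
    linarith)
  have hQM : ∀ t, F t * (1 - B t) ≤ δ ^ (-W) := fun t => by
    refine (mul_le_of_le_one_right (hF0 t) ?_).trans (HB y t l1)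
    have := @BB_nn n V η K δ y t
    linarith
  have hfc : Continuous fun t => F t * B t := hFc.mul hBc
  -- first set
  have M1 := markov (g := fun t => (1 / r ^ 2) * (Av Hh (fG G n V η K a δ) t - 1) ^ 2) (by
      have h2 : Continuous (fG G n V η K a δ) := hfc
      have h3 := Av_cont (l := Hh) h2
      fun_prop) (fun t => by positivity) hX0.le (e := ε / 2 * X) (by
      rw [intervalIntegral.integral_const_mul]
      have h2 : 1 / r ^ 2 * (∫ t in (0:ℝ)..X, (Av Hh (fG G n V η K a δ) t - 1) ^ 2) ≤ 1 / r ^ 2 * (ε1 * X) :=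
        mul_le_mul_of_nonneg_left m1 (by positivity)
      refine h2.trans ?_
      have h3 : ε1 ≤ r ^ 2 * (ε / 2) := min_le_left _ _
      calc 1 / r ^ 2 * (ε1 * X) ≤ 1 / r ^ 2 * (r ^ 2 * (ε / 2) * X) := by gcongr
        _ = ε / 2 * X := by field_simp)
  -- second set
  have M2 := markov (g := fun t => (1 / r) * Av Hh (fun u => F u * (1 - B u)) t) (by
      have h3 := Av_cont (l := Hh) hQc
      fun_prop) (fun t => by
        refine mul_nonneg (by positivity) ?_
        unfold Av
        exact mul_nonneg (by positivity) (intervalIntegral.integral_nonneg hH0.le fun u _ => hQ0 _)) hX0.le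
      (e := ε / 2 * X) (by
      rw [intervalIntegral.integral_const_mul]
      have h2 := wmean hQc hQ0 hQM hH0 hX0.le
      have h3 : ∫ t in (0:ℝ)..X, Av Hh (fun u => F u * (1 - B u)) t =
          (1 / Hh) * ∫ t in (0:ℝ)..X, (∫ u in t..(t + Hh), F u * (1 - B u)) := by
        rw [← intervalIntegral.integral_const_mul]
        refine intervalIntegral.integral_congr fun t _ => ?_
        show Av Hh (fun u => F u * (1 - B u)) t = _
        unfold Av
        rw [intervalIntegral.integral_comp_add_left (fun u => F u * (1 - B u)), add_zero]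
      rw [h3]
      have h4 : (1 / Hh) * (∫ t in (0:ℝ)..X, (∫ u in t..(t + Hh), F u * (1 - B u))) ≤
          (∫ s in (0:ℝ)..X, F s * (1 - B s)) + Hh * δ ^ (-W) := by
        calc (1 / Hh) * (∫ t in (0:ℝ)..X, (∫ u in t..(t + Hh), F u * (1 - B u))) ≤
            (1 / Hh) * (Hh * ((∫ s in (0:ℝ)..X, F s * (1 - B s)) + Hh * δ ^ (-W))) :=
              mul_le_mul_of_nonneg_left h2 (by positivity)
          _ = _ := by field_simp
      have h5 : Hh * δ ^ (-W) ≤ ε1 * X := by
        refine le_trans (le_of_eq ?_) w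
        rw [hH, ← Real.rpow_add h0]
        congr 1
        ring
      have h6 : ∫ s in (0:ℝ)..X, F s * (1 - B s) ≤ ε1 * X := m2
      have h7 : ε1 ≤ r * (ε / 4) := min_le_right _ _
      calc 1 / r * ((1 / Hh) * ∫ t in (0:ℝ)..X, (∫ u in t..(t + Hh), F u * (1 - B u))) ≤ 1 / r * (2 * ε1 * X) :=
            mul_le_mul_of_nonneg_left (by linarith) (by positivity)
        _ ≤ 1 / r * (2 * (r * (ε / 4)) * X) := by gcongr
        _ = ε / 2 * X := by
            field_simp
            ring)
  have hsub : {t : ℝ | 0 ≤ t ∧ t ≤ X ∧ ε < |Av Hh (fun u => FS V g δ y u) t - I|} ⊆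
      {t | 0 ≤ t ∧ t ≤ X ∧ 1 < (1 / r ^ 2) * (Av Hh (fG G n V η K a δ) t - 1) ^ 2} ∪
      {t | 0 ≤ t ∧ t ≤ X ∧ 1 < (1 / r) * Av Hh (fun u => F u * (1 - B u)) t} := by
    rintro t ⟨t1, t2, t3⟩
    by_contra hc
    have c1 : (1 / r ^ 2) * (Av Hh (fG G n V η K a δ) t - 1) ^ 2 ≤ 1 := by
      by_contra h2
      push Not at h2
      exact hc (Or.inl ⟨t1, t2, h2⟩)
    have c2 : (1 / r) * Av Hh (fun u => F u * (1 - B u)) t ≤ 1 := by
      by_contra h2
      push Not at h2
      exact hc (Or.inr ⟨t1, t2, h2⟩)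
    have c3 : |Av Hh (fG G n V η K a δ) t - 1| ≤ r := by
      rw [one_div, inv_mul_le_iff₀ (by positivity), mul_one] at c1
      exact abs_le_of_sq_le_sq c1 hr0.le |> fun h => h
    have c4 : Av Hh (fun u => F u * (1 - B u)) t ≤ r := by
      rwa [one_div, inv_mul_le_iff₀ hr0, mul_one] at c2
    have c5 : 0 ≤ Av Hh (fun u => F u * (1 - B u)) t := by
      unfold Av
      exact mul_nonneg (by positivity) (intervalIntegral.integral_nonneg hH0.le fun u _ => hQ0 _)
    have c6 : Av Hh (fun u => FS V g δ y u) t = I * (Av Hh (fG G n V η K a δ) t + Av Hh (fun u => F u * (1 - B u)) t) := by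
      unfold Av
      rw [← mul_add, ← intervalIntegral.integral_add]
      · rw [mul_left_comm, ← intervalIntegral.integral_const_mul I]
        congr 1
        refine intervalIntegral.integral_congr fun x _ => ?_
        show FS V g δ y (t + x) = I * (FS V G δ y (t + x) * BB n V η K δ y (t + x) +
          FS V G δ y (t + x) * (1 - BB n V η K δ y (t + x)))
        have h2 : FS V g δ y (t + x) = I * FS V G δ y (t + x) := by
          unfold FS
          rw [hG]
          field_simp
        rw [h2]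
        ring
      · exact (hfc.comp (by fun_prop)).intervalIntegrable _ _
      · exact (hQc.comp (by fun_prop)).intervalIntegrable _ _
    rw [c6] at t3
    have c7 : I * (Av Hh (fG G n V η K a δ) t + Av Hh (fun u => F u * (1 - B u)) t) - I =
        I * ((Av Hh (fG G n V η K a δ) t - 1) + Av Hh (fun u => F u * (1 - B u)) t) := by ring
    rw [c7, abs_mul, abs_of_pos hI] at t3
    have c8 : |(Av Hh (fG G n V η K a δ) t - 1) + Av Hh (fun u => F u * (1 - B u)) t| ≤ 2 * r := by
      refine (abs_add_le _ _).trans ?_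
      rw [abs_of_nonneg c5]
      linarith
    have c9 : I * |(Av Hh (fG G n V η K a δ) t - 1) + Av Hh (fun u => F u * (1 - B u)) t| ≤ ε := by
      refine (mul_le_mul_of_nonneg_left c8 hI.le).trans (le_of_eq ?_)
      rw [hr]
      field_simp
    linarith
  refine (measure_mono hsub).trans ((measure_union_le _ _).trans ?_)
  have hsum : ε * X = ε / 2 * X + ε / 2 * X := by ring
  rw [hsum, ENNReal.ofReal_add (by positivity) (by positivity)]
  exact add_le_add M1 M2

end Run7.h291.WG
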