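import Pool.Agent.Run7.h291.WG.Stm3

set_option autoImplicit false

/-! High values up to the edge: the normalisation -/

namespace Run7.h291.WG

open Finset Filter MeasureTheory Topology Complex
open Pool.Agent.N748.MG Pool.Agent.N748.MJ Run7.h291.WN Run7.h291.WL Run7.h651.WN

/-- the factor of the local weight -/
noncomputable def cc (V δ : ℝ) : ℝ := akR V / (WL.sq δ * (2 * δ) ^ (V ^ 2))

lemma log2_ge {δ : ℝ} (h0 : 0 < δ) (h1 : δ ≤ 1 / 16) : 1 ≤ Real.log (1 / (2 * δ)) := by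
  rw [Real.le_log_iff_exp_le (by positivity)]
  have h2 := Real.exp_one_lt_d9
  rw [le_div_iff₀ (by linarith)]
  nlinarith

lemma sq_pos {δ : ℝ} (h0 : 0 < δ) (h1 : δ ≤ 1 / 16) : 0 < WL.sq δ := by
  have h2 := log2_ge h0 h1
  have := Real.pi_pos
  exact Real.sqrt_pos.2 (by positivity)

lemma cc_pos (V : ℝ) {δ : ℝ} (h0 : 0 < δ) (h1 : δ ≤ 1 / 16) : 0 < cc V δ := by
  have := sq_pos h0 h1
  have := akp V
  unfold cc
  positivity

lemma FS_eq {V : ℝ} {g : ℝ → ℝ} {δ y u : ℝ} (h0 : 0 < δ) (h1 : δ ≤ 1 / 16) :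
    cc V δ * FS V g δ y u = g (Real.log (mz δ u) - y) * mz δ u ^ (2 * V) := by
  have h2 := sq_pos h0 h1
  have h3 := akp V
  have h4 : 0 < (2 * δ) ^ (V ^ 2) := Real.rpow_pos_of_pos (by linarith) _
  unfold cc FS Zk
  field_simp

/-- the weighted power -/
lemma FS_pow {V k : ℝ} (hV : 0 < V) (hk : 0 ≤ k) {h : ℝ → ℝ} {δ y u : ℝ} (h0 : 0 < δ) (h1 : δ ≤ 1 / 16) (hm : 0 < mz δ u) :
    cc V δ * Real.exp (2 * (k - V) * y) * FS V (fun x => Real.exp (2 * (k - V) * x) * h x) δ y u =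
      h (Real.log (mz δ u) - y) * mz δ u ^ (2 * k) := by
  have h2 := FS_eq (V := V) (g := fun x => Real.exp (2 * (k - V) * x) * h x) (y := y) (u := u) h0 h1
  have h3 : Real.exp (2 * (k - V) * y) * Real.exp (2 * (k - V) * (Real.log (mz δ u) - y)) * mz δ u ^ (2 * V) =
      mz δ u ^ (2 * k) := by
    rw [← Real.exp_add, Real.rpow_def_of_pos hm, Real.rpow_def_of_pos hm, ← Real.exp_add]
    congr 1
    ring
  calc cc V δ * Real.exp (2 * (k - V) * y) * FS V (fun x => Real.exp (2 * (k - V) * x) * h x) δ y u =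
      Real.exp (2 * (k - V) * y) * (cc V δ * FS V (fun x => Real.exp (2 * (k - V) * x) * h x) δ y u) := by ring
    _ = Real.exp (2 * (k - V) * y) * ((Real.exp (2 * (k - V) * (Real.log (mz δ u) - y)) * h (Real.log (mz δ u) - y)) *
        mz δ u ^ (2 * V)) := by rw [h2]
    _ = h (Real.log (mz δ u) - y) * (Real.exp (2 * (k - V) * y) * Real.exp (2 * (k - V) * (Real.log (mz δ u) - y)) *
        mz δ u ^ (2 * V)) := by ring
    _ = _ := by rw [h3]

/-- the ratio of the two normalisations of the logarithm -/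
noncomputable def rho (δ : ℝ) : ℝ := √Real.pi * √(Real.log (1 / δ)) / WL.sq δ

lemma norm_eq {V k a δ : ℝ} (hV : 0 < V) (h0 : 0 < δ) (h1 : δ ≤ 1 / 16) :
    cc V δ * Real.exp (2 * (k - V) * (lev V δ + a)) * δ ^ (-(V ^ 2 - 1)) =
      rho δ * cV V * (δ * Real.exp (2 * k * (lev V δ + a)) * Real.exp (-(2 * V * a))) := by
  have h2 := sq_pos h0 h1
  have h3 := akp V
  have hpi := Real.pi_pos
  have hL : 0 < Real.log (1 / δ) := lt_of_lt_of_le one_pos (log_inv_ge h0 h1)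
  have hs : 0 < √(Real.log (1 / δ)) := Real.sqrt_pos.2 hL
  have hG := lev_G (V := V) (a := a) hV h0 h1
  set y : ℝ := lev V δ + a with hy
  set P : ℝ := δ ^ (V ^ 2) with hP
  have hP0 : 0 < P := Real.rpow_pos_of_pos h0 _
  have e1 : δ ^ (-(V ^ 2)) = P⁻¹ := Real.rpow_neg h0.le _
  have e2 : δ ^ (-(V ^ 2 - 1)) = P⁻¹ * δ := by
    have : -(V ^ 2 - 1) = -(V ^ 2) + 1 := by ring
    rw [this, Real.rpow_add h0, Real.rpow_one, e1]
  have e3 : (2 * δ) ^ (V ^ 2) = 2 ^ (V ^ 2) * P := Real.mul_rpow (by norm_num) h0.le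
  have e4 : Real.exp (2 * (k - V) * y) = Real.exp (2 * k * y) * (Real.exp (2 * V * y))⁻¹ := by
    rw [← Real.exp_neg, ← Real.exp_add]
    congr 1
    ring
  have e5 : Real.exp (-(2 * V * a)) = (Real.exp (2 * V * a))⁻¹ := Real.exp_neg _
  rw [e1] at hG
  have hE : 0 < Real.exp (2 * V * y) := Real.exp_pos _
  have hA : 0 < Real.exp (2 * V * a) := Real.exp_pos _
  have e6 : (Real.exp (2 * V * y))⁻¹ = √(Real.log (1 / δ)) * P * P * (Real.exp (2 * V * a))⁻¹ := by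
    rw [inv_eq_iff_eq_inv, mul_inv, inv_inv]
    have : Real.exp (2 * V * a) = √(Real.log (1 / δ)) * Real.exp (2 * V * y) * P * P := by
      rw [hG]
      field_simp
    rw [this]
    field_simp
  rw [e2, e4, e5, e6]
  unfold cc rho cV
  rw [e3]
  have h2' : (0:ℝ) < 2 ^ (V ^ 2) := by positivity
  have hsp : 0 < √Real.pi := Real.sqrt_pos.2 hpi
  field_simp

lemma rho_ge {δ : ℝ} (h0 : 0 < δ) (h1 : δ ≤ 1 / 16) : 1 ≤ rho δ := by
  have h2 := sq_pos h0 h1
  unfold rho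
  rw [one_le_div h2]
  unfold WL.sq
  have hpi := Real.pi_pos
  rw [← Real.sqrt_mul hpi.le]
  refine Real.sqrt_le_sqrt (mul_le_mul_of_nonneg_left ?_ hpi.le)
  refine Real.log_le_log (by positivity) ?_
  exact div_le_div_of_nonneg_left zero_le_one h0 (by linarith)

lemma rho_le {ε : ℝ} (hε : 0 < ε) : Ev fun _ δ => rho δ ≤ 1 + ε := by
  have h2 : ∀ᶠ L : ℝ in atTop, 2 ≤ L ∧ 2 ≤ L * ε := by
    have h3 := (tendsto_id (α := ℝ) (x := atTop)).eventually_ge_atTop (2 / ε)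
    filter_upwards [h3, eventually_ge_atTop 2] with L g1 g2
    refine ⟨g2, ?_⟩
    rw [id, div_le_iff₀ hε] at g1
    exact g1
  refine (Ev.of_log h2).mono ?_
  rintro X δ _ h0 h1 ⟨g1, g2⟩
  have h3 := sq_pos h0 h1
  unfold rho
  rw [div_le_iff₀ h3]
  unfold WL.sq
  have hpi := Real.pi_pos
  rw [← Real.sqrt_mul hpi.le]
  have hl : Real.log (1 / (2 * δ)) = Real.log (1 / δ) - Real.log 2 := by
    rw [one_div, mul_inv, Real.log_mul (by norm_num) (by positivity), Real.log_inv, ← one_div]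
    ring
  have hl2 : Real.log 2 ≤ 1 := by
    have := Real.log_two_lt_d9
    linarith
  refine Real.sqrt_le_iff.2 ⟨by positivity, ?_⟩
  rw [mul_pow, Real.sq_sqrt (by
    have := log2_ge h0 h1
    positivity), hl]
  have h5 : Real.log (1 / δ) ≤ (1 + ε) ^ 2 * (Real.log (1 / δ) - Real.log 2) := by
    have h6 : 1 + 2 * ε ≤ (1 + ε) ^ 2 := by nlinarith
    have h7 : 0 ≤ Real.log (1 / δ) - Real.log 2 := by linarith
    have h8 := mul_le_mul_of_nonneg_right h6 h7
    refine le_trans ?_ h8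
    nlinarith
  calc Real.pi * Real.log (1 / δ) ≤ Real.pi * ((1 + ε) ^ 2 * (Real.log (1 / δ) - Real.log 2)) :=
        mul_le_mul_of_nonneg_left h5 hpi.le
    _ = _ := by ring

end Run7.h291.WG
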