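import Pool.Agent.Run7.h291.WG.G21
import Pool.Agent.Run7.h291.WG.G22

set_option autoImplicit false

/-! High values up to the edge: the values below a level -/

namespace Run7.h291.WG

open Finset Filter MeasureTheory Topology Complex
open Pool.Agent.N748.MG Pool.Agent.N748.MJ Run7.h291.WN Run7.h291.WL Run7.h651.WN

/-- a bump which is `1` on `[-1, 1]` -/
noncomputable def bump (x : ℝ) : ℝ := max 0 (min 1 (2 - |x|))

lemma bump_TF : TF bump 2 1 := by
  refine ⟨by unfold bump; fun_prop, fun x => le_max_left _ _, fun x => max_le zero_le_one (min_le_left _ _), fun x hx => ?_,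
    one_le_two, zero_le_one⟩
  unfold bump
  exact max_eq_left ((min_le_right _ _).trans (by linarith))

lemma bump_one {x : ℝ} (h : |x| ≤ 1) : bump x = 1 := by
  unfold bump
  rw [min_eq_left (by linarith), max_eq_right zero_le_one]

/-- the majorant of the small values -/
noncomputable def low (V k δ y : ℝ) (J : ℕ) (u : ℝ) : ℝ :=
  ∑ j ∈ Finset.range (J + 1), cc V δ * Real.exp (2 * (k - V) * (y - j)) * FS V bump δ (y - j - 1) u +
    Real.exp (2 * k * (y - J))

lemma FSb_cont {V : ℝ} (hV : 0 < V) {g : ℝ → ℝ} {A M : ℝ} (hg : TF g A M) {δ : ℝ} (h1 : δ ≤ 1 / 16) (y : ℝ) :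
    Continuous fun t => FS V g δ y t :=
  FS_cont hV hg.cont (B := -A) (fun x hx => hg.supp x (by
    have hA := hg.A1
    rw [abs_of_nonpos (by linarith)]
    linarith)) h1 y

lemma low_cont {V k δ y : ℝ} (hV : 0 < V) (h1 : δ ≤ 1 / 16) (J : ℕ) : Continuous (low V k δ y J) := by
  unfold low
  exact (continuous_finsetSum _ fun j _ => continuous_const.mul (FSb_cont hV bump_TF h1 _)).add continuous_const

lemma low_nn {V k δ y : ℝ} (h0 : 0 < δ) (h1 : δ ≤ 1 / 16) (J : ℕ) (u : ℝ) : 0 ≤ low V k δ y J u := by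
  have hc := (cc_pos V h0 h1).le
  unfold low
  refine add_nonneg (Finset.sum_nonneg fun j _ => mul_nonneg (mul_nonneg hc (Real.exp_pos _).le)
    (FS_nn bump_TF.nn h0.le _ _)) (Real.exp_pos _).le

lemma low_pt {V k δ y : ℝ} (hV : 0 < V) (hk : V < k) (h0 : 0 < δ) (h1 : δ ≤ 1 / 16) (J : ℕ) {u : ℝ}
    (hu : mz δ u < Real.exp y) : mz δ u ^ (2 * k) ≤ low V k δ y J u := by
  have hk0 : 0 < k := by linarith
  have hc := (cc_pos V h0 h1).le
  have hm0 : 0 ≤ mz δ u := TMA.mz_nn _ _
  have hterm : ∀ j : ℕ, 0 ≤ cc V δ * Real.exp (2 * (k - V) * (y - j)) * FS V bump δ (y - j - 1) u := fun j =>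
    mul_nonneg (mul_nonneg hc (Real.exp_pos _).le) (FS_nn bump_TF.nn h0.le _ _)
  rcases le_or_gt (mz δ u) (Real.exp (y - J)) with h2 | h2
  · unfold low
    have h3 : mz δ u ^ (2 * k) ≤ Real.exp (2 * k * (y - J)) := by
      have h4 := Real.rpow_le_rpow hm0 h2 (show 0 ≤ 2 * k by linarith)
      rwa [← Real.exp_mul, mul_comm (y - (J:ℝ))] at h4
    have h5 := Finset.sum_nonneg fun j (_ : j ∈ Finset.range (J + 1)) => hterm j
    linarith
  · have hm : 0 < mz δ u := (Real.exp_pos _).trans h2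
    set z : ℝ := y - Real.log (mz δ u) with hz
    have hz0 : 0 < z := by
      have := (Real.log_lt_iff_lt_exp hm).2 hu
      linarith
    have hzJ : z < J := by
      have := (Real.lt_log_iff_exp_lt hm).2 h2
      linarith
    set j : ℕ := ⌊z⌋₊ with hj
    have hj1 : (j:ℝ) ≤ z := Nat.floor_le hz0.le
    have hj2 : z < j + 1 := Nat.lt_floor_add_one z
    have hjJ : j < J + 1 := by
      have : (j:ℝ) < J := lt_of_le_of_lt hj1 hzJ
      have h3 : j < J := by exact_mod_cast this
      omega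
    have h3 : cc V δ * FS V bump δ (y - j - 1) u = mz δ u ^ (2 * V) := by
      rw [FS_eq h0 h1, bump_one, one_mul]
      rw [abs_le]
      constructor <;> linarith
    have h4 : mz δ u ^ (2 * k) ≤ Real.exp (2 * (k - V) * (y - j)) * mz δ u ^ (2 * V) := by
      rw [Real.rpow_def_of_pos hm, Real.rpow_def_of_pos hm, ← Real.exp_add]
      refine Real.exp_le_exp.2 ?_
      have h5 : Real.log (mz δ u) ≤ y - j := by linarith
      nlinarith
    have h6 := Finset.single_le_sum (f := fun j : ℕ => cc V δ * Real.exp (2 * (k - V) * (y - j)) * FS V bump δ (y - j - 1) u)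
      (fun j _ => hterm j) (Finset.mem_range.2 hjJ)
    have h7 : cc V δ * Real.exp (2 * (k - V) * (y - j)) * FS V bump δ (y - j - 1) u =
        Real.exp (2 * (k - V) * (y - j)) * mz δ u ^ (2 * V) := by
      rw [← h3]
      ring
    unfold low
    have h8 : 0 < Real.exp (2 * k * (y - J)) := Real.exp_pos _
    rw [h7] at h6
    linarith

/-- the mean of the majorant over windows -/
theorem low_mean {V k : ℝ} (hV : 1 < V) (hk : V < k) : ∃ C : ℝ, 0 < C ∧ Ev fun X δ => ∀ y : ℝ, ∀ J : ℕ,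
    y ≤ (V + 1) * Real.log (1 / δ) →
    ∫ t in (0:ℝ)..X, (∫ u in t..(t + δ ^ (-(V ^ 2 - 1))), low V k δ y J u) ≤
      δ ^ (-(V ^ 2 - 1)) * (C * (cc V δ * Real.exp (2 * (k - V) * y)) + 2 * Real.exp (2 * k * (y - J))) * X := by
  have hV0 : 0 < V := by linarith
  obtain ⟨C5, hC5, E5⟩ := fst_up hV0 bump_TF
  set θ : ℝ := V ^ 2 - 1 with hθ
  have hθ0 : 0 < θ := by
    rw [hθ]
    nlinarith
  set W : ℝ := WW V with hW
  have hW0 : 0 < W := by
    rw [hW]
    unfold WW
    positivity
  set q : ℝ := Real.exp (-(2 * (k - V))) with hq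
  have hq0 : 0 < q := Real.exp_pos _
  have hq1 : q < 1 := by
    rw [hq]
    have h3 := Real.exp_lt_exp.2 (show -(2 * (k - V)) < 0 by linarith)
    rwa [Real.exp_zero] at h3
  have hiq : 0 < (1 - q)⁻¹ := inv_pos.2 (by linarith)
  refine ⟨(C5 + 1) * (1 - q)⁻¹, by positivity, (((E5.and (FS_bd hV0 bump_TF)).and
    (Ev.win (D := θ + W) (c := 1) (e := 1) one_pos one_pos)).and
    (Ev.win (D := θ) (c := 1) (e := 1) one_pos one_pos)).mono ?_⟩
  rintro X δ hX1 h0 h1 ⟨⟨⟨E5, EB⟩, w1⟩, w2⟩ y J hy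
  rw [Real.rpow_one, one_mul] at w1 w2
  have hX0 : 0 < X := by linarith
  set H : ℝ := δ ^ (-θ) with hH
  have hH0 : 0 < H := Real.rpow_pos_of_pos h0 _
  have hc0 := cc_pos V h0 h1
  set co : ℕ → ℝ := fun j => cc V δ * Real.exp (2 * (k - V) * (y - j)) with hco
  have hco0 : ∀ j, 0 ≤ co j := fun j => mul_nonneg hc0.le (Real.exp_pos _).le
  set S : ℝ := ∑ j ∈ Finset.range (J + 1), co j with hS
  have hS0 : 0 ≤ S := Finset.sum_nonneg fun j _ => hco0 j
  set T : ℝ := Real.exp (2 * k * (y - J)) with hT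
  have hT0 : 0 < T := Real.exp_pos _
  have hyj : ∀ j : ℕ, y - j - 1 ≤ (V + 1) * Real.log (1 / δ) := fun j => by
    have : (0:ℝ) ≤ j := Nat.cast_nonneg j
    linarith
  have hSle : S ≤ cc V δ * Real.exp (2 * (k - V) * y) * (1 - q)⁻¹ := by
    have g1 : ∀ j : ℕ, co j = cc V δ * Real.exp (2 * (k - V) * y) * q ^ j := fun j => by
      have g2 : Real.exp (2 * (k - V) * (y - j)) = Real.exp (2 * (k - V) * y) * q ^ j := by
        rw [hq, ← Real.exp_nat_mul, ← Real.exp_add]
        congr 1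
        ring
      show cc V δ * Real.exp (2 * (k - V) * (y - j)) = _
      rw [g2]
      ring
    rw [hS, Finset.sum_congr rfl fun j _ => g1 j, ← Finset.mul_sum]
    refine mul_le_mul_of_nonneg_left ?_ (by positivity)
    have h2 := geom_sum_eq hq1.ne (J + 1)
    rw [h2, ← neg_div_neg_eq, neg_sub, neg_sub, div_eq_mul_inv]
    refine mul_le_of_le_one_left (inv_nonneg.2 (by linarith)) ?_
    have : 0 < q ^ (J + 1) := by positivity
    linarith
  have hlM : ∀ u, low V k δ y J u ≤ S * δ ^ (-W) + T := fun u => by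
    unfold low
    rw [hS, Finset.sum_mul]
    refine add_le_add (Finset.sum_le_sum fun j _ => ?_) le_rfl
    exact mul_le_mul_of_nonneg_left (EB _ _ (hyj j)) (hco0 j)
  have hm := wmean (low_cont (V := V) (k := k) (y := y) hV0 h1 J) (low_nn h0 h1 J) hlM hH0 hX0.le
  refine hm.trans ?_
  have hi : ∫ s in (0:ℝ)..X, low V k δ y J s ≤ S * (C5 * X) + T * X := by
    unfold low
    have hFi : ∀ j : ℕ, IntervalIntegrable (fun u => co j * FS V bump δ (y - j - 1) u) volume 0 X := fun j =>
      (continuous_const.mul (FSb_cont hV0 bump_TF h1 _)).intervalIntegrable _ _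
    rw [intervalIntegral.integral_add]
    · rw [intervalIntegral.integral_const, smul_eq_mul, sub_zero, intervalIntegral.integral_finsetSum fun j _ => hFi j,
        mul_comm X, hS, Finset.sum_mul]
      refine add_le_add (Finset.sum_le_sum fun j _ => ?_) le_rfl
      rw [intervalIntegral.integral_const_mul]
      exact mul_le_mul_of_nonneg_left (E5 _ (hyj j)) (hco0 j)
    · exact (continuous_finsetSum _ fun j _ => continuous_const.mul (FSb_cont hV0 bump_TF h1 _)).intervalIntegrable _ _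
    · exact continuous_const.intervalIntegrable _ _
  have h3 : H * (S * δ ^ (-W) + T) ≤ S * X + T * X := by
    have g1 : H * δ ^ (-W) = δ ^ (-(θ + W)) := by
      rw [hH, ← Real.rpow_add h0]
      congr 1
      ring
    calc H * (S * δ ^ (-W) + T) = S * (H * δ ^ (-W)) + T * H := by ring
      _ ≤ S * X + T * X := by
          rw [g1]
          exact add_le_add (mul_le_mul_of_nonneg_left w1 hS0) (mul_le_mul_of_nonneg_left w2 hT0.le)
  calc H * ((∫ s in (0:ℝ)..X, low V k δ y J s) + H * (S * δ ^ (-W) + T)) ≤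
      H * ((S * (C5 * X) + T * X) + (S * X + T * X)) := mul_le_mul_of_nonneg_left (add_le_add hi h3) hH0.le
    _ = H * (S * (C5 + 1) + 2 * T) * X := by ring
    _ ≤ H * ((cc V δ * Real.exp (2 * (k - V) * y) * (1 - q)⁻¹) * (C5 + 1) + 2 * T) * X := by gcongr
    _ = _ := by ring

end Run7.h291.WG
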