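import Pool.Agent.Run7.h291.WG.G23

set_option autoImplicit false

/-! High values up to the edge: trapezoids -/

namespace Run7.h291.WG

open Finset Filter MeasureTheory Topology Complex
open Pool.Agent.N748.MG Pool.Agent.N748.MJ Run7.h291.WN Run7.h291.WL Run7.h651.WN

/-- the trapezoid -/
noncomputable def tz (α β η x : ℝ) : ℝ := max 0 (min 1 (min ((x - α) / η) ((β - x) / η)))

lemma tz_cont (α β η : ℝ) : Continuous (tz α β η) := by
  unfold tz
  fun_prop

lemma tz_nn (α β η x : ℝ) : 0 ≤ tz α β η x := le_max_left _ _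

lemma tz_le (α β η x : ℝ) : tz α β η x ≤ 1 := max_le zero_le_one (min_le_left _ _)

lemma tz_left {α β η x : ℝ} (hη : 0 < η) (h : x ≤ α) : tz α β η x = 0 := by
  unfold tz
  refine max_eq_left ((min_le_right _ _).trans ((min_le_left _ _).trans ?_))
  exact div_nonpos_of_nonpos_of_nonneg (by linarith) hη.le

lemma tz_right {α β η x : ℝ} (hη : 0 < η) (h : β ≤ x) : tz α β η x = 0 := by
  unfold tz
  refine max_eq_left ((min_le_right _ _).trans ((min_le_right _ _).trans ?_))
  exact div_nonpos_of_nonpos_of_nonneg (by linarith) hη.le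

lemma tz_one {α β η x : ℝ} (hη : 0 < η) (h1 : α + η ≤ x) (h2 : x ≤ β - η) : tz α β η x = 1 := by
  unfold tz
  have e1 : 1 ≤ (x - α) / η := by
    rw [one_le_div hη]
    linarith
  have e2 : 1 ≤ (β - x) / η := by
    rw [one_le_div hη]
    linarith
  rw [min_eq_left (le_min e1 e2), max_eq_right zero_le_one]

/-- the weighted trapezoid -/
noncomputable def gz (c α β η x : ℝ) : ℝ := Real.exp (c * x) * tz α β η x

lemma gz_cont (c α β η : ℝ) : Continuous (gz c α β η) := by
  unfold gz
  exact (Real.continuous_exp.comp (continuous_const.mul continuous_id)).mul (tz_cont _ _ _)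

lemma gz_nn (c α β η x : ℝ) : 0 ≤ gz c α β η x := mul_nonneg (Real.exp_pos _).le (tz_nn _ _ _ _)

lemma gz_TF (c : ℝ) {α β η : ℝ} (hη : 0 < η) : TF (gz c α β η) (max |α| |β| + 1) (Real.exp (|c| * (max |α| |β| + 1))) := by
  have h0 : 0 ≤ max |α| |β| := (abs_nonneg α).trans (le_max_left _ _)
  have hz : ∀ x, max |α| |β| + 1 ≤ |x| → gz c α β η x = 0 := by
    intro x hx
    unfold gz
    have h1 : |α| ≤ max |α| |β| := le_max_left _ _
    have h2 : |β| ≤ max |α| |β| := le_max_right _ _
    rcases le_or_gt x 0 with h3 | h3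
    · rw [abs_of_nonpos h3] at hx
      have h4 := neg_abs_le α
      rw [tz_left hη (by linarith), mul_zero]
    · rw [abs_of_pos h3] at hx
      have h4 := le_abs_self β
      rw [tz_right hη (by linarith), mul_zero]
  refine ⟨gz_cont _ _ _ _, gz_nn _ _ _ _, fun x => ?_, hz, by linarith, (Real.exp_pos _).le⟩
  rcases le_or_gt (max |α| |β| + 1) |x| with h1 | h1
  · rw [hz x h1]
    exact (Real.exp_pos _).le
  · unfold gz
    have h2 : Real.exp (c * x) ≤ Real.exp (|c| * (max |α| |β| + 1)) := by
      refine Real.exp_le_exp.2 ((le_abs_self _).trans ?_)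
      rw [abs_mul]
      exact mul_le_mul_of_nonneg_left h1.le (abs_nonneg c)
    calc Real.exp (c * x) * tz α β η x ≤ Real.exp (c * x) * 1 :=
          mul_le_mul_of_nonneg_left (tz_le _ _ _ _) (Real.exp_pos _).le
      _ = Real.exp (c * x) := mul_one _
      _ ≤ _ := h2

lemma int_exp {c : ℝ} (hc : c ≠ 0) (a b : ℝ) : ∫ x in a..b, Real.exp (c * x) = (Real.exp (c * b) - Real.exp (c * a)) / c := by
  rw [intervalIntegral.integral_comp_mul_left (fun x => Real.exp x) hc, integral_exp, smul_eq_mul]
  field_simp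

lemma gz_int {c α β η : ℝ} (hη : 0 < η) : ∫ x, gz c α β η x = ∫ x in α..β, gz c α β η x := by
  refine (intervalIntegral.integral_eq_integral_of_support_subset fun x hx => ?_).symm
  rw [Function.mem_support] at hx
  constructor
  · by_contra h
    push Not at h
    exact hx (by unfold gz; rw [tz_left hη h, mul_zero])
  · by_contra h
    push Not at h
    exact hx (by unfold gz; rw [tz_right hη h.le, mul_zero])

lemma gz_up {c α β η : ℝ} (hc : 0 < c) (hη : 0 < η) (hab : α ≤ β) : ∫ x, gz c α β η x ≤ Real.exp (c * β) / c := by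
  rw [gz_int hη]
  have h1 : ∫ x in α..β, gz c α β η x ≤ ∫ x in α..β, Real.exp (c * x) := by
    refine intervalIntegral.integral_mono_on hab ((gz_cont _ _ _ _).intervalIntegrable _ _) ?_ fun x _ => ?_
    · exact (Real.continuous_exp.comp (continuous_const.mul continuous_id)).intervalIntegrable _ _
    · exact mul_le_of_le_one_right (Real.exp_pos _).le (tz_le _ _ _ _)
  rw [int_exp hc.ne'] at h1
  refine h1.trans ?_
  refine div_le_div_of_nonneg_right ?_ hc.le
  have := Real.exp_pos (c * α)
  linarith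

lemma gz_low {c α β η : ℝ} (hc : 0 < c) (hη : 0 < η) (hab : α + η ≤ β - η) :
    (Real.exp (c * (β - η)) - Real.exp (c * (α + η))) / c ≤ ∫ x, gz c α β η x := by
  rw [gz_int hη, ← int_exp hc.ne']
  have h1 : ∫ x in (α + η)..(β - η), Real.exp (c * x) = ∫ x in (α + η)..(β - η), gz c α β η x := by
    refine intervalIntegral.integral_congr fun x hx => ?_
    rw [Set.uIcc_of_le hab] at hx
    show _ = Real.exp (c * x) * tz α β η x
    rw [tz_one hη hx.1 hx.2, mul_one]
  rw [h1]
  exact intervalIntegral.integral_mono_interval (by linarith) hab (by linarith)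
    (Filter.Eventually.of_forall fun x => gz_nn _ _ _ _ _) ((gz_cont _ _ _ _).intervalIntegrable _ _)

end Run7.h291.WG
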