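import Pool.Agent.Run7.h291.WG.G24

set_option autoImplicit false

/-! High values up to the edge: the moments below the edge -/

namespace Run7.h291.WG

open Finset Filter MeasureTheory Topology Complex
open Pool.Agent.N748.MG Pool.Agent.N748.MJ Run7.h291.WN Run7.h291.WL Run7.h651.WN

/-- comparison with the truncated power, from below -/
lemma cmp_low {V k δ y R η u : ℝ} (hV : 0 < V) (hk : V < k) (h0 : 0 < δ) (h1 : δ ≤ 1 / 16) (hη : 0 < η) :
    cc V δ * Real.exp (2 * (k - V) * y) * FS V (gz (2 * (k - V)) (-R) 0 η) δ y u ≤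
      Set.indicator {u : ℝ | mz δ u < Real.exp y} (fun u => mz δ u ^ (2 * k)) u := by
  have hk0 : 0 < k := by linarith
  have hm0 : 0 ≤ mz δ u := TMA.mz_nn _ _
  rcases hm0.eq_or_lt with hm | hm
  · rw [FS_zero_of hV hm.symm, mul_zero]
    exact Set.indicator_nonneg (fun u _ => Real.rpow_nonneg (TMA.mz_nn _ _) _) _
  · have h2 := FS_pow (V := V) (k := k) (h := tz (-R) 0 η) (y := y) hV hk0.le h0 h1 hm
    have h3 : (fun x => Real.exp (2 * (k - V) * x) * tz (-R) 0 η x) = gz (2 * (k - V)) (-R) 0 η := rfl
    rw [h3] at h2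
    rw [h2]
    rcases lt_or_ge (mz δ u) (Real.exp y) with h4 | h4
    · rw [Set.indicator_of_mem (show u ∈ {u : ℝ | mz δ u < Real.exp y} from h4)]
      exact mul_le_of_le_one_left (Real.rpow_nonneg hm0 _) (tz_le _ _ _ _)
    · have h5 : y ≤ Real.log (mz δ u) := (Real.le_log_iff_exp_le hm).2 h4
      rw [tz_right hη (by linarith), zero_mul]
      exact Set.indicator_nonneg (fun u _ => Real.rpow_nonneg (TMA.mz_nn _ _) _) _

/-- comparison with the truncated power, from above -/
lemma cmp_up {V k δ y R η u : ℝ} (hV : 0 < V) (hk : V < k) (h0 : 0 < δ) (h1 : δ ≤ 1 / 16) (hη : 0 < η) (J : ℕ) :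
    Set.indicator {u : ℝ | mz δ u < Real.exp y} (fun u => mz δ u ^ (2 * k)) u ≤
    cc V δ * Real.exp (2 * (k - V) * y) * FS V (gz (2 * (k - V)) (-R - η) η η) δ y u + low V k δ (y - R) J u := by
  have hk0 : 0 < k := by linarith
  have hm0 : 0 ≤ mz δ u := TMA.mz_nn _ _
  have hc := (cc_pos V h0 h1).le
  have hF : 0 ≤ cc V δ * Real.exp (2 * (k - V) * y) * FS V (gz (2 * (k - V)) (-R - η) η η) δ y u :=
    mul_nonneg (mul_nonneg hc (Real.exp_pos _).le) (FS_nn (gz_nn _ _ _ _) h0.le _ _)
  have hL := low_nn (V := V) (k := k) (y := y - R) h0 h1 J u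
  rcases lt_or_ge (mz δ u) (Real.exp y) with h4 | h4
  · rw [Set.indicator_of_mem (show u ∈ {u : ℝ | mz δ u < Real.exp y} from h4)]
    rcases lt_or_ge (mz δ u) (Real.exp (y - R)) with h5 | h5
    · have := low_pt hV hk h0 h1 J h5
      linarith
    · have hm : 0 < mz δ u := (Real.exp_pos _).trans_le h5
      have h2 := FS_pow (V := V) (k := k) (h := tz (-R - η) η η) (y := y) hV hk0.le h0 h1 hm
      have h3 : (fun x => Real.exp (2 * (k - V) * x) * tz (-R - η) η η x) = gz (2 * (k - V)) (-R - η) η η := rfl
      rw [h3] at h2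
      rw [h2]
      have h6 : y - R ≤ Real.log (mz δ u) := (Real.le_log_iff_exp_le hm).2 h5
      have h7 : Real.log (mz δ u) < y := (Real.log_lt_iff_lt_exp hm).2 h4
      rw [tz_one hη (by linarith) (by linarith), one_mul]
      linarith
  · rw [Set.indicator_of_notMem (show u ∉ {u : ℝ | mz δ u < Real.exp y} from not_lt.2 h4)]
    linarith

theorem mom : S_MOM := by
  intro V k hV hk ε hε
  have hV0 : 0 < V := by linarith
  have hk0 : 0 < k := by linarith
  set c : ℝ := 2 * (k - V) with hc
  have hc0 : 0 < c := by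
    rw [hc]
    linarith
  set κ : ℝ := cV V with hκ
  have hκ0 : 0 < κ := by
    have := akp V
    have := Real.pi_pos
    rw [hκ]
    unfold cV
    positivity
  set K1 : ℝ := 3 * κ / c + 2 * κ + 1 with hK1
  have hK10 : 0 < K1 := by positivity
  set e : ℝ := min 1 (ε / (4 * K1)) with he
  have he0 : 0 < e := lt_min one_pos (by positivity)
  have he1 : e ≤ 1 := min_le_left _ _
  have he2 : e * K1 ≤ ε / 4 := by
    have : e ≤ ε / (4 * K1) := min_le_right _ _
    calc e * K1 ≤ ε / (4 * K1) * K1 := mul_le_mul_of_nonneg_right this hK10.le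
      _ = ε / 4 := by field_simp
  have hK11 : 1 ≤ K1 := by
    have : 0 ≤ 3 * κ / c + 2 * κ := by positivity
    rw [hK1]
    linarith
  have he3 : e ≤ ε / 4 := by nlinarith
  set η : ℝ := Real.log (1 + e) / c with hη
  have hη0 : 0 < η := div_pos (Real.log_pos (by linarith)) hc0
  have hcη : c * η = Real.log (1 + e) := by
    rw [hη]
    field_simp
  have hx1 : Real.exp (c * η) = 1 + e := by rw [hcη, Real.exp_log (by linarith)]
  have hx2 : 1 - e ≤ Real.exp (-(c * η)) := by
    rw [Real.exp_neg, hx1, ← one_div, le_div_iff₀ (by linarith)]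
    nlinarith
  obtain ⟨C, hC, EL⟩ := low_mean hV hk
  set s : ℝ := min e (ε * e / (32 * κ * C)) with hs
  have hs0 : 0 < s := lt_min he0 (by positivity)
  have hse : s ≤ e := min_le_left _ _
  have hs2 : s ≤ ε * e / (32 * κ * C) := min_le_right _ _
  set R : ℝ := 2 * η + Real.log (1 / s) / c with hR
  have hls : 0 ≤ Real.log (1 / s) := Real.log_nonneg (by rw [one_le_div hs0]; linarith)
  have hR2 : 2 * η ≤ R := by
    have : 0 ≤ Real.log (1 / s) / c := div_nonneg hls hc0.le
    linarith
  have hcR : c * R = 2 * (c * η) + Real.log (1 / s) := by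
    rw [hR]
    field_simp
  have hlog : Real.exp (-Real.log (1 / s)) = s := by
    rw [Real.exp_neg, Real.exp_log (by positivity), one_div, inv_inv]
  have hcη0 : 0 < c * η := by positivity
  have hx3 : Real.exp (-(c * (R - η))) ≤ e := by
    refine le_trans (le_trans (Real.exp_le_exp.2 ?_) (le_of_eq hlog)) hse
    have : c * (R - η) = c * R - c * η := by ring
    rw [this, hcR]
    linarith
  have hx4 : Real.exp (-(c * R)) ≤ s := by
    refine le_trans (Real.exp_le_exp.2 ?_) (le_of_eq hlog)
    rw [hcR]
    linarith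
  -- the two test functions
  have hgp := gz_TF c (α := -R - η) (β := η) hη0
  have hgm := gz_TF c (α := -R) (β := 0) hη0
  obtain ⟨a1, H1⟩ := lln V hV _ _ _ hgp e he0
  obtain ⟨a2, H2⟩ := lln V hV _ _ _ hgm e he0
  set Ip : ℝ := ∫ x, gz c (-R - η) η η x with hIp
  set Im : ℝ := ∫ x, gz c (-R) 0 η x with hIm
  have hIp1 : Ip ≤ (1 + e) / c := by
    have h2 := gz_up (c := c) (α := -R - η) (β := η) hc0 hη0 (by linarith)
    rwa [hx1] at h2
  have hIm1 : (1 - e - e) / c ≤ Im := by
    have h2 := gz_low (c := c) (α := -R) (β := 0) (η := η) hc0 hη0 (by linarith)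
    refine le_trans (div_le_div_of_nonneg_right ?_ hc0.le) h2
    have g1 : c * (0 - η) = -(c * η) := by ring
    have g2 : c * (-R + η) = -(c * (R - η)) := by ring
    rw [g1, g2]
    linarith
  set θ : ℝ := V ^ 2 - 1 with hθ
  have hθ0 : 0 < θ := by
    rw [hθ]
    nlinarith
  refine ⟨min a1 a2, (((((H1.and H2).and EL).and (lev_le3 V (min a1 a2) hV0)).and (rho_le he0)).and
    (Ev.small (C := 2 * Real.exp (2 * V * (min a1 a2)) / e) (c := V ^ 2) (e := ε / 8) (by positivity) (by positivity))).mono ?_⟩
  rintro X δ hX1 h0 h1 ⟨⟨⟨⟨⟨H1, H2⟩, EL⟩, El⟩, hρ⟩, sm⟩ a haa haL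
  have hX0 : 0 < X := by linarith
  have H1 := H1 a (haa.trans (min_le_left _ _)) haL
  have H2 := H2 a (haa.trans (min_le_right _ _)) haL
  obtain ⟨l1, -⟩ := El a haa haL
  set y : ℝ := lev V δ + a with hy
  set H : ℝ := δ ^ (-θ) with hH
  have hH0 : 0 < H := Real.rpow_pos_of_pos h0 _
  set D : ℝ := δ * Real.exp (2 * k * y) * Real.exp (-(2 * V * a)) with hD
  have hD0 : 0 < D := by positivity
  have hρ1 := rho_ge h0 h1
  have hnorm : cc V δ * Real.exp (c * y) * H = rho δ * κ * D := norm_eq hV0 h0 h1
  set J : ℕ := ⌈V ^ 2 * Real.log (1 / δ)⌉₊ with hJ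
  have hR0 : 0 ≤ R := by linarith
  have EL := EL (y - R) J (by linarith)
  have hlc : Continuous (low V k δ (y - R) J) := low_cont hV0 h1 J
  have hln := low_nn (V := V) (k := k) (y := y - R) h0 h1 J
  -- Markov
  have M := markov (g := fun t => (1 / (e * D)) * (H * Av H (low V k δ (y - R) J) t)) (by
      have h3 := Av_cont (l := H) hlc
      fun_prop) (fun t => by
        refine mul_nonneg (by positivity) (mul_nonneg hH0.le ?_)
        unfold Av
        exact mul_nonneg (by positivity) (intervalIntegral.integral_nonneg hH0.le fun u _ => hln _)) hX0.le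
      (e := ε / 4 * X) (by
      rw [intervalIntegral.integral_const_mul]
      have h3 : ∫ t in (0:ℝ)..X, H * Av H (low V k δ (y - R) J) t =
          ∫ t in (0:ℝ)..X, (∫ u in t..(t + H), low V k δ (y - R) J u) := by
        refine intervalIntegral.integral_congr fun t _ => ?_
        show H * Av H (low V k δ (y - R) J) t = _
        unfold Av
        rw [intervalIntegral.integral_comp_add_left (fun u => low V k δ (y - R) J u), add_zero]
        field_simp
      rw [h3]
      have h4 : H * (C * (cc V δ * Real.exp (c * (y - R))) + 2 * Real.exp (2 * k * (y - R - J))) * X ≤ e * D * (ε / 4 * X) := by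
        have g1 : H * (C * (cc V δ * Real.exp (c * (y - R)))) ≤ e * D * (ε / 8) := by
          have r1 : Real.exp (c * (y - R)) = Real.exp (c * y) * Real.exp (-(c * R)) := by
            rw [← Real.exp_add]
            congr 1
            ring
          calc H * (C * (cc V δ * Real.exp (c * (y - R)))) = C * (cc V δ * Real.exp (c * y) * H) * Real.exp (-(c * R)) := by
                rw [r1]
                ring
            _ = C * (rho δ * κ * D) * Real.exp (-(c * R)) := by rw [hnorm]
            _ ≤ C * (2 * κ * D) * s := by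
                have r2 : rho δ ≤ 2 := by linarith
                gcongr
            _ ≤ C * (2 * κ * D) * (ε * e / (32 * κ * C)) := mul_le_mul_of_nonneg_left hs2 (by positivity)
            _ = e * D * (ε / 16) := by
                field_simp
                ring
            _ ≤ _ := by
                refine mul_le_mul_of_nonneg_left ?_ (by positivity)
                linarith
        have g2 : H * (2 * Real.exp (2 * k * (y - R - J))) ≤ e * D * (ε / 8) := by
          have r1 : Real.exp (2 * k * (y - R - J)) ≤ Real.exp (2 * k * y) * δ ^ (2 * V ^ 2) := by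
            have r2 := expL h0 (-(2 * V ^ 2))
            rw [neg_neg] at r2
            rw [← r2, ← Real.exp_add]
            refine Real.exp_le_exp.2 ?_
            have r3 : V ^ 2 * Real.log (1 / δ) ≤ J := Nat.le_ceil _
            have r4 : 0 ≤ V ^ 2 * Real.log (1 / δ) := by
              have := log_inv_ge h0 h1
              positivity
            have r5 : (J:ℝ) ≤ k * J := le_mul_of_one_le_left (r4.trans r3) (by linarith)
            have r6 : 0 ≤ k * R := by positivity
            nlinarith
          have r7 : H * δ ^ (2 * V ^ 2) = δ * δ ^ (V ^ 2) := by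
            rw [hH, ← Real.rpow_add h0]
            nth_rw 2 [← Real.rpow_one δ]
            rw [← Real.rpow_add h0]
            congr 1
            rw [hθ]
            ring
          have r8 : Real.exp (2 * V * a) ≤ Real.exp (2 * V * (min a1 a2)) :=
            Real.exp_le_exp.2 (mul_le_mul_of_nonneg_left haa (by positivity))
          have r9 : Real.exp (2 * V * a) * Real.exp (-(2 * V * a)) = 1 := by
            rw [← Real.exp_add, add_neg_cancel, Real.exp_zero]
          calc H * (2 * Real.exp (2 * k * (y - R - J))) ≤ H * (2 * (Real.exp (2 * k * y) * δ ^ (2 * V ^ 2))) := by gcongr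
            _ = 2 * Real.exp (2 * k * y) * (H * δ ^ (2 * V ^ 2)) := by ring
            _ = 2 * Real.exp (2 * k * y) * (δ * δ ^ (V ^ 2)) * (Real.exp (2 * V * a) * Real.exp (-(2 * V * a))) := by
                rw [r7, r9, mul_one]
            _ = e * D * (2 * Real.exp (2 * V * a) / e * δ ^ (V ^ 2)) := by
                rw [hD]
                field_simp
            _ ≤ e * D * (2 * Real.exp (2 * V * (min a1 a2)) / e * δ ^ (V ^ 2)) := by
                have := Real.rpow_pos_of_pos h0 (V ^ 2)
                gcongr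
            _ ≤ _ := mul_le_mul_of_nonneg_left sm (by positivity)
        calc H * (C * (cc V δ * Real.exp (c * (y - R))) + 2 * Real.exp (2 * k * (y - R - J))) * X =
            (H * (C * (cc V δ * Real.exp (c * (y - R)))) + H * (2 * Real.exp (2 * k * (y - R - J)))) * X := by ring
          _ ≤ (e * D * (ε / 8) + e * D * (ε / 8)) * X := mul_le_mul_of_nonneg_right (add_le_add g1 g2) hX0.le
          _ = _ := by ring
      calc 1 / (e * D) * (∫ t in (0:ℝ)..X, (∫ u in t..(t + H), low V k δ (y - R) J u)) ≤
          1 / (e * D) * (e * D * (ε / 4 * X)) := mul_le_mul_of_nonneg_left (EL.trans h4) (by positivity)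
        _ = ε / 4 * X := by field_simp)
  have hsub : {t : ℝ | 0 ≤ t ∧ t ≤ X ∧
      ε < |(∫ u in {u : ℝ | u ∈ Set.Icc t (t + H) ∧ mz δ u < Real.exp y}, mz δ u ^ (2 * k)) / D - κ / c|} ⊆
      ({t | 0 ≤ t ∧ t ≤ X ∧ e < |Av H (fun u => FS V (gz c (-R - η) η η) δ y u) t - Ip|} ∪
      {t | 0 ≤ t ∧ t ≤ X ∧ e < |Av H (fun u => FS V (gz c (-R) 0 η) δ y u) t - Im|}) ∪
      {t | 0 ≤ t ∧ t ≤ X ∧ 1 < (1 / (e * D)) * (H * Av H (low V k δ (y - R) J) t)} := by
    rintro t ⟨t1, t2, t3⟩
    by_contra hcn
    have c1 : |Av H (fun u => FS V (gz c (-R - η) η η) δ y u) t - Ip| ≤ e := by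
      by_contra h2
      push Not at h2
      exact hcn (Or.inl (Or.inl ⟨t1, t2, h2⟩))
    have c2 : |Av H (fun u => FS V (gz c (-R) 0 η) δ y u) t - Im| ≤ e := by
      by_contra h2
      push Not at h2
      exact hcn (Or.inl (Or.inr ⟨t1, t2, h2⟩))
    have c3 : (1 / (e * D)) * (H * Av H (low V k δ (y - R) J) t) ≤ 1 := by
      by_contra h2
      push Not at h2
      exact hcn (Or.inr ⟨t1, t2, h2⟩)
    set Ap : ℝ := Av H (fun u => FS V (gz c (-R - η) η η) δ y u) t with hAp
    set Am : ℝ := Av H (fun u => FS V (gz c (-R) 0 η) δ y u) t with hAm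
    set Al : ℝ := H * Av H (low V k δ (y - R) J) t with hAl
    have c3 : Al ≤ e * D := by rwa [one_div, inv_mul_le_iff₀ (by positivity), mul_one] at c3
    set T : ℝ := ∫ u in {u : ℝ | u ∈ Set.Icc t (t + H) ∧ mz δ u < Real.exp y}, mz δ u ^ (2 * k) with hT
    have hmc : Continuous fun u => mz δ u := TMA.cont h1
    have hms : MeasurableSet {u : ℝ | mz δ u < Real.exp y} := measurableSet_lt hmc.measurable measurable_const
    have hpc : Continuous fun u => mz δ u ^ (2 * k) := hmc.rpow_const fun u => Or.inr (by positivity)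
    have hTe : T = ∫ u in t..(t + H), Set.indicator {u : ℝ | mz δ u < Real.exp y} (fun u => mz δ u ^ (2 * k)) u := by
      rw [intervalIntegral.integral_of_le (by linarith), ← integral_Icc_eq_integral_Ioc, setIntegral_indicator hms]
      rfl
    have hii : IntervalIntegrable (Set.indicator {u : ℝ | mz δ u < Real.exp y} (fun u => mz δ u ^ (2 * k))) volume t (t + H) := by
      have h2 : IntervalIntegrable (fun u => mz δ u ^ (2 * k)) volume t (t + H) := hpc.intervalIntegrable _ _
      rw [intervalIntegrable_iff] at h2 ⊢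
      exact h2.indicator hms
    have hFp : Continuous fun u => FS V (gz c (-R - η) η η) δ y u := FSb_cont hV0 hgp h1 y
    have hFp2 : Continuous fun u => cc V δ * Real.exp (c * y) * FS V (gz c (-R - η) η η) δ y u := continuous_const.mul hFp
    have hFm : Continuous fun u => FS V (gz c (-R) 0 η) δ y u := FSb_cont hV0 hgm h1 y
    have eAv : ∀ f : ℝ → ℝ, ∫ u in t..(t + H), f u = H * Av H f t := fun f => by
      unfold Av
      rw [intervalIntegral.integral_comp_add_left (fun u => f u), add_zero]
      field_simp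
    have up : T ≤ rho δ * κ * D * Ap + Al := by
      have g1 : T ≤ ∫ u in t..(t + H), (cc V δ * Real.exp (c * y) * FS V (gz c (-R - η) η η) δ y u + low V k δ (y - R) J u) := by
        rw [hTe]
        refine intervalIntegral.integral_mono_on (by linarith) hii ?_ fun u _ => cmp_up hV0 hk h0 h1 hη0 J
        exact ((continuous_const.mul hFp).add hlc).intervalIntegrable _ _
      rw [intervalIntegral.integral_add (hFp2.intervalIntegrable _ _) (hlc.intervalIntegrable _ _),
        intervalIntegral.integral_const_mul, eAv, eAv] at g1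
      calc T ≤ cc V δ * Real.exp (c * y) * (H * Ap) + Al := g1
        _ = (cc V δ * Real.exp (c * y) * H) * Ap + Al := by ring
        _ = _ := by rw [hnorm]
    have dn : rho δ * κ * D * Am ≤ T := by
      have g1 : ∫ u in t..(t + H), cc V δ * Real.exp (c * y) * FS V (gz c (-R) 0 η) δ y u ≤ T := by
        rw [hTe]
        refine intervalIntegral.integral_mono_on (by linarith) ?_ hii fun u _ => cmp_low hV0 hk h0 h1 hη0
        exact (continuous_const.mul hFm).intervalIntegrable _ _
      rw [intervalIntegral.integral_const_mul, eAv] at g1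
      calc rho δ * κ * D * Am = (cc V δ * Real.exp (c * y) * H) * Am := by rw [hnorm]
        _ = cc V δ * Real.exp (c * y) * (H * Am) := by ring
        _ ≤ T := g1
    have hAm0 : 0 ≤ Am := by
      rw [hAm]
      unfold Av
      exact mul_nonneg (by positivity) (intervalIntegral.integral_nonneg hH0.le fun u _ => FS_nn (gz_nn _ _ _ _) h0.le _ _)
    have hAp1 : Ap ≤ (1 + e) / c + e := by
      have := (abs_le.1 c1).2
      linarith
    have hAm1 : (1 - e - e) / c - e ≤ Am := by
      have := (abs_le.1 c2).1
      linarith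
    have q1 : T / D ≤ κ / c + e * K1 := by
      rw [div_le_iff₀ hD0]
      have r1 : rho δ * κ * D * Ap ≤ (1 + e) * κ * D * ((1 + e) / c + e) := by
        have r2 : 0 ≤ (1 + e) / c + e := by positivity
        calc rho δ * κ * D * Ap ≤ rho δ * κ * D * ((1 + e) / c + e) := mul_le_mul_of_nonneg_left hAp1 (by positivity)
          _ ≤ _ := by gcongr
      have r3 : (1 + e) * κ * D * ((1 + e) / c + e) + e * D ≤ (κ / c + e * K1) * D := by
        have r4 : (1 + e) * κ * ((1 + e) / c + e) + e ≤ κ / c + e * K1 := by
          have r5 : (1 + e) * κ * ((1 + e) / c + e) + e = κ / c + e * (κ / c * (2 + e) + (1 + e) * κ + 1) := by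
            field_simp
            ring
          rw [r5, hK1]
          have r6 : κ / c * (2 + e) + (1 + e) * κ + 1 ≤ 3 * κ / c + 2 * κ + 1 := by
            have r7 : 0 < κ / c := by positivity
            have r8 : 3 * κ / c = κ / c * 3 := by ring
            rw [r8]
            have r9 : κ / c * (2 + e) ≤ κ / c * 3 := mul_le_mul_of_nonneg_left (by linarith) r7.le
            nlinarith
          have r7 := mul_le_mul_of_nonneg_left r6 he0.le
          linarith
        calc (1 + e) * κ * D * ((1 + e) / c + e) + e * D = ((1 + e) * κ * ((1 + e) / c + e) + e) * D := by ring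
          _ ≤ _ := mul_le_mul_of_nonneg_right r4 hD0.le
      linarith
    have q2 : κ / c - e * K1 ≤ T / D := by
      rw [le_div_iff₀ hD0]
      have r1 : κ * D * Am ≤ rho δ * κ * D * Am := by
        have : κ * D * Am ≤ rho δ * (κ * D * Am) := le_mul_of_one_le_left (by positivity) hρ1
        linarith
      have r2 : κ * D * ((1 - e - e) / c - e) ≤ κ * D * Am := mul_le_mul_of_nonneg_left hAm1 (by positivity)
      have r3 : (κ / c - e * K1) * D ≤ κ * D * ((1 - e - e) / c - e) := by
        have r4 : κ / c - e * K1 ≤ κ * ((1 - e - e) / c - e) := by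
          have r5 : κ * ((1 - e - e) / c - e) = κ / c - e * (2 * κ / c + κ) := by
            field_simp
            ring
          rw [r5]
          have r6 : 2 * κ / c + κ ≤ K1 := by
            rw [hK1]
            have r7 : 0 < κ / c := by positivity
            have r8 : 3 * κ / c = κ / c * 3 := by ring
            have r9 : 2 * κ / c = κ / c * 2 := by ring
            rw [r8, r9]
            linarith
          have r7 := mul_le_mul_of_nonneg_left r6 he0.le
          linarith
        calc (κ / c - e * K1) * D ≤ (κ * ((1 - e - e) / c - e)) * D := mul_le_mul_of_nonneg_right r4 hD0.le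
          _ = _ := by ring
      linarith
    have q3 : |T / D - κ / c| ≤ ε := by
      rw [abs_le]
      constructor <;> linarith
    linarith
  have hgoal : {t : ℝ | 0 ≤ t ∧ t ≤ X ∧ ε < |(∫ u in {u : ℝ | u ∈ Set.Icc t (t + δ ^ (-(V ^ 2 - 1))) ∧
      mz δ u < Real.exp (lev V δ + a)}, mz δ u ^ (2 * k)) /
      (δ * Real.exp (2 * k * (lev V δ + a)) * Real.exp (-(2 * V * a))) - cV V / (2 * (k - V))|} ⊆ _ := hsub
  refine (measure_mono hgoal).trans ((measure_union_le _ _).trans ?_)
  have hsum : ε * X = (ε / 4 * X + ε / 4 * X) + ε / 2 * X := by ring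
  rw [hsum, ENNReal.ofReal_add (by positivity) (by positivity), ENNReal.ofReal_add (by positivity) (by positivity)]
  refine add_le_add ((measure_union_le _ _).trans (add_le_add (H1.trans ?_) (H2.trans ?_))) (M.trans ?_)
  · exact ENNReal.ofReal_le_ofReal (mul_le_mul_of_nonneg_right he3 hX0.le)
  · exact ENNReal.ofReal_le_ofReal (mul_le_mul_of_nonneg_right he3 hX0.le)
  · exact ENNReal.ofReal_le_ofReal (mul_le_mul_of_nonneg_right (by linarith) hX0.le)

end Run7.h291.WG
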