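import Pool.Agent.Run7.h291.WG.G2

set_option autoImplicit false

/-! The maximum in windows: the main terms -/

namespace Run7.h291.WG

open Finset Filter MeasureTheory Topology Complex
open Pool.Agent.N748.MG Pool.Agent.N748.MJ Run7.h291.WN Run7.h291.WL

/-- the main term of the moment beyond the barrier, at a fixed value of the first point -/
lemma Lr_tilt2 (n : ℕ) (hn : 1 ≤ n) (V g : ℝ) (hg : 0 ≤ g) (hgV : g ≤ V) : ∃ C : ℝ, ∀ δ : ℝ, 0 < δ → δ ≤ 1 / 16 →
    ∀ x : ℝ, 0 ≤ x → x ≤ 1 →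
    SM.Lr (kT n (V - g) g) (hT n δ x) δ ≤
      (V ^ 2 - (2 * V * g - g ^ 2 - g ^ 2 / n) * (1 - x)) * Real.log (1 / δ) + C := by
  obtain ⟨C, hC, H⟩ := LZ_ul n
  refine ⟨V ^ 2 * C, fun δ h0 h1 x hx0 hx1 => ?_⟩
  obtain ⟨H1, H2, H3, H4⟩ := H δ h0 h1 x hx0 hx1
  set L : ℝ := Real.log (1 / δ) with hL
  have hL0 : 0 ≤ L := Real.log_nonneg (by rw [le_div_iff₀ h0]; linarith)
  have hp := Real.rpow_pos_of_pos h0 x
  have hx1' : δ ^ x ≤ 1 := Real.rpow_le_one h0.le (by linarith) hx0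
  have hn0 : (0:ℝ) < n := by exact_mod_cast hn
  set A : ℝ → ℝ := fun u => (LZ (1 + 2 * δ) u).re with hA
  have hexp : SM.Lr (kT n (V - g) g) (hT n δ x) δ = (V - g) ^ 2 * A 0 +
      ((V - g) * (g / n)) * (∑ i, (A (-(sh n δ x i)) + A (sh n δ x i))) +
      (g / n) ^ 2 * ∑ i, ∑ j, A (sh n δ x i - sh n δ x j) := by
    unfold SM.Lr kT hT
    simp only [Fin.sum_univ_succ, Fin.cons_zero, Fin.cons_succ, sub_self, zero_sub, sub_zero]
    simp only [Finset.sum_add_distrib, ← Finset.mul_sum, hA]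
    ring
  rw [hexp]
  have hshu : ∀ i : Fin n, |sh n δ x i| ≤ n + 2 := fun i => by
    rw [abs_of_pos (sh_pos h0 i)]
    have := sh_le (x := x) h0 i
    nlinarith
  have hshl : ∀ i : Fin n, δ ^ x ≤ |sh n δ x i| := fun i => by
    rw [abs_of_pos (sh_pos h0 i)]
    exact sh_ge h0 i
  have b2 : ∑ i, (A (-(sh n δ x i)) + A (sh n δ x i)) ≤ n * (2 * (x * L + C)) := by
    calc _ ≤ ∑ _i : Fin n, 2 * (x * L + C) := by
          refine Finset.sum_le_sum fun i _ => ?_
          have g1 := H2 (sh n δ x i) (hshu i) (hshl i)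
          have g2 := H2 (-(sh n δ x i)) (by rw [abs_neg]; exact hshu i) (by rw [abs_neg]; exact hshl i)
          simp only [hA]
          linarith
      _ = (n:ℝ) * (2 * (x * L + C)) := by
          rw [Finset.sum_const, Finset.card_univ, Fintype.card_fin, nsmul_eq_mul]
  have b3 : ∑ i, ∑ j, A (sh n δ x i - sh n δ x j) ≤ n * ((1 - x) * L) + n ^ 2 * (x * L + C) := by
    refine sum_pairs (fun i j => A (sh n δ x i - sh n δ x j)) (by positivity) (fun i => ?_) fun i j hij => ?_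
    · simp only [sub_self]
      have g4 : A 0 ≤ L + C := H1
      linarith
    · refine H2 _ ?_ (sh_diff h0 hij)
      have g1 := sh_le (x := x) h0 i
      have g2 := sh_le (x := x) h0 j
      have g3 := sh_pos (x := x) h0 i
      have g4 := sh_pos (x := x) h0 j
      rw [abs_le]
      constructor <;> nlinarith
  have hVg : 0 ≤ V - g := by linarith
  have c1 : (V - g) ^ 2 * A 0 ≤ (V - g) ^ 2 * (L + C) := mul_le_mul_of_nonneg_left H1 (by positivity)
  have c2 : ((V - g) * (g / n)) * (∑ i, (A (-(sh n δ x i)) + A (sh n δ x i))) ≤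
      ((V - g) * (g / n)) * (n * (2 * (x * L + C))) :=
    mul_le_mul_of_nonneg_left b2 (by positivity)
  have c3 : (g / n) ^ 2 * ∑ i, ∑ j, A (sh n δ x i - sh n δ x j) ≤ (g / n) ^ 2 * (n * ((1 - x) * L) + n ^ 2 * (x * L + C)) :=
    mul_le_mul_of_nonneg_left b3 (by positivity)
  refine (add_le_add (add_le_add c1 c2) c3).trans (le_of_eq ?_)
  field_simp
  ring

/-- the main term of the two-point function with the barrier, at distances of order `δ^x` -/
lemma Lr_pair (n : ℕ) (hn : 1 ≤ n) (k : ℝ) : ∃ C : ℝ, ∀ δ : ℝ, 0 < δ → δ ≤ 1 / 16 → ∀ x h : ℝ, 0 ≤ x → x ≤ 1 →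
    δ ^ x ≤ h → h ≤ 2 * δ ^ x →
    SM.Lr (kN n k) (hN n δ x h) δ ≤ (k ^ 2 + k ^ 2 * (1 + 1 / n) * (1 - x)) * Real.log (1 / δ) + C := by
  obtain ⟨C, hC, H⟩ := LZ_ul n
  refine ⟨9 * k ^ 2 * C, fun δ h0 h1 x h hx0 hx1 hh hh2 => ?_⟩
  obtain ⟨H1, H2, H3, H4⟩ := H δ h0 h1 x hx0 hx1
  set L : ℝ := Real.log (1 / δ) with hL
  have hL0 : 0 ≤ L := Real.log_nonneg (by rw [le_div_iff₀ h0]; linarith)
  have hp := Real.rpow_pos_of_pos h0 x
  have hx1' : δ ^ x ≤ 1 := Real.rpow_le_one h0.le (by linarith) hx0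
  have hn0 : (0:ℝ) < n := by exact_mod_cast hn
  have hh0 : 0 < h := by linarith
  set A : ℝ → ℝ := fun u => (LZ (1 + 2 * δ) u).re with hA
  have hexp : SM.Lr (kN n k) (hN n δ x h) δ = k ^ 2 * (2 * A 0 + (A (-h) + A h)) +
      (-(k ^ 2 / n)) * (∑ i, (A (-(sh n δ x i)) + A (sh n δ x i) + (A (h - sh n δ x i) + A (sh n δ x i - h)))) +
      (k / n) ^ 2 * ∑ i, ∑ j, A (sh n δ x i - sh n δ x j) := by
    unfold SM.Lr kN hN
    simp only [Fin.sum_univ_succ, Fin.cons_zero, Fin.cons_succ, sub_self, zero_sub, sub_zero]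
    simp only [Finset.sum_add_distrib, ← Finset.mul_sum, hA]
    ring
  rw [hexp]
  have hshu : ∀ i : Fin n, |sh n δ x i| ≤ (n + 2) * δ ^ x := fun i => by
    rw [abs_of_pos (sh_pos h0 i)]
    have := sh_le (x := x) h0 i
    nlinarith
  have hsd : ∀ i : Fin n, |h - sh n δ x i| ≤ (n + 2) * δ ^ x := fun i => by
    have h3 := sh_le (x := x) h0 i
    have h4 := sh_pos (x := x) h0 i
    rw [abs_le]
    constructor <;> nlinarith
  have b1 : 2 * A 0 + (A (-h) + A h) ≤ 2 * (L + C) + 2 * (x * L + C) := by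
    have hn2 : (1:ℝ) ≤ n := by exact_mod_cast hn
    have g1 : |h| ≤ n + 2 := by
      rw [abs_of_pos hh0]
      linarith
    have g2 := H2 h g1 (by rw [abs_of_pos hh0]; exact hh)
    have g3 := H2 (-h) (by rw [abs_neg]; exact g1) (by rw [abs_neg, abs_of_pos hh0]; exact hh)
    have g4 : A 0 ≤ L + C := H1
    simp only [hA] at g4 ⊢
    linarith
  have b2 : n * (4 * (x * L - C)) ≤
      ∑ i, (A (-(sh n δ x i)) + A (sh n δ x i) + (A (h - sh n δ x i) + A (sh n δ x i - h))) := by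
    calc (n:ℝ) * (4 * (x * L - C)) = ∑ _i : Fin n, 4 * (x * L - C) := by
          rw [Finset.sum_const, Finset.card_univ, Fintype.card_fin, nsmul_eq_mul]
      _ ≤ _ := by
          refine Finset.sum_le_sum fun i _ => ?_
          have g1 := H3 (sh n δ x i) (hshu i)
          have g2 := H3 (-(sh n δ x i)) (by rw [abs_neg]; exact hshu i)
          have g3 := H3 (h - sh n δ x i) (hsd i)
          have g4 := H3 (sh n δ x i - h) (by rw [abs_sub_comm]; exact hsd i)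
          simp only [hA]
          linarith
  have b3 : ∑ i, ∑ j, A (sh n δ x i - sh n δ x j) ≤ n * ((1 - x) * L) + n ^ 2 * (x * L + C) := by
    refine sum_pairs (fun i j => A (sh n δ x i - sh n δ x j)) (by positivity) (fun i => ?_) fun i j hij => ?_
    · simp only [sub_self]
      have g4 : A 0 ≤ L + C := H1
      linarith
    · refine H2 _ ?_ (sh_diff h0 hij)
      have g1 := sh_le (x := x) h0 i
      have g2 := sh_le (x := x) h0 j
      have g3 := sh_pos (x := x) h0 i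
      have g4 := sh_pos (x := x) h0 j
      rw [abs_le]
      constructor <;> nlinarith
  have c1 : k ^ 2 * (2 * A 0 + (A (-h) + A h)) ≤ k ^ 2 * (2 * (L + C) + 2 * (x * L + C)) :=
    mul_le_mul_of_nonneg_left b1 (by positivity)
  have c2 : (-(k ^ 2 / n)) * (∑ i, (A (-(sh n δ x i)) + A (sh n δ x i) + (A (h - sh n δ x i) + A (sh n δ x i - h)))) ≤
      (-(k ^ 2 / n)) * (n * (4 * (x * L - C))) :=
    mul_le_mul_of_nonpos_left b2 (by
      have : 0 ≤ k ^ 2 / n := by positivity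
      linarith)
  have c3 : (k / n) ^ 2 * ∑ i, ∑ j, A (sh n δ x i - sh n δ x j) ≤ (k / n) ^ 2 * (n * ((1 - x) * L) + n ^ 2 * (x * L + C)) :=
    mul_le_mul_of_nonneg_left b3 (by positivity)
  refine (add_le_add (add_le_add c1 c2) c3).trans (le_of_eq ?_)
  field_simp
  ring

/-- the dyadic scales -/
noncomputable def xj (δ : ℝ) (j : ℕ) : ℝ := 1 - j * Real.log 2 / Real.log (1 / δ)

lemma xj_pow {δ : ℝ} (h0 : 0 < δ) (h1 : δ ≤ 1 / 16) (j : ℕ) : δ ^ (xj δ j) = δ * 2 ^ j := by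
  have hL : 0 < Real.log (1 / δ) := lt_of_lt_of_le one_pos (log_inv_ge h0 h1)
  unfold xj
  rw [Real.rpow_sub h0, Real.rpow_one, Real.rpow_def_of_pos h0 (↑j * Real.log 2 / Real.log (1 / δ))]
  have h2 : Real.log δ * (j * Real.log 2 / Real.log (1 / δ)) = -(j * Real.log 2) := by
    have h3 : Real.log (1 / δ) = -Real.log δ := by rw [one_div, Real.log_inv]
    have h4 : Real.log δ ≠ 0 := by
      intro h
      rw [h3, h] at hL
      simp at hL
    rw [h3]
    field_simp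
  rw [h2, Real.exp_neg, div_inv_eq_mul, mul_comm (j:ℝ), ← Real.rpow_def_of_pos (by norm_num), Real.rpow_natCast]

lemma xj_le {δ : ℝ} (h0 : 0 < δ) (h1 : δ ≤ 1 / 16) (j : ℕ) : xj δ j ≤ 1 := by
  have hL : 0 < Real.log (1 / δ) := lt_of_lt_of_le one_pos (log_inv_ge h0 h1)
  unfold xj
  have := Real.log_nonneg (show (1:ℝ) ≤ 2 by norm_num)
  have : 0 ≤ j * Real.log 2 / Real.log (1 / δ) := by positivity
  linarith

/-- the number of the scales -/
noncomputable def JJ (δ : ℝ) : ℕ := ⌊Real.log (1 / δ) / Real.log 2⌋₊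

lemma xj_nn {δ : ℝ} (h0 : 0 < δ) (h1 : δ ≤ 1 / 16) {j : ℕ} (hj : j ≤ JJ δ) : 0 ≤ xj δ j := by
  have hL : 0 < Real.log (1 / δ) := lt_of_lt_of_le one_pos (log_inv_ge h0 h1)
  have hl2 : 0 < Real.log 2 := Real.log_pos (by norm_num)
  unfold xj
  have h2 : (j:ℝ) ≤ Real.log (1 / δ) / Real.log 2 := by
    have h3 : (j:ℝ) ≤ (JJ δ : ℝ) := by exact_mod_cast hj
    exact h3.trans (Nat.floor_le (by positivity))
  rw [le_div_iff₀ hl2] at h2
  have : j * Real.log 2 / Real.log (1 / δ) ≤ 1 := by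
    rw [div_le_one hL]
    exact h2
  linarith

lemma one_sub_xj {δ : ℝ} (h0 : 0 < δ) (h1 : δ ≤ 1 / 16) (j : ℕ) : (1 - xj δ j) * Real.log (1 / δ) = j * Real.log 2 := by
  have hL : 0 < Real.log (1 / δ) := lt_of_lt_of_le one_pos (log_inv_ge h0 h1)
  unfold xj
  field_simp
  ring

lemma JJ_lt {δ : ℝ} (h0 : 0 < δ) : 1 < δ * 2 ^ (JJ δ + 1) := by
  have hl2 : 0 < Real.log 2 := Real.log_pos (by norm_num)
  have h2 := Nat.lt_floor_add_one (Real.log (1 / δ) / Real.log 2)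
  have h3 : Real.log (1 / δ) < Real.log (2 ^ (JJ δ + 1)) := by
    rw [Real.log_pow, ← div_lt_iff₀ hl2]
    unfold JJ
    push_cast
    exact h2
  have h4 := (Real.log_lt_log_iff (by positivity) (by positivity)).1 h3
  rw [div_lt_iff₀ h0] at h4
  linarith

end Run7.h291.WG
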