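import Pool.Agent.Run7.h291.WG.G3

set_option autoImplicit false

/-! The maximum in windows: the weights, upper bounds -/

namespace Run7.h291.WG

open Finset Filter MeasureTheory Topology Complex
open Pool.Agent.N748.MG Pool.Agent.N748.MJ Run7.h291.WN Run7.h291.WL

/-- the local weight at the level `exp y` -/
noncomputable def FS (V : ℝ) (g : ℝ → ℝ) (δ y t : ℝ) : ℝ := WL.sq δ * g (Real.log (mz δ t) - y) * Zk V δ t

lemma FS_cont {V : ℝ} (hV : 0 < V) {g : ℝ → ℝ} (hg : Continuous g) {B : ℝ} (hgB : ∀ x, x ≤ B → g x = 0) {δ : ℝ}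
    (h1 : δ ≤ 1 / 16) (y : ℝ) : Continuous fun t => FS V g δ y t := by
  have h2 := ((FGc hV hg hgB y).comp (TMA.cont h1)).const_mul (WL.sq δ * ((2 * δ) ^ (V ^ 2) / akR V))
  refine h2.congr fun t => ?_
  show WL.sq δ * ((2 * δ) ^ V ^ 2 / akR V) * (g (Real.log (mz δ t) - y) * |mz δ t| ^ (2 * V)) = _
  unfold FS Zk
  rw [abs_of_nonneg (TMA.mz_nn _ _)]
  ring

lemma FS_nn {V : ℝ} {g : ℝ → ℝ} (hg : ∀ x, 0 ≤ g x) {δ : ℝ} (h0 : 0 ≤ δ) (y t : ℝ) : 0 ≤ FS V g δ y t :=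
  mul_nonneg (mul_nonneg (sq_nn _) (hg _)) (Zk_nn h0 t)

/-- the properties of the test function -/
structure TF (g : ℝ → ℝ) (A M : ℝ) : Prop where
  cont : Continuous g
  nn : ∀ x, 0 ≤ g x
  le : ∀ x, g x ≤ M
  supp : ∀ x, A ≤ |x| → g x = 0
  A1 : 1 ≤ A
  M0 : 0 ≤ M

lemma TF.le_inv {g : ℝ → ℝ} {A M : ℝ} (h : TF g A M) (x : ℝ) : g x ≤ M * (1 + A ^ 2) * (1 + x ^ 2)⁻¹ := by
  have h0 := h.M0
  rcases le_or_gt A |x| with hx | hx
  · rw [h.supp x hx]
    positivity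
  · have h1 : x ^ 2 ≤ A ^ 2 := by
      rw [← sq_abs x]
      exact pow_le_pow_left₀ (abs_nonneg x) hx.le 2
    have h2 : 1 ≤ (1 + A ^ 2) * (1 + x ^ 2)⁻¹ := by
      rw [← div_eq_mul_inv, one_le_div (by positivity)]
      linarith
    calc g x ≤ M * 1 := by rw [mul_one]; exact h.le x
      _ ≤ M * ((1 + A ^ 2) * (1 + x ^ 2)⁻¹) := mul_le_mul_of_nonneg_left h2 h0
      _ = _ := by ring

/-- on the support the modulus of zeta is close to `exp y` -/
lemma supp_le {g : ℝ → ℝ} {A M : ℝ} (h : TF g A M) {δ y t : ℝ} (hm : 0 < mz δ t)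
    (hne : g (Real.log (mz δ t) - y) ≠ 0) : mz δ t ≤ Real.exp (y + A) := by
  have h1 : |Real.log (mz δ t) - y| < A := by
    by_contra hc
    push Not at hc
    exact hne (h.supp _ hc)
  have h2 := (abs_lt.1 h1).2
  rw [← Real.exp_log hm]
  exact Real.exp_le_exp.2 (by linarith)

lemma FS_eq_zero {V : ℝ} {g : ℝ → ℝ} {δ y t : ℝ} (h : g (Real.log (mz δ t) - y) = 0) : FS V g δ y t = 0 := by
  unfold FS
  rw [h]
  ring

/-- the value of the local weight is at most `C √L exp (2 V y) δ^(V²)` -/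
lemma FS_up {V : ℝ} (hV : 0 < V) {g : ℝ → ℝ} {A M : ℝ} (h : TF g A M) {δ : ℝ} (h0 : 0 < δ) (y t : ℝ) :
    FS V g δ y t ≤ WL.sq δ * M * ((2 * δ) ^ (V ^ 2) / akR V) * Real.exp (2 * V * (y + A)) := by
  have ha := akp V
  have hM := h.M0
  have h2δ : 0 < (2 * δ) ^ (V ^ 2) := Real.rpow_pos_of_pos (by linarith) _
  by_cases hne : g (Real.log (mz δ t) - y) = 0
  · rw [FS_eq_zero hne]
    have := sq_nn δ
    positivity
  rcases (TMA.mz_nn δ t).eq_or_lt with hm | hm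
  · unfold FS Zk
    rw [← hm, Real.zero_rpow (by positivity)]
    have := sq_nn δ
    rw [mul_zero, mul_zero]
    positivity
  · unfold FS Zk
    have h3 : mz δ t ^ (2 * V) ≤ Real.exp (2 * V * (y + A)) := by
      have h4 := Real.rpow_le_rpow hm.le (supp_le h hm hne) (show 0 ≤ 2 * V by positivity)
      rw [← Real.exp_mul] at h4
      refine h4.trans (le_of_eq ?_)
      congr 1
      ring
    calc WL.sq δ * g (Real.log (mz δ t) - y) * ((2 * δ) ^ V ^ 2 / akR V * mz δ t ^ (2 * V)) ≤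
        WL.sq δ * M * ((2 * δ) ^ V ^ 2 / akR V * Real.exp (2 * V * (y + A))) := by
          refine mul_le_mul (mul_le_mul_of_nonneg_left (h.le _) (sq_nn _)) (mul_le_mul_of_nonneg_left h3 (by positivity))
            (mul_nonneg (by positivity) (Real.rpow_nonneg hm.le _)) (mul_nonneg (sq_nn _) hM)
      _ = _ := by ring

/-- the exponent of the trivial bound -/
noncomputable def WW (V : ℝ) : ℝ := 2 * V ^ 2 + 2 * V + 2

lemma FS_bd {V : ℝ} (hV : 0 < V) {g : ℝ → ℝ} {A M : ℝ} (h : TF g A M) : Ev fun _ δ =>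
    ∀ y t : ℝ, y ≤ (V + 1) * Real.log (1 / δ) → FS V g δ y t ≤ δ ^ (-(WW V)) := by
  have ha := akp V
  have hM := h.M0
  have hpi := Real.pi_pos
  refine (Ev.small (C := (Real.pi + 1) * M * (2 ^ (V ^ 2) / akR V) * Real.exp (2 * V * A)) (c := 1) one_pos one_pos).mono ?_
  intro X δ _ h0 h1 hs y t hy
  refine (FS_up hV h h0 y t).trans ?_
  have h2 := sq_le h0 h1 (c := 1) one_pos
  rw [div_one] at h2
  have h3 : Real.exp (2 * V * (y + A)) ≤ Real.exp (2 * V * A) * δ ^ (-(2 * V * (V + 1))) := by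
    rw [← expL h0, ← Real.exp_add]
    refine Real.exp_le_exp.2 ?_
    nlinarith
  have h4 : (2 * δ) ^ (V ^ 2) ≤ 2 ^ (V ^ 2) * 1 := by
    rw [Real.mul_rpow (by norm_num) h0.le]
    exact mul_le_mul_of_nonneg_left (Real.rpow_le_one h0.le (by linarith) (by positivity)) (by positivity)
  rw [mul_one] at h4
  have h5 : 0 < δ ^ (-(2 * V * (V + 1))) := Real.rpow_pos_of_pos h0 _
  have h6 : 0 < δ ^ (-(1:ℝ)) := Real.rpow_pos_of_pos h0 _
  have h7 : 0 < (2 * δ) ^ (V ^ 2) := Real.rpow_pos_of_pos (by linarith) _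
  calc WL.sq δ * M * ((2 * δ) ^ (V ^ 2) / akR V) * Real.exp (2 * V * (y + A)) ≤
      ((Real.pi + 1) * δ ^ (-(1:ℝ))) * M * (2 ^ (V ^ 2) / akR V) * (Real.exp (2 * V * A) * δ ^ (-(2 * V * (V + 1)))) := by
        gcongr
    _ = ((Real.pi + 1) * M * (2 ^ (V ^ 2) / akR V) * Real.exp (2 * V * A) * δ ^ (1:ℝ)) * δ ^ (-(WW V)) := by
        have e1 : δ ^ (1:ℝ) * δ ^ (-(WW V)) = δ ^ (-(1:ℝ)) * δ ^ (-(2 * V * (V + 1))) := by
          rw [← Real.rpow_add h0, ← Real.rpow_add h0]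
          congr 1
          unfold WW
          ring
        calc _ = ((Real.pi + 1) * M * (2 ^ (V ^ 2) / akR V) * Real.exp (2 * V * A)) * (δ ^ (-(1:ℝ)) * δ ^ (-(2 * V * (V + 1)))) := by ring
          _ = _ := by
            rw [← e1]
            ring
    _ ≤ 1 * δ ^ (-(WW V)) := mul_le_mul_of_nonneg_right hs (Real.rpow_nonneg h0.le _)
    _ = _ := one_mul _

lemma sq_L {δ : ℝ} (h0 : 0 < δ) (h1 : δ ≤ 1 / 16) : WL.sq δ ≤ √Real.pi * √(Real.log (1 / δ)) := by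
  have hpi := Real.pi_pos
  unfold WL.sq
  rw [← Real.sqrt_mul hpi.le]
  refine Real.sqrt_le_sqrt (mul_le_mul_of_nonneg_left (Real.log_le_log (by positivity) ?_) hpi.le)
  rw [div_le_div_iff₀ (by positivity) h0]
  linarith

/-- the constant in front of the barrier -/
noncomputable def kb (V η K δ y : ℝ) : ℝ := K⁻¹ * Real.exp (V * Real.log (1 / δ) - y) * δ ^ η

lemma kb_pos {V η K δ y : ℝ} (h0 : 0 < δ) (hK : 0 < K) : 0 < kb V η K δ y := by
  unfold kb
  have := Real.rpow_pos_of_pos h0 η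
  positivity

lemma kb_rpow {V η K δ y a : ℝ} (h0 : 0 < δ) (hK : 0 < K) : kb V η K δ y ^ a =
    K ^ (-a) * (δ ^ (-(V * a)) * Real.exp (-(a * y))) * δ ^ (η * a) := by
  unfold kb
  have h2 := Real.rpow_pos_of_pos h0 η
  rw [Real.mul_rpow (by positivity) h2.le, Real.mul_rpow (by positivity) (Real.exp_pos _).le, Real.inv_rpow hK.le,
    ← Real.rpow_neg hK.le, ← Real.rpow_mul h0.le, ← Real.exp_mul, ← expL h0, ← Real.exp_add]
  congr 3
  ring

end Run7.h291.WG
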