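import Pool.Agent.Run7.h291.WG.G4

set_option autoImplicit false

/-! The maximum in windows: the loss by the barrier, and pairs of large values -/

namespace Run7.h291.WG

open Finset Filter MeasureTheory Topology Complex
open Pool.Agent.N748.MG Pool.Agent.N748.MJ Run7.h291.WN Run7.h291.WL

lemma G_kT (n : ℕ) (k g δ x t : ℝ) : SM.G (kT n k g) (hT n δ x) δ t =
    mz δ t ^ (2 * k) * ∏ j : Fin n, mz δ (t + sh n δ x j) ^ (2 * (g / n)) := by
  unfold SM.G kT hT
  simp only [Fin.prod_univ_succ, Fin.cons_zero, Fin.cons_succ, add_zero]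

lemma sqL_div {δ : ℝ} (h0 : 0 < δ) (h1 : δ ≤ 1 / 16) (x : ℝ) (hx : 0 ≤ x) :
    WL.sq δ * (x / √(Real.log (1 / δ))) ≤ √Real.pi * x := by
  have hL : 0 < Real.log (1 / δ) := lt_of_lt_of_le one_pos (log_inv_ge h0 h1)
  have h2 := mul_le_mul_of_nonneg_right (sq_L h0 h1) (show 0 ≤ x / √(Real.log (1 / δ)) by positivity)
  refine h2.trans (le_of_eq ?_)
  have : 0 < √(Real.log (1 / δ)) := Real.sqrt_pos.2 hL
  field_simp

/-- (N3) the loss by the barrier -/
theorem loss (n : ℕ) (hn : 1 ≤ n) {V η : ℝ} (hV : 0 < V) (hη : 0 < η) (hηV : η ≤ 2 * V) {g : ℝ → ℝ} {A M : ℝ}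
    (hg : TF g A M) : ∃ C : ℝ, 0 < C ∧ Ev fun X δ => ∀ x y K : ℝ, 0 ≤ x → x ≤ 1 → y ≤ (V + 1) * Real.log (1 / δ) → 1 ≤ K →
    ∫ t in (0:ℝ)..X, FS V g δ y t * (1 - psi (kb V η K δ y * bar n (V - η) δ x t)) ≤
      (C * K ^ (-η) * δ ^ (η ^ 2 / 2 * (1 - x)) + δ ^ (2:ℝ)) * X := by
  have ha := akp V
  have hM := hg.M0
  have hA1 := hg.A1
  have hn0 : (0:ℝ) < n := by exact_mod_cast hn
  have hn1 : (1:ℝ) ≤ n := by exact_mod_cast hn
  set g1 : ℝ := η / 2 with hg1
  have hg10 : 0 < g1 := by positivity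
  obtain ⟨C1, H1⟩ := Lr_tilt2 n hn V g1 hg10.le (by linarith)
  obtain ⟨C2, hC2, HL⟩ := lt n V (WW V + 2) hV (by unfold WW; positivity)
  set Ct : ℝ := √Real.pi * M * (1 + A ^ 2) * (2 ^ (V ^ 2) / akR V) * Real.exp (η * A) * C2 * Real.exp C1 + 1 with hCt
  have hCt0 : 0 < Ct := by positivity
  have hX : ∀ᶠ X : ℝ in atTop, ((n:ℝ) + 2) ≤ X ^ ((1:ℝ) / 2) :=
    (tendsto_rpow_atTop (by norm_num)).eventually_ge_atTop _
  refine ⟨Ct, hCt0, ((HL.and (Ev.of_ev hX)).and (FS_bd hV hg)).mono ?_⟩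
  rintro X δ hX1 h0 h1 ⟨⟨HL, hX2⟩, hFB⟩ x y K hx0 hx1 hy hK
  have hX0 : 0 < X := by linarith
  have hK0 : 0 < K := by linarith
  set L := Real.log (1 / δ) with hLd
  have hp := Real.rpow_pos_of_pos h0 x
  have hx1' : δ ^ x ≤ 1 := Real.rpow_le_one h0.le (by linarith) hx0
  obtain ⟨N, n1, n2, n3, n4, n5⟩ := HL (hT n δ x) (by
    intro j
    refine le_trans ?_ hX2
    unfold hT
    refine Fin.cases ?_ (fun j => ?_) j
    · rw [Fin.cons_zero, abs_zero]
      positivity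
    · rw [Fin.cons_succ, abs_of_pos (sh_pos h0 j)]
      have := sh_le (x := x) h0 j
      nlinarith)
  obtain ⟨H, hHi, hHl, hHb⟩ := n5 (kT n (V - g1) g1) (by
    intro j
    unfold kT
    refine Fin.cases ?_ (fun j => ?_) j
    · rw [Fin.cons_zero, abs_of_nonneg (by linarith)]
      linarith
    · rw [Fin.cons_succ, abs_of_pos (by positivity)]
      exact (div_le_self hg10.le hn1).trans (by linarith)) y
  have hLr := H1 δ h0 h1 x hx0 hx1
  have hmz0 : ∀ t ∈ N, 0 < mz δ t := fun t ht => by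
    have := n4 t ht 0
    unfold hT at this
    rwa [Fin.cons_zero, add_zero] at this
  have hmz : ∀ t ∈ N, ∀ j : Fin n, 0 < mz δ (t + sh n δ x j) := by
    intro t ht j
    have := n4 t ht (Fin.succ j)
    unfold hT at this
    rwa [Fin.cons_succ] at this
  set c0 : ℝ := (2 * δ) ^ (V ^ 2) / akR V with hc0
  have hc0p : 0 < c0 := div_pos (Real.rpow_pos_of_pos (by linarith) _) ha
  have hκ := kb_pos (V := V) (η := η) (y := y) h0 hK0
  set κ := kb V η K δ y with hκd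
  set cc : ℝ := WL.sq δ * (M * (1 + A ^ 2)) * c0 * Real.exp (η * (y + A)) * (κ ^ η * δ ^ (x * (V - η) * η)) with hcc
  have hsq := sq_nn δ
  have hcc0 : 0 ≤ cc := by
    have := Real.rpow_pos_of_pos hκ η
    have := Real.rpow_pos_of_pos h0 (x * (V - η) * η)
    positivity
  have hbarc : Continuous fun t => bar n (V - η) δ x t := bar_cont h1
  have hoff := offN (g := fun t => FS V g δ y t * (1 - psi (κ * bar n (V - η) δ x t))) (G := H) (N := N) (X := X)
    (B := δ ^ (-(WW V))) (c := cc) (v := δ ^ (WW V + 2) * X) hX0.le n1 n2 n3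
    (mul_nonneg (Real.rpow_nonneg h0.le _) hX0.le)
    ((FS_cont hV hg.cont (B := -A) (fun x hx => hg.supp x (by rw [abs_of_nonpos (by linarith)]; linarith)) h1 y).mul
      (continuous_const.sub (psi_cont.comp (continuous_const.mul hbarc))))
    (fun t => mul_nonneg (FS_nn hg.nn h0.le _ _) (by linarith [psi_le (κ * bar n (V - η) δ x t)]))
    (fun t => by
      refine (mul_le_of_le_one_right (FS_nn hg.nn h0.le _ _) ?_).trans (hFB y t hy)
      linarith [psi_nn (κ * bar n (V - η) δ x t)])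
    hHi (fun t ht => by
      refine le_trans ?_ (mul_le_mul_of_nonneg_left (hHl t ht) hcc0)
      by_cases hne : g (Real.log (mz δ t) - y) = 0
      · rw [FS_eq_zero hne, zero_mul]
        have := SM.G_nn (kT n (V - g1) g1) (hT n δ x) δ t
        positivity
      have hm := hmz0 t ht
      have hbp : 0 < bar n (V - η) δ x t := mul_pos (Real.rpow_pos_of_pos h0 _)
        (Finset.prod_pos fun j _ => Real.rpow_pos_of_pos (hmz t ht j) _)
      have e1 : 1 - psi (κ * bar n (V - η) δ x t) ≤ κ ^ η * (δ ^ (x * (V - η) * η) *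
          ∏ j : Fin n, mz δ (t + sh n δ x j) ^ (η / n)) := by
        refine (psi_lo (mul_pos hκ hbp).le hη.le).trans (le_of_eq ?_)
        rw [Real.mul_rpow hκ.le hbp.le, bar_rpow h0 (hmz t ht)]
      have e2 : mz δ t ^ (2 * V) ≤ mz δ t ^ (2 * (V - g1)) * Real.exp (η * (y + A)) := by
        have e3 : mz δ t ^ (2 * V) = mz δ t ^ (2 * (V - g1)) * mz δ t ^ η := by
          rw [← Real.rpow_add hm]
          congr 1
          rw [hg1]
          ring
        rw [e3]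
        refine mul_le_mul_of_nonneg_left ?_ (Real.rpow_nonneg hm.le _)
        have h4 := Real.rpow_le_rpow hm.le (supp_le hg hm hne) hη.le
        rw [← Real.exp_mul] at h4
        refine h4.trans (le_of_eq ?_)
        congr 1
        ring
      have e4 : FS V g δ y t ≤ WL.sq δ * (M * (1 + A ^ 2) * (1 + (Real.log (mz δ t) - y) ^ 2)⁻¹) *
          (c0 * (mz δ t ^ (2 * (V - g1)) * Real.exp (η * (y + A)))) := by
        unfold FS Zk
        refine mul_le_mul (mul_le_mul_of_nonneg_left (hg.le_inv _) hsq) (mul_le_mul_of_nonneg_left e2 hc0p.le)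
          (mul_nonneg hc0p.le (Real.rpow_nonneg hm.le _)) (by positivity)
      have hprod : 0 ≤ ∏ j : Fin n, mz δ (t + sh n δ x j) ^ (η / n) :=
        Finset.prod_nonneg fun j _ => Real.rpow_nonneg (hmz t ht j).le _
      have h5 : hT n δ x 0 = 0 := rfl
      refine (mul_le_mul e4 e1 (by linarith [psi_le (κ * bar n (V - η) δ x t)]) ?_).trans (le_of_eq ?_)
      · have := Real.rpow_nonneg hm.le (2 * (V - g1))
        positivity
      · rw [G_kT, h5, add_zero, hcc]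
        have e6 : ∀ j : Fin n, mz δ (t + sh n δ x j) ^ (η / n) = mz δ (t + sh n δ x j) ^ (2 * (g1 / n)) := by
          intro j
          congr 1
          rw [hg1]
          ring
        rw [Finset.prod_congr rfl fun j _ => e6 j]
        ring)
  refine hoff.trans ?_
  have f1 : δ ^ (-(WW V)) * (δ ^ (WW V + 2) * X) = δ ^ (2:ℝ) * X := by
    rw [← mul_assoc, ← Real.rpow_add h0]
    congr 2
    ring
  rw [f1, add_mul]
  refine add_le_add ?_ le_rfl
  have f2 : cc * (∫ t in N, H t) ≤ cc * (C2 * (X * (Real.exp (SM.Lr (kT n (V - g1) g1) (hT n δ x) δ) / √L))) :=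
    mul_le_mul_of_nonneg_left hHb hcc0
  refine f2.trans ?_
  have f3 : Real.exp (SM.Lr (kT n (V - g1) g1) (hT n δ x) δ) ≤ Real.exp C1 *
      δ ^ (-(V ^ 2 - (2 * V * g1 - g1 ^ 2 - g1 ^ 2 / n) * (1 - x))) := by
    rw [← expL h0, ← Real.exp_add]
    exact Real.exp_le_exp.2 (by linarith)
  set E := Real.exp (SM.Lr (kT n (V - g1) g1) (hT n δ x) δ) with hE
  have hE0 : 0 < E := Real.exp_pos _
  have f4 := sqL_div h0 h1 E hE0.le
  have f5 : κ ^ η = K ^ (-η) * (δ ^ (-(V * η)) * Real.exp (-(η * y))) * δ ^ (η * η) := kb_rpow h0 hK0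
  have f6 : c0 = 2 ^ (V ^ 2) / akR V * δ ^ (V ^ 2) := by
    rw [hc0, Real.mul_rpow (by norm_num) h0.le]
    ring
  have f7 : Real.exp (η * (y + A)) = Real.exp (η * A) * Real.exp (η * y) := by
    rw [← Real.exp_add]
    congr 1
    ring
  have f8 : Real.exp (η * y) * Real.exp (-(η * y)) = 1 := by
    rw [← Real.exp_add, add_neg_cancel, Real.exp_zero]
  set P : ℝ := δ ^ (η ^ 2 / 2 * (1 - x)) with hP
  have hP0 : 0 < P := Real.rpow_pos_of_pos h0 _
  have f9 : δ ^ (V ^ 2) * δ ^ (-(V * η)) * δ ^ (η * η) * δ ^ (x * (V - η) * η) *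
      δ ^ (-(V ^ 2 - (2 * V * g1 - g1 ^ 2 - g1 ^ 2 / n) * (1 - x))) ≤ P := by
    rw [← Real.rpow_add h0, ← Real.rpow_add h0, ← Real.rpow_add h0, ← Real.rpow_add h0, hP]
    refine Real.rpow_le_rpow_of_exponent_ge h0 (by linarith) ?_
    have h2 : g1 ^ 2 / n ≤ g1 ^ 2 := div_le_self (sq_nonneg _) hn1
    have h3 : 0 ≤ 1 - x := by linarith
    have e1 : V ^ 2 + -(V * η) + η * η + x * (V - η) * η + -(V ^ 2 - (2 * V * g1 - g1 ^ 2 - g1 ^ 2 / n) * (1 - x)) =
        (η ^ 2 - g1 ^ 2 - g1 ^ 2 / n) * (1 - x) := by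
      rw [hg1]
      ring
    rw [e1]
    refine mul_le_mul_of_nonneg_right ?_ h3
    rw [hg1] at h2 ⊢
    nlinarith
  have hK' : 0 < K ^ (-η) := Real.rpow_pos_of_pos hK0 _
  have hsqE : WL.sq δ * (E / √L) ≤ √Real.pi * (Real.exp C1 *
      δ ^ (-(V ^ 2 - (2 * V * g1 - g1 ^ 2 - g1 ^ 2 / n) * (1 - x)))) :=
    f4.trans (mul_le_mul_of_nonneg_left f3 (Real.sqrt_nonneg _))
  have q1 := Real.rpow_pos_of_pos h0 (V ^ 2)
  have q2 := Real.rpow_pos_of_pos h0 (-(V * η))
  have q3 := Real.rpow_pos_of_pos h0 (η * η)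
  have q4 := Real.rpow_pos_of_pos h0 (x * (V - η) * η)
  set Q : ℝ := M * (1 + A ^ 2) * (2 ^ (V ^ 2) / akR V) * Real.exp (η * A) * K ^ (-η) * C2 * X with hQ
  have hQ0 : 0 ≤ Q := by positivity
  calc cc * (C2 * (X * (E / √L))) = Q * (Real.exp (η * y) * Real.exp (-(η * y))) *
        (δ ^ (V ^ 2) * δ ^ (-(V * η)) * δ ^ (η * η) * δ ^ (x * (V - η) * η)) * (WL.sq δ * (E / √L)) := by
        rw [hcc, f5, f6, f7, hQ]
        ring
    _ = Q * ((δ ^ (V ^ 2) * δ ^ (-(V * η)) * δ ^ (η * η) * δ ^ (x * (V - η) * η)) * (WL.sq δ * (E / √L))) := by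
        rw [f8]
        ring
    _ ≤ Q * ((δ ^ (V ^ 2) * δ ^ (-(V * η)) * δ ^ (η * η) * δ ^ (x * (V - η) * η)) * (√Real.pi * (Real.exp C1 *
      δ ^ (-(V ^ 2 - (2 * V * g1 - g1 ^ 2 - g1 ^ 2 / n) * (1 - x)))))) :=
        mul_le_mul_of_nonneg_left (mul_le_mul_of_nonneg_left hsqE (by positivity)) hQ0
    _ = Q * (√Real.pi * Real.exp C1) * (δ ^ (V ^ 2) * δ ^ (-(V * η)) * δ ^ (η * η) * δ ^ (x * (V - η) * η) *
      δ ^ (-(V ^ 2 - (2 * V * g1 - g1 ^ 2 - g1 ^ 2 / n) * (1 - x)))) := by ring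
    _ ≤ Q * (√Real.pi * Real.exp C1) * P := mul_le_mul_of_nonneg_left f9 (by positivity)
    _ = (Ct - 1) * K ^ (-η) * P * X := by
        rw [hQ, hCt]
        ring
    _ ≤ Ct * K ^ (-η) * P * X := by
        refine mul_le_mul_of_nonneg_right (mul_le_mul_of_nonneg_right (mul_le_mul_of_nonneg_right ?_ hK'.le) hP0.le) hX0.le
        linarith

end Run7.h291.WG
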