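import Pool.Agent.Run7.h291.WG.G5

set_option autoImplicit false

/-! The maximum in windows: pairs of large values, and the first moment, upper bounds -/

namespace Run7.h291.WG

open Finset Filter MeasureTheory Topology Complex
open Pool.Agent.N748.MG Pool.Agent.N748.MJ Run7.h291.WN Run7.h291.WL Run7.h651.WN

lemma FS_zero_of {V : ℝ} (hV : 0 < V) {g : ℝ → ℝ} {δ y t : ℝ} (h : mz δ t = 0) : FS V g δ y t = 0 := by
  unfold FS Zk
  rw [h, Real.zero_rpow (by positivity), mul_zero, mul_zero]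

lemma sq_sq_div {δ : ℝ} (h0 : 0 < δ) (h1 : δ ≤ 1 / 16) : WL.sq δ ^ 2 / √(Real.log (1 / δ)) ≤ Real.pi * √(Real.log (1 / δ)) := by
  have hL : 0 < Real.log (1 / δ) := lt_of_lt_of_le one_pos (log_inv_ge h0 h1)
  have hpi := Real.pi_pos
  have h2 := pow_le_pow_left₀ (sq_nn δ) (sq_L h0 h1) 2
  rw [mul_pow, Real.sq_sqrt hpi.le, Real.sq_sqrt hL.le] at h2
  have hs : 0 < √(Real.log (1 / δ)) := Real.sqrt_pos.2 hL
  rw [div_le_iff₀ hs, mul_assoc, Real.mul_self_sqrt hL.le]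
  exact h2

/-- (N4) pairs of large values below the barrier -/
theorem pair (n : ℕ) (hn : 1 ≤ n) {V η : ℝ} (hV : 0 < V) (hη : 0 < η) {g : ℝ → ℝ} {A M : ℝ}
    (hg : TF g A M) : ∃ C : ℝ, 0 < C ∧ Ev fun X δ => ∀ x y K h : ℝ, 0 ≤ x → x ≤ 1 → y ≤ (V + 1) * Real.log (1 / δ) → 1 ≤ K →
    δ ^ x ≤ h → h ≤ 2 * δ ^ x →
    ∫ t in (0:ℝ)..X, FS V g δ y t * FS V g δ y (t + h) * psi (kb V η K δ y * bar n (V - η) δ x t) ≤
      (C * K ^ (2 * V) * (√(Real.log (1 / δ)) * Real.exp (2 * V * y) * δ ^ (V ^ 2)) *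
        δ ^ ((1 - x) * (V ^ 2 - V ^ 2 / n - 2 * V * η)) + δ ^ (2:ℝ)) * X := by
  have ha := akp V
  have hM := hg.M0
  have hA1 := hg.A1
  have hpi := Real.pi_pos
  have hn0 : (0:ℝ) < n := by exact_mod_cast hn
  have hn1 : (1:ℝ) ≤ n := by exact_mod_cast hn
  obtain ⟨C1, H1⟩ := Lr_pair n hn V
  have hWW : 0 < WW V := by unfold WW; positivity
  obtain ⟨C2, hC2, HL⟩ := lt (n + 1) V (2 * WW V + 2) hV (by positivity)
  set Ct : ℝ := Real.pi * (M * (1 + A ^ 2)) * M * (2 ^ (V ^ 2) / akR V) ^ 2 * 2 ^ (2 * V) * C2 * Real.exp C1 + 1 with hCt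
  have hCt0 : 0 < Ct := by positivity
  have hX : ∀ᶠ X : ℝ in atTop, ((n:ℝ) + 2) ≤ X ^ ((1:ℝ) / 2) :=
    (tendsto_rpow_atTop (by norm_num)).eventually_ge_atTop _
  refine ⟨Ct, hCt0, ((HL.and (Ev.of_ev hX)).and (FS_bd hV hg)).mono ?_⟩
  rintro X δ hX1 h0 h1 ⟨⟨HL, hX2⟩, hFB⟩ x y K h hx0 hx1 hy hK hh1 hh2
  have hX0 : 0 < X := by linarith
  have hK0 : 0 < K := by linarith
  set L := Real.log (1 / δ) with hLd
  have hp := Real.rpow_pos_of_pos h0 x
  have hh0 : 0 < h := by linarith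
  have hx1' : δ ^ x ≤ 1 := Real.rpow_le_one h0.le (by linarith) hx0
  obtain ⟨N, n1, n2, n3, n4, n5⟩ := HL (hN n δ x h) (by
    intro j
    refine le_trans ?_ hX2
    unfold hN
    refine Fin.cases ?_ (fun j => ?_) j
    · rw [Fin.cons_zero, abs_zero]
      positivity
    · refine Fin.cases ?_ (fun j => ?_) j
      · rw [Fin.cons_succ, Fin.cons_zero, abs_of_pos hh0]
        linarith
      · rw [Fin.cons_succ, Fin.cons_succ, abs_of_pos (sh_pos h0 j)]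
        have := sh_le (x := x) h0 j
        nlinarith)
  obtain ⟨H, hHi, hHl, hHb⟩ := n5 (kN n V) (by
    intro j
    unfold kN
    refine Fin.cases ?_ (fun j => ?_) j
    · rw [Fin.cons_zero, abs_of_pos hV]
    · refine Fin.cases ?_ (fun j => ?_) j
      · rw [Fin.cons_succ, Fin.cons_zero, abs_of_pos hV]
      · rw [Fin.cons_succ, Fin.cons_succ, abs_neg, abs_of_pos (by positivity)]
        exact div_le_self hV.le hn1) y
  have hLr := H1 δ h0 h1 x h hx0 hx1 hh1 hh2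
  have hmz0 : ∀ t ∈ N, 0 < mz δ t := fun t ht => by
    have := n4 t ht 0
    unfold hN at this
    rwa [Fin.cons_zero, add_zero] at this
  have hmz1 : ∀ t ∈ N, 0 < mz δ (t + h) := fun t ht => by
    have := n4 t ht 1
    unfold hN at this
    rwa [show (1 : Fin (n + 2)) = Fin.succ 0 from rfl, Fin.cons_succ, Fin.cons_zero] at this
  have hmz : ∀ t ∈ N, ∀ j : Fin n, 0 < mz δ (t + sh n δ x j) := by
    intro t ht j
    have := n4 t ht (Fin.succ (Fin.succ j))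
    unfold hN at this
    rwa [Fin.cons_succ, Fin.cons_succ] at this
  set c0 : ℝ := (2 * δ) ^ (V ^ 2) / akR V with hc0
  have hc0p : 0 < c0 := div_pos (Real.rpow_pos_of_pos (by linarith) _) ha
  have hκ := kb_pos (V := V) (η := η) (y := y) h0 hK0
  set κ := kb V η K δ y with hκd
  have hsq := sq_nn δ
  set cc : ℝ := WL.sq δ ^ 2 * ((M * (1 + A ^ 2)) * M) * c0 ^ 2 * (2 ^ (2 * V) * (κ ^ (-(2 * V)) * δ ^ (x * (V - η) * (-(2 * V))))) with hcc
  have hcc0 : 0 ≤ cc := by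
    have := Real.rpow_pos_of_pos hκ (-(2 * V))
    have := Real.rpow_pos_of_pos h0 (x * (V - η) * (-(2 * V)))
    positivity
  have hbarc : Continuous fun t => bar n (V - η) δ x t := bar_cont h1
  have hFc := FS_cont hV hg.cont (B := -A) (fun x hx => hg.supp x (by rw [abs_of_nonpos (by linarith)]; linarith)) h1 y
  have hoff := offN (g := fun t => FS V g δ y t * FS V g δ y (t + h) * psi (κ * bar n (V - η) δ x t)) (G := H) (N := N) (X := X)
    (B := δ ^ (-(WW V)) * δ ^ (-(WW V))) (c := cc) (v := δ ^ (2 * WW V + 2) * X) hX0.le n1 n2 n3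
    (mul_nonneg (Real.rpow_nonneg h0.le _) hX0.le)
    ((hFc.mul (hFc.comp (by fun_prop))).mul (psi_cont.comp (continuous_const.mul hbarc)))
    (fun t => mul_nonneg (mul_nonneg (FS_nn hg.nn h0.le _ _) (FS_nn hg.nn h0.le _ _)) (psi_nn _))
    (fun t => by
      refine (mul_le_of_le_one_right (mul_nonneg (FS_nn hg.nn h0.le _ _) (FS_nn hg.nn h0.le _ _)) (psi_le _)).trans ?_
      exact mul_le_mul (hFB y t hy) (hFB y _ hy) (FS_nn hg.nn h0.le _ _) (Real.rpow_nonneg h0.le _))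
    hHi (fun t ht => by
      refine le_trans ?_ (mul_le_mul_of_nonneg_left (hHl t ht) hcc0)
      have hm := hmz0 t ht
      have hm1 := hmz1 t ht
      have hbp : 0 < bar n (V - η) δ x t := mul_pos (Real.rpow_pos_of_pos h0 _)
        (Finset.prod_pos fun j _ => Real.rpow_pos_of_pos (hmz t ht j) _)
      have e1 : psi (κ * bar n (V - η) δ x t) ≤ 2 ^ (2 * V) * (κ ^ (-(2 * V)) * (δ ^ (x * (V - η) * (-(2 * V))) *
          ∏ j : Fin n, mz δ (t + sh n δ x j) ^ (2 * (-(V / n))))) := by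
        refine (psi_up (mul_pos hκ hbp) (show 0 ≤ 2 * V by positivity)).trans (le_of_eq ?_)
        rw [Real.mul_rpow hκ.le hbp.le, bar_rpow h0 (hmz t ht)]
        have e2 : ∀ j : Fin n, mz δ (t + sh n δ x j) ^ (-(2 * V) / n) = mz δ (t + sh n δ x j) ^ (2 * (-(V / n))) := by
          intro j
          congr 1
          ring
        rw [Finset.prod_congr rfl fun j _ => e2 j]
      have e4 : FS V g δ y t ≤ WL.sq δ * (M * (1 + A ^ 2) * (1 + (Real.log (mz δ t) - y) ^ 2)⁻¹) *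
          (c0 * mz δ t ^ (2 * V)) := by
        unfold FS Zk
        exact mul_le_mul_of_nonneg_right (mul_le_mul_of_nonneg_left (hg.le_inv _) hsq)
          (mul_nonneg hc0p.le (Real.rpow_nonneg hm.le _))
      have e5 : FS V g δ y (t + h) ≤ WL.sq δ * M * (c0 * mz δ (t + h) ^ (2 * V)) := by
        unfold FS Zk
        exact mul_le_mul_of_nonneg_right (mul_le_mul_of_nonneg_left (hg.le _) hsq)
          (mul_nonneg hc0p.le (Real.rpow_nonneg hm1.le _))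
      have hprod : 0 ≤ ∏ j : Fin n, mz δ (t + sh n δ x j) ^ (2 * (-(V / n))) :=
        Finset.prod_nonneg fun j _ => Real.rpow_nonneg (hmz t ht j).le _
      have h5 : hN n δ x h 0 = 0 := rfl
      have g1 := Real.rpow_nonneg hm.le (2 * V)
      have g2 := Real.rpow_nonneg hm1.le (2 * V)
      refine (mul_le_mul (mul_le_mul e4 e5 (FS_nn hg.nn h0.le _ _) (by positivity)) e1 (psi_nn _) (by positivity)).trans
        (le_of_eq ?_)
      rw [G_kN, h5, add_zero, hcc]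
      ring)
  refine hoff.trans ?_
  have f1 : δ ^ (-(WW V)) * δ ^ (-(WW V)) * (δ ^ (2 * WW V + 2) * X) = δ ^ (2:ℝ) * X := by
    rw [← mul_assoc, ← Real.rpow_add h0, ← Real.rpow_add h0]
    congr 2
    ring
  rw [f1, add_mul]
  refine add_le_add ?_ le_rfl
  set E := Real.exp (SM.Lr (kN n V) (hN n δ x h) δ) with hE
  have hE0 : 0 < E := Real.exp_pos _
  have f2 : cc * (∫ t in N, H t) ≤ cc * (C2 * (X * (E / √L))) := mul_le_mul_of_nonneg_left hHb hcc0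
  refine f2.trans ?_
  have f3 : E ≤ Real.exp C1 * δ ^ (-(V ^ 2 + V ^ 2 * (1 + 1 / n) * (1 - x))) := by
    rw [← expL h0, ← Real.exp_add]
    exact Real.exp_le_exp.2 (by linarith)
  have f4 := sq_sq_div h0 h1
  have f5 : κ ^ (-(2 * V)) = K ^ (2 * V) * (δ ^ (2 * V ^ 2) * Real.exp (2 * V * y)) * δ ^ (-(2 * V * η)) := by
    rw [hκd, kb_rpow h0 hK0]
    have e1 : -(-(2 * V)) = 2 * V := by ring
    have e2 : -(V * -(2 * V)) = 2 * V ^ 2 := by ring
    have e3 : -(-(2 * V) * y) = 2 * V * y := by ring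
    have e4 : η * -(2 * V) = -(2 * V * η) := by ring
    rw [e1, e2, e3, e4]
  have f6 : c0 = 2 ^ (V ^ 2) / akR V * δ ^ (V ^ 2) := by
    rw [hc0, Real.mul_rpow (by norm_num) h0.le]
    ring
  set P : ℝ := δ ^ ((1 - x) * (V ^ 2 - V ^ 2 / n - 2 * V * η)) with hP
  have hP0 : 0 < P := Real.rpow_pos_of_pos h0 _
  have q1 := Real.rpow_pos_of_pos h0 (V ^ 2)
  have q2 := Real.rpow_pos_of_pos h0 (2 * V ^ 2)
  have q3 := Real.rpow_pos_of_pos h0 (-(2 * V * η))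
  have q4 := Real.rpow_pos_of_pos h0 (x * (V - η) * (-(2 * V)))
  have q5 := Real.rpow_pos_of_pos h0 (-(V ^ 2 + V ^ 2 * (1 + 1 / n) * (1 - x)))
  have f9 : δ ^ (V ^ 2) * δ ^ (V ^ 2) * δ ^ (2 * V ^ 2) * δ ^ (-(2 * V * η)) * δ ^ (x * (V - η) * (-(2 * V))) *
      δ ^ (-(V ^ 2 + V ^ 2 * (1 + 1 / n) * (1 - x))) = δ ^ (V ^ 2) * P := by
    rw [← Real.rpow_add h0, ← Real.rpow_add h0, ← Real.rpow_add h0, ← Real.rpow_add h0, ← Real.rpow_add h0, hP,
      ← Real.rpow_add h0]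
    congr 1
    ring
  have hK' : 0 < K ^ (2 * V) := Real.rpow_pos_of_pos hK0 _
  have hsqE : WL.sq δ ^ 2 * (E / √L) ≤ (Real.pi * √L) * (Real.exp C1 * δ ^ (-(V ^ 2 + V ^ 2 * (1 + 1 / n) * (1 - x)))) := by
    have e1 : WL.sq δ ^ 2 * (E / √L) = (WL.sq δ ^ 2 / √L) * E := by ring
    rw [e1]
    exact mul_le_mul f4 f3 hE0.le (by positivity)
  set Q : ℝ := (M * (1 + A ^ 2)) * M * (2 ^ (V ^ 2) / akR V) ^ 2 * 2 ^ (2 * V) * K ^ (2 * V) * Real.exp (2 * V * y) * C2 * X with hQ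
  have hQ0 : 0 ≤ Q := by positivity
  calc cc * (C2 * (X * (E / √L))) = Q * (δ ^ (V ^ 2) * δ ^ (V ^ 2) * δ ^ (2 * V ^ 2) * δ ^ (-(2 * V * η)) *
        δ ^ (x * (V - η) * (-(2 * V)))) * (WL.sq δ ^ 2 * (E / √L)) := by
        rw [hcc, f5, f6, hQ]
        ring
    _ ≤ Q * (δ ^ (V ^ 2) * δ ^ (V ^ 2) * δ ^ (2 * V ^ 2) * δ ^ (-(2 * V * η)) *
        δ ^ (x * (V - η) * (-(2 * V)))) * ((Real.pi * √L) * (Real.exp C1 * δ ^ (-(V ^ 2 + V ^ 2 * (1 + 1 / n) * (1 - x))))) :=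
        mul_le_mul_of_nonneg_left hsqE (by positivity)
    _ = Q * (Real.pi * √L * Real.exp C1) * (δ ^ (V ^ 2) * δ ^ (V ^ 2) * δ ^ (2 * V ^ 2) * δ ^ (-(2 * V * η)) *
      δ ^ (x * (V - η) * (-(2 * V))) * δ ^ (-(V ^ 2 + V ^ 2 * (1 + 1 / n) * (1 - x)))) := by ring
    _ = (Ct - 1) * K ^ (2 * V) * (√L * Real.exp (2 * V * y) * δ ^ (V ^ 2)) * P * X := by
        rw [f9, hQ, hCt]
        ring
    _ ≤ Ct * K ^ (2 * V) * (√L * Real.exp (2 * V * y) * δ ^ (V ^ 2)) * P * X := by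
        refine mul_le_mul_of_nonneg_right (mul_le_mul_of_nonneg_right (mul_le_mul_of_nonneg_right
          (mul_le_mul_of_nonneg_right ?_ hK'.le) (by positivity)) hP0.le) hX0.le
        linarith

/-- the main term of the first moment -/
lemma Lr_one (V : ℝ) : ∃ C : ℝ, ∀ δ : ℝ, 0 < δ → δ ≤ 1 / 16 →
    SM.Lr (fun _ : Fin 1 => V) (fun _ => 0) δ ≤ V ^ 2 * Real.log (1 / δ) + C := by
  obtain ⟨C0, hC0, hC02⟩ := LZ_zero LZB.main
  refine ⟨V ^ 2 * C0, fun δ h0 h1 => ?_⟩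
  have h2 := (abs_le.1 (hC02 δ h0 h1)).2
  have h3 : SM.Lr (fun _ : Fin 1 => V) (fun _ => 0) δ = V ^ 2 * (LZ (1 + 2 * δ) 0).re := by
    unfold SM.Lr
    simp only [Finset.univ_unique, Finset.sum_singleton, sub_zero]
    ring
  rw [h3]
  nlinarith [sq_nonneg V]

/-- (N5) the first moment of the local weight, upper bound -/
theorem fst_up {V : ℝ} (hV : 0 < V) {g : ℝ → ℝ} {A M : ℝ} (hg : TF g A M) : ∃ C : ℝ, 0 < C ∧ Ev fun X δ => ∀ y : ℝ,
    y ≤ (V + 1) * Real.log (1 / δ) → ∫ t in (0:ℝ)..X, FS V g δ y t ≤ C * X := by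
  have ha := akp V
  have hM := hg.M0
  have hA1 := hg.A1
  have hpi := Real.pi_pos
  obtain ⟨C1, H1⟩ := Lr_one V
  have hWW : 0 < WW V := by unfold WW; positivity
  obtain ⟨C2, hC2, HL⟩ := lt 0 V (WW V + 2) hV (by positivity)
  set Ct : ℝ := √Real.pi * (M * (1 + A ^ 2)) * (2 ^ (V ^ 2) / akR V) * C2 * Real.exp C1 + 1 with hCt
  have hCt0 : 0 < Ct := by positivity
  have hX : ∀ᶠ X : ℝ in atTop, (1:ℝ) ≤ X ^ ((1:ℝ) / 2) :=
    (tendsto_rpow_atTop (by norm_num)).eventually_ge_atTop _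
  refine ⟨Ct, hCt0, ((HL.and (Ev.of_ev hX)).and (FS_bd hV hg)).mono ?_⟩
  rintro X δ hX1 h0 h1 ⟨⟨HL, hX2⟩, hFB⟩ y hy
  have hX0 : 0 < X := by linarith
  set L := Real.log (1 / δ) with hLd
  obtain ⟨N, n1, n2, n3, n4, n5⟩ := HL (fun _ => 0) (by
    intro j
    rw [abs_zero]
    linarith)
  obtain ⟨H, hHi, hHl, hHb⟩ := n5 (fun _ => V) (by
    intro j
    rw [abs_of_pos hV]) y
  have hLr := H1 δ h0 h1
  set c0 : ℝ := (2 * δ) ^ (V ^ 2) / akR V with hc0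
  have hc0p : 0 < c0 := div_pos (Real.rpow_pos_of_pos (by linarith) _) ha
  have hsq := sq_nn δ
  set cc : ℝ := WL.sq δ * (M * (1 + A ^ 2)) * c0 with hcc
  have hcc0 : 0 ≤ cc := by positivity
  have hoff := offN (g := fun t => FS V g δ y t) (G := H) (N := N) (X := X)
    (B := δ ^ (-(WW V))) (c := cc) (v := δ ^ (WW V + 2) * X) hX0.le n1 n2 n3
    (mul_nonneg (Real.rpow_nonneg h0.le _) hX0.le)
    (FS_cont hV hg.cont (B := -A) (fun x hx => hg.supp x (by rw [abs_of_nonpos (by linarith)]; linarith)) h1 y)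
    (fun t => FS_nn hg.nn h0.le _ _) (fun t => hFB y t hy) hHi (fun t ht => by
      refine le_trans ?_ (mul_le_mul_of_nonneg_left (hHl t ht) hcc0)
      have hG : SM.G (fun _ : Fin 1 => V) (fun _ => 0) δ t = mz δ t ^ (2 * V) := by
        unfold SM.G
        simp
      rw [hG]
      simp only [add_zero]
      have e4 : FS V g δ y t ≤ WL.sq δ * (M * (1 + A ^ 2) * (1 + (Real.log (mz δ t) - y) ^ 2)⁻¹) *
          (c0 * mz δ t ^ (2 * V)) := by
        unfold FS Zk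
        exact mul_le_mul_of_nonneg_right (mul_le_mul_of_nonneg_left (hg.le_inv _) hsq)
          (mul_nonneg hc0p.le (Real.rpow_nonneg (TMA.mz_nn _ _) _))
      refine e4.trans (le_of_eq ?_)
      rw [hcc]
      ring)
  refine hoff.trans ?_
  have f1 : δ ^ (-(WW V)) * (δ ^ (WW V + 2) * X) = δ ^ (2:ℝ) * X := by
    rw [← mul_assoc, ← Real.rpow_add h0]
    congr 2
    ring
  rw [f1]
  set E := Real.exp (SM.Lr (fun _ : Fin 1 => V) (fun _ => 0) δ) with hE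
  have hE0 : 0 < E := Real.exp_pos _
  have f2 : cc * (∫ t in N, H t) ≤ cc * (C2 * (X * (E / √L))) := mul_le_mul_of_nonneg_left hHb hcc0
  have f3 : E ≤ Real.exp C1 * δ ^ (-(V ^ 2)) := by
    rw [← expL h0, ← Real.exp_add]
    exact Real.exp_le_exp.2 (by linarith)
  have f4 := sqL_div h0 h1 E hE0.le
  have f6 : c0 = 2 ^ (V ^ 2) / akR V * δ ^ (V ^ 2) := by
    rw [hc0, Real.mul_rpow (by norm_num) h0.le]
    ring
  have f7 : δ ^ (V ^ 2) * δ ^ (-(V ^ 2)) = 1 := by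
    rw [← Real.rpow_add h0, add_neg_cancel, Real.rpow_zero]
  have f8 : δ ^ (2:ℝ) ≤ 1 := Real.rpow_le_one h0.le (by linarith) (by norm_num)
  have hsqE : WL.sq δ * (E / √L) ≤ √Real.pi * (Real.exp C1 * δ ^ (-(V ^ 2))) :=
    f4.trans (mul_le_mul_of_nonneg_left f3 (Real.sqrt_nonneg _))
  have q1 := Real.rpow_pos_of_pos h0 (V ^ 2)
  set Q : ℝ := (M * (1 + A ^ 2)) * (2 ^ (V ^ 2) / akR V) * C2 * X with hQ
  have hQ0 : 0 ≤ Q := by positivity
  calc cc * (∫ t in N, H t) + δ ^ (2:ℝ) * X ≤ cc * (C2 * (X * (E / √L))) + 1 * X :=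
        add_le_add f2 (mul_le_mul_of_nonneg_right f8 hX0.le)
    _ = Q * δ ^ (V ^ 2) * (WL.sq δ * (E / √L)) + X := by
        rw [hcc, f6, hQ]
        ring
    _ ≤ Q * δ ^ (V ^ 2) * (√Real.pi * (Real.exp C1 * δ ^ (-(V ^ 2)))) + X :=
        add_le_add (mul_le_mul_of_nonneg_left hsqE (by positivity)) le_rfl
    _ = Q * (√Real.pi * Real.exp C1) * (δ ^ (V ^ 2) * δ ^ (-(V ^ 2))) + X := by ring
    _ = Ct * X := by
        rw [f7, hQ, hCt]
        ring

end Run7.h291.WG
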