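import Pool.Agent.Run7.h291.WG.G7

set_option autoImplicit false

/-! The maximum in windows: the sums over the scales -/

namespace Run7.h291.WG

open Finset Filter MeasureTheory Topology Complex
open Pool.Agent.N748.MG Pool.Agent.N748.MJ Run7.h291.WN Run7.h291.WL Run7.h651.WN

lemma two_pow_JJ {δ : ℝ} (h0 : 0 < δ) (h1 : δ ≤ 1 / 16) : δ * 2 ^ (JJ δ) ≤ 1 := by
  rw [← xj_pow h0 h1]
  exact Real.rpow_le_one h0.le (by linarith) (xj_nn h0 h1 le_rfl)

/-- the integral of the correlations up to distance `1` -/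
lemma near_sum {c : ℝ → ℝ} (hc : Continuous c) (hc0 : ∀ u, 0 ≤ c u) {δ p A0 A1 A2 : ℝ} (h0 : 0 < δ) (h1 : δ ≤ 1 / 16)
    (hp : 1 < p) (hA1 : 0 ≤ A1) (hA2 : 0 ≤ A2) (H0 : ∀ u, 0 ≤ u → u ≤ δ → c u ≤ A0)
    (H1 : ∀ j : ℕ, j ≤ JJ δ → ∀ u, δ * 2 ^ j ≤ u → u ≤ δ * 2 ^ (j + 1) → c u ≤ A1 * (2:ℝ) ^ (-(p * j)) + A2)
    {y : ℝ} (hy : y ≤ 1) : ∫ u in (0:ℝ)..y, c u ≤ A0 * δ + A1 * δ * (1 - 2 ^ (1 - p))⁻¹ + 2 * A2 := by
  have hi : ∀ a b : ℝ, IntervalIntegrable c volume a b := fun a b => hc.intervalIntegrable a b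
  set J := JJ δ with hJ
  have hJ1 : y ≤ δ * 2 ^ (J + 1) := hy.trans (JJ_lt h0).le
  have e1 : ∫ u in (0:ℝ)..y, c u ≤ ∫ u in (0:ℝ)..(δ * 2 ^ (J + 1)), c u := by
    rw [← intervalIntegral.integral_add_adjacent_intervals (hi 0 y) (hi y (δ * 2 ^ (J + 1)))]
    have := intervalIntegral.integral_nonneg (μ := volume) hJ1 fun u _ => hc0 u
    linarith
  have e2 : ∫ u in (0:ℝ)..(δ * 2 ^ (J + 1)), c u = (∫ u in (0:ℝ)..δ, c u) +
      ∑ j ∈ Finset.range (J + 1), ∫ u in (δ * 2 ^ j)..(δ * 2 ^ (j + 1)), c u := by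
    have h2 := intervalIntegral.sum_integral_adjacent_intervals (f := c) (μ := volume) (a := fun j : ℕ => δ * 2 ^ j)
      (n := J + 1) fun k _ => hi _ _
    rw [h2]
    simp only [pow_zero, mul_one]
    rw [intervalIntegral.integral_add_adjacent_intervals (hi _ _) (hi _ _)]
  have e3 : ∫ u in (0:ℝ)..δ, c u ≤ A0 * δ := by
    have h2 := intervalIntegral.integral_mono_on (μ := volume) h0.le (hi 0 δ) (by simp : IntervalIntegrable (fun _ : ℝ => A0) volume 0 δ)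
      fun u hu => H0 u hu.1 hu.2
    rw [intervalIntegral.integral_const, smul_eq_mul, sub_zero] at h2
    linarith
  set q : ℝ := (2:ℝ) ^ (1 - p) with hq
  have hq0 : 0 < q := Real.rpow_pos_of_pos (by norm_num) _
  have hq1 : q < 1 := Real.rpow_lt_one_of_one_lt_of_neg (by norm_num) (by linarith)
  have e4 : ∀ j ∈ Finset.range (J + 1), ∫ u in (δ * 2 ^ j)..(δ * 2 ^ (j + 1)), c u ≤ A1 * δ * q ^ j + A2 * δ * 2 ^ j := by
    intro j hj
    have hjJ : j ≤ J := by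
      have := Finset.mem_range.1 hj
      omega
    have h2j : (0:ℝ) < 2 ^ j := by positivity
    have hle : δ * 2 ^ j ≤ δ * 2 ^ (j + 1) := by
      rw [pow_succ]
      nlinarith
    have h2 := intervalIntegral.integral_mono_on (μ := volume) hle (hi _ _)
      (by simp : IntervalIntegrable (fun _ : ℝ => A1 * (2:ℝ) ^ (-(p * j)) + A2) volume (δ * 2 ^ j) (δ * 2 ^ (j + 1)))
      fun u hu => H1 j hjJ u hu.1 hu.2
    rw [intervalIntegral.integral_const, smul_eq_mul] at h2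
    refine h2.trans (le_of_eq ?_)
    have e5 : (2:ℝ) ^ j * (2:ℝ) ^ (-(p * j)) = q ^ j := by
      rw [hq, ← Real.rpow_natCast 2 j, ← Real.rpow_add (by norm_num), ← Real.rpow_natCast, ← Real.rpow_mul (by norm_num)]
      congr 1
      ring
    have e6 : (δ * 2 ^ (j + 1) - δ * 2 ^ j) * (A1 * (2:ℝ) ^ (-(p * j)) + A2) =
        A1 * δ * ((2:ℝ) ^ j * (2:ℝ) ^ (-(p * j))) + A2 * δ * 2 ^ j := by
      rw [pow_succ]
      ring
    rw [e6, e5]
  have e5 : ∑ j ∈ Finset.range (J + 1), q ^ j ≤ (1 - q)⁻¹ := by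
    have h2 := geom_sum_eq hq1.ne (J + 1)
    rw [h2, ← neg_div_neg_eq, neg_sub, neg_sub, div_eq_mul_inv]
    refine mul_le_of_le_one_left (inv_nonneg.2 (by linarith)) ?_
    have : 0 < q ^ (J + 1) := by positivity
    linarith
  have e6 : ∑ j ∈ Finset.range (J + 1), (2:ℝ) ^ j ≤ 2 ^ (J + 1) := by
    have h2 := geom_sum_eq (show (2:ℝ) ≠ 1 by norm_num) (J + 1)
    rw [h2]
    norm_num
  have e7 : ∑ j ∈ Finset.range (J + 1), ∫ u in (δ * 2 ^ j)..(δ * 2 ^ (j + 1)), c u ≤ A1 * δ * (1 - q)⁻¹ + 2 * A2 := by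
    refine (Finset.sum_le_sum e4).trans ?_
    rw [Finset.sum_add_distrib, ← Finset.mul_sum, ← Finset.mul_sum]
    refine add_le_add (mul_le_mul_of_nonneg_left e5 (by positivity)) ?_
    have h2 := two_pow_JJ h0 h1
    rw [← hJ] at h2
    calc A2 * δ * ∑ j ∈ Finset.range (J + 1), (2:ℝ) ^ j ≤ A2 * δ * 2 ^ (J + 1) := mul_le_mul_of_nonneg_left e6 (by positivity)
      _ = 2 * A2 * (δ * 2 ^ J) := by rw [pow_succ]; ring
      _ ≤ 2 * A2 * 1 := mul_le_mul_of_nonneg_left h2 (by positivity)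
      _ = 2 * A2 := mul_one _
  linarith

/-- the barrier at all dyadic scales -/
noncomputable def BB (n : ℕ) (V η K δ y t : ℝ) : ℝ :=
  ∏ j ∈ Finset.range (JJ δ + 1), psi (kb V η K δ y * bar n (V - η) δ (xj δ j) t)

lemma BB_nn {n : ℕ} {V η K δ y t : ℝ} : 0 ≤ BB n V η K δ y t := Finset.prod_nonneg fun _ _ => psi_nn _
lemma BB_le {n : ℕ} {V η K δ y t : ℝ} : BB n V η K δ y t ≤ 1 := Finset.prod_le_one (fun _ _ => psi_nn _) fun _ _ => psi_le _
lemma BB_cont {n : ℕ} {V η K δ y : ℝ} (h1 : δ ≤ 1 / 16) : Continuous fun t => BB n V η K δ y t := by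
  unfold BB
  exact continuous_finsetProd _ fun i _ => psi_cont.comp (continuous_const.mul (bar_cont h1))

lemma BB_le' {n : ℕ} {V η K δ y t : ℝ} {j : ℕ} (hj : j ≤ JJ δ) : BB n V η K δ y t ≤
    psi (kb V η K δ y * bar n (V - η) δ (xj δ j) t) := by
  unfold BB
  rw [← Finset.mul_prod_erase _ _ (Finset.mem_range.2 (show j < JJ δ + 1 by omega))]
  refine mul_le_of_le_one_right (psi_nn _) ?_
  exact Finset.prod_le_one (fun i _ => psi_nn _) fun i _ => psi_le _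

lemma one_sub_BB {n : ℕ} {V η K δ y t : ℝ} : 1 - BB n V η K δ y t ≤
    ∑ j ∈ Finset.range (JJ δ + 1), (1 - psi (kb V η K δ y * bar n (V - η) δ (xj δ j) t)) :=
  one_sub_prod _ _ (fun i => psi_nn _) (fun i => psi_le _)

/-- the constant in the bound of pairs -/
lemma lev_G {V a δ : ℝ} (hV : 0 < V) (h0 : 0 < δ) (h1 : δ ≤ 1 / 16) :
    √(Real.log (1 / δ)) * Real.exp (2 * V * (lev V δ + a)) * δ ^ (V ^ 2) = Real.exp (2 * V * a) * δ ^ (-(V ^ 2)) := by
  have hL : 0 < Real.log (1 / δ) := lt_of_lt_of_le one_pos (log_inv_ge h0 h1)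
  have h2 : 2 * V * (lev V δ + a) = 2 * V ^ 2 * Real.log (1 / δ) + 2 * V * a - Real.log (Real.log (1 / δ)) / 2 := by
    unfold lev
    field_simp
    ring
  have h3 : Real.exp (Real.log (Real.log (1 / δ)) / 2) = √(Real.log (1 / δ)) := by
    rw [Real.sqrt_eq_rpow, Real.rpow_def_of_pos hL]
    congr 1
    ring
  rw [h2, Real.exp_sub, Real.exp_add, expL h0, h3]
  have hs : 0 < √(Real.log (1 / δ)) := Real.sqrt_pos.2 hL
  have h4 : δ ^ (-(2 * V ^ 2)) * δ ^ (V ^ 2) = δ ^ (-(V ^ 2)) := by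
    rw [← Real.rpow_add h0]
    congr 1
    ring
  calc √(Real.log (1 / δ)) * (δ ^ (-(2 * V ^ 2)) * Real.exp (2 * V * a) / √(Real.log (1 / δ))) * δ ^ (V ^ 2) =
      (√(Real.log (1 / δ)) / √(Real.log (1 / δ))) * Real.exp (2 * V * a) * (δ ^ (-(2 * V ^ 2)) * δ ^ (V ^ 2)) := by ring
    _ = _ := by rw [div_self hs.ne', one_mul, h4]

lemma lev_le (V a : ℝ) (hV : 0 < V) : Ev fun _ δ => lev V δ + a ≤ (V + 1) * Real.log (1 / δ) ∧
    |lev V δ + a - V * Real.log (1 / δ)| ≤ Real.log (1 / δ) ^ ((1:ℝ) / 4) := by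
  have h1 : ∀ᶠ L : ℝ in atTop, a ≤ L := eventually_ge_atTop _
  have h2 : ∀ᶠ L : ℝ in atTop, Real.log L / (4 * V) + |a| ≤ L ^ ((1:ℝ) / 4) := by
    have h3 := (isLittleO_log_rpow_atTop (show (0:ℝ) < 1 / 4 by norm_num)).bound (show (0:ℝ) < 2 * V by positivity)
    have h4 : ∀ᶠ L : ℝ in atTop, 2 * |a| ≤ L ^ ((1:ℝ) / 4) := (tendsto_rpow_atTop (by norm_num)).eventually_ge_atTop _
    filter_upwards [h3, h4, eventually_ge_atTop 1] with L g1 g2 g3
    rw [Real.norm_of_nonneg (Real.log_nonneg g3), Real.norm_of_nonneg (by positivity)] at g1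
    have : Real.log L / (4 * V) ≤ L ^ ((1:ℝ) / 4) / 2 := by
      rw [div_le_iff₀ (by positivity)]
      linarith
    linarith
  refine ((Ev.of_log h1).and (Ev.of_log h2)).mono ?_
  rintro X δ _ h0 h1' ⟨g1, g2⟩
  have hL : 1 ≤ Real.log (1 / δ) := log_inv_ge h0 h1'
  have h5 : 0 ≤ Real.log (Real.log (1 / δ)) / (4 * V) := div_nonneg (Real.log_nonneg hL) (by positivity)
  unfold lev
  constructor
  · linarith
  · refine le_trans ?_ g2
    have e1 : V * Real.log (1 / δ) - Real.log (Real.log (1 / δ)) / (4 * V) + a - V * Real.log (1 / δ) =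
        a - Real.log (Real.log (1 / δ)) / (4 * V) := by ring
    rw [e1]
    have e2 := abs_sub a (Real.log (Real.log (1 / δ)) / (4 * V))
    rw [abs_of_nonneg h5] at e2
    linarith

end Run7.h291.WG
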