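import Pool.Agent.Run7.h291.WG.G8

set_option autoImplicit false

/-! The maximum in windows: the second moment -/

namespace Run7.h291.WG

open Finset Filter MeasureTheory Topology Complex
open Pool.Agent.N748.MG Pool.Agent.N748.MJ Run7.h291.WN Run7.h291.WL Run7.h651.WN

lemma tent_TF : TF tent 1 1 := ⟨tent_cont, tent_nn, tent_le, fun _ h => tent_zero h, le_rfl, zero_le_one⟩

lemma tent_one : ∫ x, tent x = 1 := by
  have h1 := tent_four 0
  have h2 : ∀ ξ : ℝ, (tent ξ : ℂ) * cexp (I * ((0:ℝ):ℂ) * ξ) = (tent ξ : ℂ) := fun ξ => by simp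
  simp_rw [h2] at h1
  rw [integral_complex_ofReal] at h1
  have h3 : kf 0 = 1 := by
    unfold kf
    simp
  rw [h3] at h1
  exact_mod_cast h1

/-- the weight below the barrier -/
noncomputable def fB (n : ℕ) (V η K a δ t : ℝ) : ℝ := FS V tent δ (lev V δ + a) t * BB n V η K δ (lev V δ + a) t

lemma pow_xj {δ p : ℝ} (h0 : 0 < δ) (h1 : δ ≤ 1 / 16) (j : ℕ) : δ ^ ((1 - xj δ j) * p) = (2:ℝ) ^ (-(p * j)) := by
  have h2 := expL h0 (-((1 - xj δ j) * p))
  rw [neg_neg] at h2
  have h3 : -((1 - xj δ j) * p) * Real.log (1 / δ) = Real.log 2 * (-(p * j)) := by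
    have := one_sub_xj h0 h1 j
    calc -((1 - xj δ j) * p) * Real.log (1 / δ) = -(p * ((1 - xj δ j) * Real.log (1 / δ))) := by ring
      _ = _ := by
        rw [this]
        ring
  rw [← h2, h3, ← Real.rpow_def_of_pos (by norm_num)]

lemma FS_up' {V : ℝ} (hV : 0 < V) : ∃ C : ℝ, 0 < C ∧ ∀ δ : ℝ, 0 < δ → δ ≤ 1 / 16 → ∀ y t : ℝ,
    FS V tent δ y t ≤ C * (√(Real.log (1 / δ)) * Real.exp (2 * V * y) * δ ^ (V ^ 2)) := by
  have ha := akp V
  have hpi := Real.pi_pos
  refine ⟨√Real.pi * (2 ^ (V ^ 2) / akR V) * Real.exp (2 * V), by positivity, fun δ h0 h1 y t => ?_⟩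
  refine (FS_up hV tent_TF h0 y t).trans ?_
  have h2 := sq_L h0 h1
  have h3 : Real.exp (2 * V * (y + 1)) = Real.exp (2 * V) * Real.exp (2 * V * y) := by
    rw [← Real.exp_add]
    congr 1
    ring
  have h4 : (2 * δ) ^ (V ^ 2) = 2 ^ (V ^ 2) * δ ^ (V ^ 2) := Real.mul_rpow (by norm_num) h0.le
  have h5 : 0 < δ ^ (V ^ 2) := Real.rpow_pos_of_pos h0 _
  rw [h3, h4]
  calc WL.sq δ * 1 * (2 ^ (V ^ 2) * δ ^ (V ^ 2) / akR V) * (Real.exp (2 * V) * Real.exp (2 * V * y)) ≤
      (√Real.pi * √(Real.log (1 / δ))) * 1 * (2 ^ (V ^ 2) * δ ^ (V ^ 2) / akR V) * (Real.exp (2 * V) * Real.exp (2 * V * y)) := by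
        gcongr
    _ = _ := by ring

/-- the second moment of the weight of a window -/
theorem swin (hM : S_MNB) (hF : S_FLO) (hR : S_FAR) {V : ℝ} (hV : 1 < V) :
    ∃ (n : ℕ) (η : ℝ), ∀ ε : ℝ, 0 < ε → ∃ K a : ℝ, Ev fun X δ =>
    ∫ t in (0:ℝ)..X, (Av (δ ^ (-(V ^ 2 - 1))) (fB n V η K a δ) t - 1) ^ 2 ≤ ε * X := by
  have hV0 : 0 < V := by linarith
  set θ : ℝ := V ^ 2 - 1 with hθ
  have hθ0 : 0 < θ := by
    rw [hθ]
    nlinarith
  set d : ℝ := θ / 2 with hd
  have hd0 : 0 < d := by positivity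
  set η : ℝ := d / (4 * V) with hη
  have hη0 : 0 < η := by positivity
  obtain ⟨n, hn⟩ := exists_nat_ge (2 * V ^ 2 / d + 1)
  have hn1 : (1:ℝ) ≤ n := le_trans (by have : 0 ≤ 2 * V ^ 2 / d := by positivity
                                       linarith) hn
  have hn1' : 1 ≤ n := by exact_mod_cast hn1
  have hn0 : (0:ℝ) < n := by linarith
  set p : ℝ := V ^ 2 - V ^ 2 / n - 2 * V * η with hp
  have hp1 : 1 < p := by
    have g1 : V ^ 2 / n ≤ d / 2 := by
      rw [div_le_iff₀ hn0]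
      have g2 : 2 * V ^ 2 / d ≤ n := by linarith
      rw [div_le_iff₀ hd0] at g2
      linarith
    have g3 : 2 * V * η = d / 2 := by
      rw [hη]
      field_simp
      norm_num
    have g4 : V ^ 2 = 1 + 2 * d := by
      rw [hd, hθ]
      ring
    rw [hp, g3]
    linarith
  have hηV : η ≤ 2 * V := by
    rw [hη, div_le_iff₀ (by positivity), hd, hθ]
    nlinarith
  refine ⟨n, η, fun ε hε => ?_⟩
  -- the constants
  set e : ℝ := min (ε / 20) 1 with he
  have he0 : 0 < e := lt_min (by positivity) one_pos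
  have he1 : e ≤ 1 := min_le_right _ _
  have he2 : e ≤ ε / 20 := min_le_left _ _
  obtain ⟨C3, hC3, E3⟩ := loss n hn1' hV0 hη0 hηV tent_TF
  obtain ⟨C4, hC4, E4⟩ := pair n hn1' hV0 hη0 tent_TF
  obtain ⟨C5, hC5, E5⟩ := fst_up hV0 tent_TF
  obtain ⟨Cs, hCs, E6⟩ := FS_up' hV0
  obtain ⟨C2, δ0, hC2, hδ0, E7⟩ := hM V hV0 e he0
  set q3 : ℝ := (2:ℝ) ^ (-(η ^ 2 / 2)) with hq3
  have hq30 : 0 < q3 := Real.rpow_pos_of_pos (by norm_num) _
  have hq31 : q3 < 1 := Real.rpow_lt_one_of_one_lt_of_neg (by norm_num) (by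
    have : 0 < η ^ 2 / 2 := by positivity
    linarith)
  set q : ℝ := (2:ℝ) ^ (1 - p) with hq
  have hq0 : 0 < q := Real.rpow_pos_of_pos (by norm_num) _
  have hq1 : q < 1 := Real.rpow_lt_one_of_one_lt_of_neg (by norm_num) (by linarith)
  have hiq3 : 0 < (1 - q3)⁻¹ := inv_pos.2 (by linarith)
  have hiq : 0 < (1 - q)⁻¹ := inv_pos.2 (by linarith)
  set B3 : ℝ := 4 * (C3 * (1 - q3)⁻¹) / e + 1 with hB3
  have hB31 : 1 ≤ B3 := by
    rw [hB3]
    have : 0 ≤ 4 * (C3 * (1 - q3)⁻¹) / e := by positivity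
    linarith
  set K : ℝ := B3 ^ (1 / η) with hK
  have hK1 : 1 ≤ K := Real.one_le_rpow hB31 (by positivity)
  have hK0 : 0 < K := by linarith
  have hKη : C3 * K ^ (-η) * (1 - q3)⁻¹ ≤ e / 4 := by
    have g1 : K ^ (-η) = B3⁻¹ := by
      rw [hK, ← Real.rpow_mul (by linarith)]
      have : 1 / η * -η = -1 := by field_simp
      rw [this, Real.rpow_neg_one]
    rw [g1]
    have g2 : C3 * B3⁻¹ * (1 - q3)⁻¹ = (C3 * (1 - q3)⁻¹) / B3 := by ring
    rw [g2, div_le_iff₀ (by linarith), hB3]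
    have g3 : e / 4 * (4 * (C3 * (1 - q3)⁻¹) / e + 1) = C3 * (1 - q3)⁻¹ + e / 4 := by
      field_simp
    rw [g3]
    linarith
  set D : ℝ := Cs * C5 + C4 * K ^ (2 * V) * (1 - q)⁻¹ + 1 with hD
  have hKp : 0 < K ^ (2 * V) := Real.rpow_pos_of_pos hK0 _
  have hD0 : 0 < D := by positivity
  set a : ℝ := Real.log (e / (2 * D)) / (2 * V) with ha
  have hae : Real.exp (2 * V * a) = e / (2 * D) := by
    have g1 : 2 * V * a = Real.log (e / (2 * D)) := by
      rw [ha]
      field_simp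
    rw [g1, Real.exp_log (by positivity)]
  refine ⟨K, a, ?_⟩
  have E2 := hR V θ hV0 hθ0 tent 1 1 tent_TF e he0
  have E1 := hF V hV0 tent 1 1 tent_TF (e / 2) (half_pos he0)
  set W : ℝ := WW V with hW
  have hW0 : 0 < W := by
    rw [hW]
    unfold WW
    positivity
  refine (((((((((((E1.and E2).and E3).and E4).and E5).and (lev_le V a hV0)).and (FS_bd hV0 tent_TF)).and (Ev.of_le hδ0)).and
    (Ev.win (D := θ + 2 * W) (c := e) (e := 1) he0 one_pos)).and
    (Ev.win (D := θ + W) (c := e) (e := 1) he0 one_pos)).and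
    ((Ev.small (C := (1 + e) * C2) (c := θ) (e := e) hθ0 he0).and
    ((Ev.small (C := 2) (c := 1) (e := e / 4) one_pos (by positivity)).and
      (Ev.small (C := 2) (c := 2) (e := e / 2) two_pos (by positivity)))))).mono ?_
  rintro X δ hX1 h0 h1 ⟨⟨⟨⟨⟨⟨⟨⟨⟨⟨E1, E2⟩, E3⟩, E4⟩, E5⟩, El⟩, EB⟩, hδ⟩, w2⟩, w3⟩, s2, s3, s4⟩
  have hX0 : 0 < X := by linarith
  rw [Real.rpow_one] at w2 w3 s3
  set y : ℝ := lev V δ + a with hy
  obtain ⟨hy1, hy2⟩ := El
  have E1 := E1 y hy2
  rw [tent_one] at E1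
  have E5 := E5 y hy1
  set H : ℝ := δ ^ (-θ) with hH
  have hH0 : 0 < H := Real.rpow_pos_of_pos h0 _
  have hH1 : 1 ≤ H := Real.one_le_rpow_of_pos_of_le_one_of_nonpos h0 (by linarith) (by linarith)
  set Mb : ℝ := δ ^ (-W) with hMd
  have hMb0 : 0 < Mb := Real.rpow_pos_of_pos h0 _
  have hFc : Continuous fun t => FS V tent δ y t :=
    FS_cont hV0 tent_cont (B := -1) (fun x hx => tent_zero (by rw [abs_of_nonpos (by linarith)]; linarith)) h1 y
  have hBc : Continuous fun t => BB n V η K δ y t := BB_cont h1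
  have hFn : ∀ t, 0 ≤ FS V tent δ y t := fun t => FS_nn tent_nn h0.le _ t
  have hfe : fB n V η K a δ = fun t => FS V tent δ y t * BB n V η K δ y t := rfl
  set f : ℝ → ℝ := fun t => FS V tent δ y t * BB n V η K δ y t with hf
  rw [hfe]
  have hfc : Continuous f := hFc.mul hBc
  have hf0 : ∀ t, 0 ≤ f t := fun t => mul_nonneg (hFn t) BB_nn
  have hfF : ∀ t, f t ≤ FS V tent δ y t := fun t => mul_le_of_le_one_right (hFn t) BB_le
  have hfM : ∀ t, f t ≤ Mb := fun t => (hfF t).trans (EB y t hy1)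
  set G0 : ℝ := √(Real.log (1 / δ)) * Real.exp (2 * V * y) * δ ^ (V ^ 2) with hG0
  have hG : G0 = Real.exp (2 * V * a) * δ ^ (-(V ^ 2)) := lev_G hV0 h0 h1
  have hG00 : 0 < G0 := by
    rw [hG]
    have := Real.rpow_pos_of_pos h0 (-(V ^ 2))
    positivity
  have hGδ : G0 * δ = e / (2 * D) * H := by
    rw [hG, hae, mul_assoc, hH]
    congr 1
    nth_rw 2 [← Real.rpow_one δ]
    rw [← Real.rpow_add h0]
    congr 1
    rw [hθ]
    ring
  -- the correlations
  have hcor : Continuous fun u => ∫ t in (0:ℝ)..X, f t * f (t + u) := by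
    refine intervalIntegral.continuous_parametric_intervalIntegral_of_continuous (f := fun u t =>
      f t * f (t + u)) ?_ continuous_const
    exact (hfc.comp continuous_snd).mul (hfc.comp (by fun_prop))
  have hi : ∀ a b : ℝ, IntervalIntegrable (fun u => ∫ t in (0:ℝ)..X, f t * f (t + u)) volume a b := fun a b =>
    hcor.intervalIntegrable a b
  have hcor0 : ∀ u, 0 ≤ ∫ t in (0:ℝ)..X, f t * f (t + u) := fun u =>
    intervalIntegral.integral_nonneg hX0.le fun t _ => mul_nonneg (hf0 _) (hf0 _)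
  have near : ∀ y' : ℝ, y' ≤ 1 → ∫ u in (0:ℝ)..y', ∫ t in (0:ℝ)..X, f t * f (t + u) ≤ X * (e * H) := by
    intro y' hy'
    have key := near_sum hcor hcor0 (p := p) (A0 := Cs * G0 * (C5 * X)) (A1 := C4 * K ^ (2 * V) * G0 * X) (A2 := δ ^ (2:ℝ) * X)
      h0 h1 hp1 (by positivity) (by positivity) (fun u _ _ => ?_) (fun j hj u hu1 hu2 => ?_) hy'
    · refine key.trans ?_
      rw [← hq]
      have g1 : Cs * G0 * (C5 * X) * δ + C4 * K ^ (2 * V) * G0 * X * δ * (1 - q)⁻¹ =
          X * ((Cs * C5 + C4 * K ^ (2 * V) * (1 - q)⁻¹) * (G0 * δ)) := by ring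
      have g2 : (Cs * C5 + C4 * K ^ (2 * V) * (1 - q)⁻¹) * (G0 * δ) ≤ e / 2 * H := by
        rw [hGδ]
        have g3 : Cs * C5 + C4 * K ^ (2 * V) * (1 - q)⁻¹ ≤ D := by
          rw [hD]
          linarith
        calc (Cs * C5 + C4 * K ^ (2 * V) * (1 - q)⁻¹) * (e / (2 * D) * H) ≤ D * (e / (2 * D) * H) :=
              mul_le_mul_of_nonneg_right g3 (by positivity)
          _ = e / 2 * H := by field_simp
      have g4 : 2 * (δ ^ (2:ℝ) * X) ≤ X * (e / 2 * H) := by
        have g5 : e / 2 * 1 ≤ e / 2 * H := mul_le_mul_of_nonneg_left hH1 (by positivity)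
        nlinarith
      rw [g1]
      have g5 := mul_le_mul_of_nonneg_left g2 hX0.le
      linarith
    · -- very near pairs
      calc ∫ t in (0:ℝ)..X, f t * f (t + u) ≤ ∫ t in (0:ℝ)..X, (Cs * G0) * FS V tent δ y t := by
            refine intervalIntegral.integral_mono_on hX0.le ?_ ?_ fun t _ => ?_
            · exact (hfc.mul (hfc.comp (by fun_prop))).intervalIntegrable _ _
            · exact (continuous_const.mul hFc).intervalIntegrable _ _
            · rw [mul_comm]
              exact mul_le_mul ((hfF _).trans (E6 δ h0 h1 y _)) (hfF t) (hf0 t) (by positivity)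
        _ = (Cs * G0) * ∫ t in (0:ℝ)..X, FS V tent δ y t := intervalIntegral.integral_const_mul _ _
        _ ≤ _ := mul_le_mul_of_nonneg_left E5 (by positivity)
    · -- near pairs
      have k1 := xj_pow h0 h1 j
      have g1 := E4 (xj δ j) y K u (xj_nn h0 h1 hj) (xj_le h0 h1 j) hy1 hK1 (by rw [k1]; exact hu1) (by
        rw [k1]
        refine hu2.trans (le_of_eq ?_)
        rw [pow_succ]
        ring)
      calc ∫ t in (0:ℝ)..X, f t * f (t + u) ≤ ∫ t in (0:ℝ)..X, FS V tent δ y t * FS V tent δ y (t + u) *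
            psi (kb V η K δ y * bar n (V - η) δ (xj δ j) t) := by
            refine intervalIntegral.integral_mono_on hX0.le ?_ ?_ fun t _ => ?_
            · exact (hfc.mul (hfc.comp (by fun_prop))).intervalIntegrable _ _
            · exact ((hFc.mul (hFc.comp (by fun_prop))).mul
                (psi_cont.comp (continuous_const.mul (bar_cont h1)))).intervalIntegrable _ _
            · have r1 : f t ≤ FS V tent δ y t * psi (kb V η K δ y * bar n (V - η) δ (xj δ j) t) :=
                mul_le_mul_of_nonneg_left (BB_le' hj) (hFn t)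
              calc f t * f (t + u) ≤ (FS V tent δ y t * psi (kb V η K δ y * bar n (V - η) δ (xj δ j) t)) *
                    FS V tent δ y (t + u) := mul_le_mul r1 (hfF _) (hf0 _) (mul_nonneg (hFn t) (psi_nn _))
                _ = _ := by ring
        _ ≤ _ := g1
        _ = _ := by
            rw [pow_xj h0 h1 j]
            ring
  have far : ∀ u : ℝ, 1 ≤ u → u ≤ H → ∫ t in (0:ℝ)..X, f t * f (t + u) ≤ X * ((1 + e) * B2 V δ u + e) := by
    intro u hu1 hu2
    have g1 := E2 y u hy1 hu1 hu2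
    rw [tent_one] at g1
    have g2 : ∫ t in (0:ℝ)..X, f t * f (t + u) ≤ ∫ t in (0:ℝ)..X, FS V tent δ y t * FS V tent δ y (t + u) := by
      refine intervalIntegral.integral_mono_on hX0.le ?_ ?_ fun t _ => ?_
      · exact (hfc.mul (hfc.comp (by fun_prop))).intervalIntegrable _ _
      · exact (hFc.mul (hFc.comp (by fun_prop))).intervalIntegrable _ _
      · exact mul_le_mul (hfF _) (hfF _) (hf0 _) (hFn _)
    refine (g2.trans g1).trans (le_of_eq ?_)
    ring
  have hprim : ∀ y' ∈ Set.Icc 0 H, ∫ u in (0:ℝ)..y', ∫ t in (0:ℝ)..X, f t * f (t + u) ≤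
      X * (((1 + e) ^ 2 + e) * y' + (e * H + (1 + e) * C2)) := by
    rintro y' ⟨hy0, hyH⟩
    rcases le_total y' 1 with hy1 | hy1
    · refine (near y' hy1).trans (mul_le_mul_of_nonneg_left ?_ hX0.le)
      have h2 : 0 ≤ ((1 + e) ^ 2 + e) * y' + (1 + e) * C2 := by positivity
      linarith
    · rw [← intervalIntegral.integral_add_adjacent_intervals (hi 0 1) (hi 1 y')]
      have h2 := near 1 le_rfl
      have h3 : ∫ u in (1:ℝ)..y', ∫ t in (0:ℝ)..X, f t * f (t + u) ≤ ∫ h in (1:ℝ)..y', X * ((1 + e) * B2 V δ h + e) := by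
        refine intervalIntegral.integral_mono_on hy1 (hi _ _) ?_ fun h hh => ?_
        · exact (continuous_const.mul ((continuous_const.mul (B2_cont h0)).add continuous_const)).intervalIntegrable _ _
        · exact far h hh.1 (hh.2.trans hyH)
      have h4 : ∫ h in (1:ℝ)..y', X * ((1 + e) * B2 V δ h + e) = X * ((1 + e) * (∫ h in (1:ℝ)..y', B2 V δ h) + (y' - 1) * e) := by
        have hq : Continuous fun h : ℝ => (1 + e) * B2 V δ h := continuous_const.mul (B2_cont h0)
        rw [intervalIntegral.integral_const_mul, intervalIntegral.integral_add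
          (hq.intervalIntegrable _ _) (by simp),
          intervalIntegral.integral_const_mul, intervalIntegral.integral_const, smul_eq_mul]
      have h5 := E7 δ h0 hδ y' hy1
      rw [h4] at h3
      have h6 : X * ((1 + e) * (∫ h in (1:ℝ)..y', B2 V δ h) + (y' - 1) * e) ≤
          X * ((1 + e) * ((1 + e) * y' + C2) + y' * e) := by
        refine mul_le_mul_of_nonneg_left (add_le_add (mul_le_mul_of_nonneg_left h5 (by linarith)) ?_) hX0.le
        nlinarith
      nlinarith
  -- the mean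
  have hmean : (1 - e) * X ≤ ∫ t in (0:ℝ)..X, f t := by
    have hti : ∀ j : ℕ, IntervalIntegrable
        (fun t => FS V tent δ y t * (1 - psi (kb V η K δ y * bar n (V - η) δ (xj δ j) t))) volume 0 X := fun i =>
      (hFc.mul (continuous_const.sub (psi_cont.comp (continuous_const.mul (bar_cont h1))))).intervalIntegrable _ _
    have q1 : ∫ t in (0:ℝ)..X, FS V tent δ y t * (1 - BB n V η K δ y t) ≤
        ∑ j ∈ Finset.range (JJ δ + 1), ∫ t in (0:ℝ)..X, FS V tent δ y t * (1 - psi (kb V η K δ y * bar n (V - η) δ (xj δ j) t)) := by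
      rw [← intervalIntegral.integral_finsetSum fun i _ => hti i]
      refine intervalIntegral.integral_mono_on hX0.le ((hFc.mul (continuous_const.sub hBc)).intervalIntegrable _ _) ?_
        fun t _ => ?_
      · exact Continuous.intervalIntegrable (by
          refine continuous_finsetSum _ fun i _ => ?_
          exact hFc.mul (continuous_const.sub (psi_cont.comp (continuous_const.mul (bar_cont h1))))) _ _
      · rw [← Finset.mul_sum]
        exact mul_le_mul_of_nonneg_left one_sub_BB (hFn t)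
    have q2 : ∀ j ∈ Finset.range (JJ δ + 1), ∫ t in (0:ℝ)..X, FS V tent δ y t *
        (1 - psi (kb V η K δ y * bar n (V - η) δ (xj δ j) t)) ≤ (C3 * K ^ (-η) * q3 ^ j + δ ^ (2:ℝ)) * X := by
      intro j hj
      have hjJ : j ≤ JJ δ := by
        have := Finset.mem_range.1 hj
        omega
      have g1 := E3 (xj δ j) y K (xj_nn h0 h1 hjJ) (xj_le h0 h1 j) hy1 hK1
      have g2 : δ ^ (η ^ 2 / 2 * (1 - xj δ j)) = q3 ^ j := by
        rw [mul_comm, pow_xj h0 h1 j, hq3, ← Real.rpow_natCast ((2:ℝ) ^ (-(η ^ 2 / 2))) j, ← Real.rpow_mul (by norm_num)]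
        congr 1
        ring
      rw [g2] at g1
      exact g1
    have q3' : ∑ j ∈ Finset.range (JJ δ + 1), (C3 * K ^ (-η) * q3 ^ j + δ ^ (2:ℝ)) * X ≤ e / 2 * X := by
      rw [← Finset.sum_mul, Finset.sum_add_distrib, ← Finset.mul_sum, Finset.sum_const, Finset.card_range, nsmul_eq_mul]
      refine mul_le_mul_of_nonneg_right ?_ hX0.le
      have g1 : ∑ j ∈ Finset.range (JJ δ + 1), q3 ^ j ≤ (1 - q3)⁻¹ := by
        have h2 := geom_sum_eq hq31.ne (JJ δ + 1)
        rw [h2, ← neg_div_neg_eq, neg_sub, neg_sub, div_eq_mul_inv]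
        refine mul_le_of_le_one_left (inv_nonneg.2 (by linarith)) ?_
        have : 0 < q3 ^ (JJ δ + 1) := by positivity
        linarith
      have hKn : 0 < K ^ (-η) := Real.rpow_pos_of_pos hK0 _
      have g2 := mul_le_mul_of_nonneg_left g1 (show 0 ≤ C3 * K ^ (-η) by positivity)
      have g3 : ((JJ δ + 1 : ℕ) : ℝ) * δ ^ (2:ℝ) ≤ e / 4 := by
        have r1 : ((JJ δ + 1 : ℕ) : ℝ) ≤ 2 ^ (JJ δ + 1) := by
          exact_mod_cast (Nat.lt_two_pow_self (n := JJ δ + 1)).le
        have r2 := two_pow_JJ h0 h1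
        have r3 : δ ^ (2:ℝ) = δ * δ := by
          rw [Real.rpow_two]
          ring
        rw [r3]
        calc ((JJ δ + 1 : ℕ) : ℝ) * (δ * δ) ≤ 2 ^ (JJ δ + 1) * (δ * δ) := mul_le_mul_of_nonneg_right r1 (by positivity)
          _ = 2 * (δ * 2 ^ (JJ δ)) * δ := by
              rw [pow_succ]
              ring
          _ ≤ 2 * 1 * δ := by
              refine mul_le_mul_of_nonneg_right ?_ h0.le
              linarith
          _ = 2 * δ := by ring
          _ ≤ e / 4 := s3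
      linarith
    have q4 : ∫ t in (0:ℝ)..X, FS V tent δ y t * (1 - BB n V η K δ y t) ≤ e / 2 * X :=
      q1.trans ((Finset.sum_le_sum q2).trans q3')
    have q7 : ∫ t in (0:ℝ)..X, f t = (∫ t in (0:ℝ)..X, FS V tent δ y t) -
        ∫ t in (0:ℝ)..X, FS V tent δ y t * (1 - BB n V η K δ y t) := by
      have r1 : Continuous fun t => FS V tent δ y t * (1 - BB n V η K δ y t) := hFc.mul (continuous_const.sub hBc)
      rw [← intervalIntegral.integral_sub (hFc.intervalIntegrable _ _) (r1.intervalIntegrable _ _)]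
      refine intervalIntegral.integral_congr fun t _ => ?_
      show FS V tent δ y t * BB n V η K δ y t = _
      ring
    rw [q7]
    linarith
  have hdev := dev_le (f := f) (M := Mb) (X := X) (H := H) (a := (1 + e) ^ 2 + e) (b := e * H + (1 + e) * C2) (e := e)
    hfc hf0 hfM hX0 hH0 hprim hmean
  unfold Av
  refine hdev.trans ?_
  have g1 : 2 * (e * H + (1 + e) * C2) / H ≤ 4 * e := by
    have q2 : 1 / H = δ ^ θ := by
      rw [hH, Real.rpow_neg h0.le, one_div, inv_inv]
    have q3 : 2 * (e * H + (1 + e) * C2) / H = 2 * e + 2 * ((1 + e) * C2 * (1 / H)) := by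
      field_simp
    rw [q3, q2]
    linarith
  have g2 : H * Mb ^ 2 / X ≤ e := by
    rw [div_le_iff₀ hX0]
    have : H * Mb ^ 2 = δ ^ (-(θ + 2 * W)) := by
      rw [hH, hMd, pow_two, ← Real.rpow_add h0, ← Real.rpow_add h0]
      congr 1
      ring
    rw [this]
    exact w2
  have g3 : 2 * H * Mb / X ≤ 2 * e := by
    rw [div_le_iff₀ hX0]
    have : H * Mb = δ ^ (-(θ + W)) := by
      rw [hH, hMd, ← Real.rpow_add h0]
      congr 1
      ring
    rw [mul_assoc, this]
    linarith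
  have g4 : (1 + e) ^ 2 + e + 2 * (e * H + (1 + e) * C2) / H + H * Mb ^ 2 / X - 1 + 2 * e +
      2 * H * Mb / X ≤ ε := by
    nlinarith
  calc X * ((1 + e) ^ 2 + e + 2 * (e * H + (1 + e) * C2) / H + H * Mb ^ 2 / X - 1 + 2 * e +
      2 * H * Mb / X) ≤ X * ε := mul_le_mul_of_nonneg_left g4 hX0.le
    _ = ε * X := mul_comm _ _

end Run7.h291.WG
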