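import Pool.Agent.Run7.h291.WG.G18

set_option autoImplicit false

/-!
# High values up to the edge (T18): statements of parts

`V > 1`, `W = δ^(-(V²-1))` the length of the window, `lev V δ` the level of the maximum, `L = log (1/δ)`,
`FS V g δ y t = √(π log (1/(2δ))) g(log |ζ| - y) (2δ)^(V²) |ζ|^(2V) / a(V)`, levels `lev V δ + a` with `-L^(1/4)/2 ≤ a ≤ a0(ε)`.
-/

namespace Run7.h291.WG

open Finset Filter MeasureTheory Topology Complex
open Pool.Agent.N748.MG Pool.Agent.N748.MJ Run7.h291.WN Run7.h291.WL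

/-- (LLN) the law of large numbers for the local weight below the edge (helper291) -/
def S_LLN : Prop := ∀ V : ℝ, 1 < V → ∀ (g : ℝ → ℝ) (A M : ℝ), TF g A M → ∀ ε : ℝ, 0 < ε → ∃ a0 : ℝ, Ev fun X δ =>
  ∀ a : ℝ, a ≤ a0 → -(Real.log (1 / δ) ^ ((1:ℝ) / 4) / 2) ≤ a →
  volume {t : ℝ | 0 ≤ t ∧ t ≤ X ∧
    ε < |Av (δ ^ (-(V ^ 2 - 1))) (fun u => FS V g δ (lev V δ + a) u) t - ∫ x, g x|} ≤ ENNReal.ofReal (ε * X)

/-- the constant -/
noncomputable def cV (V : ℝ) : ℝ := akR V / (√Real.pi * 2 ^ (V ^ 2))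

/-- (CNT) the exact amount of the values above `exp (lev V δ + a)`.

Proof. `vol (LV V a δ t) = ∫_window 1(log |ζ| ≥ y)`, `y = lev V δ + a`. Between `y` and `y + R`: choose trapezoids `h⁻ ≤ 1_[0,R] ≤ h⁺`
(continuous, compact support) and use LLN with `g(x) = exp (-2Vx) h(x)`, for which
`FS V g δ y t = (WL.sq δ) (2δ)^(V²) / akR V * exp (2 V y) * h(log |ζ| - y)` and
`W * akR V / (WL.sq δ * (2δ)^(V²) * exp (2Vy)) = (√log(1/δ) / √log (1/(2δ))) cV V δ exp (-2Va)` (see `lev_G`, `sq_L` in `G8`, `G4`).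
Above `y + R`: outside a set of measure `ε X` the maximum is at most `exp (lev V δ + a')` (`mxq`, `G15`), and the mean of the
amount of the values in `[y + j, y + j + 1)` is at most `C δ exp (-2V(a+j))` by `fst_up` (`G6`, all levels `≤ (V+1) L`) for a `TF`
function which is `≥ 1` on `[0,1]` (e.g. `2 * tent (x / 2)`): sum over `R ≤ j ≤ a' - a` and Markov. -/
def S_CNT : Prop := ∀ V : ℝ, 1 < V → ∀ ε : ℝ, 0 < ε → ∃ a0 : ℝ, Ev fun X δ =>
  ∀ a : ℝ, a ≤ a0 → -(Real.log (1 / δ) ^ ((1:ℝ) / 4) / 2) ≤ a →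
  volume {t : ℝ | 0 ≤ t ∧ t ≤ X ∧
    ε < |volume.real (LV V a δ t) / (δ * Real.exp (-(2 * V * a))) - cV V / (2 * V)|} ≤ ENNReal.ofReal (ε * X)

/-- (MOM) the exact value of the `2k`-th moment, `k > V`, restricted to the values below `exp (lev V δ + a)`.

Proof. As CNT: for the values between `y - R` and `y` use LLN with `g(x) = exp (2(k-V)x) h(x)`, `h⁻ ≤ 1_[-R,0] ≤ h⁺`, for which
`FS V g δ y t = (WL.sq δ) (2δ)^(V²) / akR V * exp (-2(k-V)y) * |ζ|^(2k) * h(log |ζ| - y)`. Values below `y - R`: the mean of the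
`2k`-th moment over the values in `[y - j - 1, y - j)` is at most `C δ exp (2k(y-j)) exp (-2V(a-j))` by `fst_up`
(all levels `≤ (V+1) L`, also negative ones): sum over `R ≤ j ≤ C' L`; the values below `exp (y - C' L)` are trivial. -/
def S_MOM : Prop := ∀ V k : ℝ, 1 < V → V < k → ∀ ε : ℝ, 0 < ε → ∃ a0 : ℝ, Ev fun X δ =>
  ∀ a : ℝ, a ≤ a0 → -(Real.log (1 / δ) ^ ((1:ℝ) / 4) / 2) ≤ a →
  volume {t : ℝ | 0 ≤ t ∧ t ≤ X ∧
    ε < |(∫ u in {u : ℝ | u ∈ Set.Icc t (t + δ ^ (-(V ^ 2 - 1))) ∧ mz δ u < Real.exp (lev V δ + a)}, mz δ u ^ (2 * k)) /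
      (δ * Real.exp (2 * k * (lev V δ + a)) * Real.exp (-(2 * V * a))) - cV V / (2 * (k - V))|} ≤ ENNReal.ofReal (ε * X)

end Run7.h291.WG
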